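import Mathlib

/-!
# A Banach space which is not WCG although its bidual is WCG: definitions

`T` is the node set of a forest (every node has at most one parent, levels are finite).
`W` is the James tree space of the forest: all `x : T → ℝ` such that the supremum over all
finite families of pairwise disjoint finite segments `S` of `∑ (∑_{t ∈ S} x t)^2` is finite.
For the special forest on `Γ × ℕ × ℕ` defined by a map `Φ` the space `X` is the closed subspace
of all `w ∈ W` such that the sum of `w` over the line `(γ, k, ·)` is `2^(-k)` times the sum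
over the line `(γ, 0, ·)`.
-/

set_option autoImplicit false
set_option maxSynthPendingDepth 3

open scoped ENNReal Topology
open Filter

namespace Pool.Agent.H191W

/-- A forest on the set of nodes `T`. -/
structure Forest (T : Type) where
  par : T → Option T
  lev : T → ℕ
  lev_root : ∀ t, par t = none → lev t = 0
  lev_par : ∀ t s, par t = some s → lev t = lev s + 1

namespace Forest

variable {T : Type} (F : Forest T)

/-- The `i`-th ancestor of `t`. -/
def anc (t : T) : ℕ → Option T
  | 0 => some t
  | i + 1 => (anc t i).bind F.par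

/-- `a ≤ b`: `a` is an ancestor of `b` (or equal to `b`). -/
def le (a b : T) : Prop := ∃ i, F.anc b i = some a

/-- The segment with top node `p.1`, going down at most `p.2` steps. -/
def seg (p : T × ℕ) : Set T := {s | ∃ i, i ≤ p.2 ∧ F.anc p.1 i = some s}

/-- The sum of `x` over the segment `p`. -/
noncomputable def ssum (x : T → ℝ) (p : T × ℕ) : ℝ :=
  ∑ i ∈ Finset.range (p.2 + 1), ((F.anc p.1 i).elim 0 x)

/-- A finite family of pairwise disjoint segments. -/
def Disj (S : Finset (T × ℕ)) : Prop := (S : Set (T × ℕ)).PairwiseDisjoint F.seg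

/-- Index set of the norming functionals. -/
def Idx : Type := {q : Finset (T × ℕ) × (T × ℕ → ℝ) // F.Disj q.1 ∧ ∑ p ∈ q.1, (q.2 p) ^ 2 ≤ 1}

/-- The index of the coordinate functional at `t`. -/
noncomputable def dlt (t : T) : F.Idx :=
  ⟨({(t, 0)}, fun _ => 1), by
    constructor
    · unfold Disj
      simp
    · simp⟩

theorem ssum_add (x y : T → ℝ) (p : T × ℕ) :
    F.ssum (fun t => x t + y t) p = F.ssum x p + F.ssum y p := by
  unfold ssum
  rw [← Finset.sum_add_distrib]
  refine Finset.sum_congr rfl fun i _ => ?_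
  cases F.anc p.1 i <;> simp

theorem ssum_smul (c : ℝ) (x : T → ℝ) (p : T × ℕ) :
    F.ssum (fun t => c * x t) p = c * F.ssum x p := by
  unfold ssum
  rw [Finset.mul_sum]
  refine Finset.sum_congr rfl fun i _ => ?_
  cases F.anc p.1 i <;> simp

theorem ssum_zero (p : T × ℕ) : F.ssum (fun _ => 0) p = 0 := by
  unfold ssum
  refine Finset.sum_eq_zero fun i _ => ?_
  cases F.anc p.1 i <;> simp

/-- The James tree space of the forest `F`. -/
noncomputable def W : Submodule ℝ (lp (fun _ : F.Idx => ℝ) ∞) where
  carrier := {f | ∀ q : F.Idx, f q = ∑ p ∈ q.1.1, q.1.2 p * F.ssum (fun t => f (F.dlt t)) p}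
  add_mem' := by
    intro f g hf hg q
    show f q + g q = _
    rw [hf q, hg q, ← Finset.sum_add_distrib]
    refine Finset.sum_congr rfl fun p _ => ?_
    have : (fun t => (f + g : lp (fun _ : F.Idx => ℝ) ∞) (F.dlt t)) =
        fun t => f (F.dlt t) + g (F.dlt t) := rfl
    rw [this, ssum_add, mul_add]
  zero_mem' := by
    intro q
    show (0 : ℝ) = _
    symm
    refine Finset.sum_eq_zero fun p _ => ?_
    have : (fun t => (0 : lp (fun _ : F.Idx => ℝ) ∞) (F.dlt t)) = fun _ => (0 : ℝ) := rfl
    rw [this, ssum_zero, mul_zero]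
  smul_mem' := by
    intro c f hf q
    show c * f q = _
    rw [hf q, Finset.mul_sum]
    refine Finset.sum_congr rfl fun p _ => ?_
    have : (fun t => (c • f : lp (fun _ : F.Idx => ℝ) ∞) (F.dlt t)) =
        fun t => c * f (F.dlt t) := rfl
    rw [this, ssum_smul]
    ring

/-- The coordinate `t` of `w`. -/
noncomputable def coord (w : F.W) (t : T) : ℝ := (w : lp (fun _ : F.Idx => ℝ) ∞) (F.dlt t)

theorem coord_add (v w : F.W) (t : T) : F.coord (v + w) t = F.coord v t + F.coord w t := rfl
theorem coord_smul (c : ℝ) (w : F.W) (t : T) : F.coord (c • w) t = c * F.coord w t := rfl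
theorem coord_sub (v w : F.W) (t : T) : F.coord (v - w) t = F.coord v t - F.coord w t := rfl
theorem coord_neg (w : F.W) (t : T) : F.coord (-w) t = - F.coord w t := rfl
theorem coord_zero (t : T) : F.coord 0 t = 0 := rfl

theorem coord_ext {v w : F.W} (h : ∀ t, F.coord v t = F.coord w t) : v = w := by
  apply Subtype.ext
  apply lp.ext
  funext q
  rw [v.2 q, w.2 q]
  refine Finset.sum_congr rfl fun p _ => ?_
  have : (fun t => (v : lp (fun _ : F.Idx => ℝ) ∞) (F.dlt t)) =
      fun t => (w : lp (fun _ : F.Idx => ℝ) ∞) (F.dlt t) := funext h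
  rw [this]

theorem abs_coord_le (w : F.W) (t : T) : |F.coord w t| ≤ ‖w‖ := by
  have := lp.norm_apply_le_norm (ENNReal.top_ne_zero) (w : lp (fun _ : F.Idx => ℝ) ∞) (F.dlt t)
  rw [Real.norm_eq_abs] at this
  exact this

/-- The coordinate functional. -/
noncomputable def cf (t : T) : F.W →L[ℝ] ℝ :=
  LinearMap.mkContinuous
    { toFun := fun w => F.coord w t
      map_add' := fun _ _ => rfl
      map_smul' := fun _ _ => rfl } 1 (fun w => by
        rw [one_mul]
        exact F.abs_coord_le w t)

@[simp] theorem cf_apply (t : T) (w : F.W) : F.cf t w = F.coord w t := rfl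

open Classical in
/-- The unit vector at `t`. -/
noncomputable def e (t : T) : F.W :=
  if h : ∃ w : F.W, ∀ s, F.coord w s = if s = t then 1 else 0 then h.choose else 0

/-- A sequence of nodes, each one the parent of the next one. -/
def IsBr (b : ℕ → T) : Prop := ∀ i, F.par (b (i + 1)) = some (b i)

/-- An infinite branch starting at a root. -/
def IsRBr (b : ℕ → T) : Prop := F.par (b 0) = none ∧ F.IsBr b

open Classical in
/-- The sum over an infinite branch. -/
noncomputable def brL (b : ℕ → T) : F.W →L[ℝ] ℝ :=
  if h : ∃ L : F.W →L[ℝ] ℝ, ∀ w, Tendsto (fun n => ∑ i ∈ Finset.range n, F.coord w (b i))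
    atTop (𝓝 (L w)) then h.choose else 0

open Classical in
/-- Restriction to a set of nodes. -/
noncomputable def res (A : Set T) : F.W →L[ℝ] F.W :=
  if h : ∃ R : F.W →L[ℝ] F.W, (∀ w t, F.coord (R w) t = if t ∈ A then F.coord w t else 0) ∧
    ∀ w, ‖R w‖ ≤ ‖w‖ then h.choose else 0

/-- Sets of nodes which contain with a node all its children. -/
def IsUp (A : Set T) : Prop := ∀ t s, F.par t = some s → s ∈ A → t ∈ A

/-- The cone above `t`. -/
def cone (t : T) : Set T := {s | F.le t s}

/-- The nodes of level at least `n`. -/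
def tail (n : ℕ) : Set T := {s | n ≤ F.lev s}

open Classical in
/-- The limit of the unit vectors `e (b i)` along a free ultrafilter, in the bidual. -/
noncomputable def uu (b : ℕ → T) : StrongDual ℝ (StrongDual ℝ F.W) :=
  if h : ∃ U : StrongDual ℝ (StrongDual ℝ F.W), ∀ g : StrongDual ℝ F.W,
    Tendsto (fun i => g (F.e (b i))) (hyperfilter ℕ : Filter ℕ) (𝓝 (U g)) then h.choose else 0

/-- finitely supported -/
def FS (w : F.W) : Prop := {t | F.coord w t ≠ 0}.Finite

/-- supported in `A` -/
def SuppIn (w : F.W) (A : Set T) : Prop := ∀ t, t ∉ A → F.coord w t = 0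

end Forest

/-- `Z` is weakly compactly generated. -/
def IsWCG (Z : Type) [NormedAddCommGroup Z] [NormedSpace ℝ Z] : Prop :=
  ∃ K : Set Z, IsCompact (toWeakSpace ℝ Z '' K) ∧
    (Submodule.span ℝ K).topologicalClosure = ⊤

/-! ### The special forest -/

variable {G : Type}

open Classical in
/-- fuel recursion for the level -/
noncomputable def baseLev (Φ : G → ℕ → List (G × ℕ)) (k : ℕ) : ℕ → G → ℕ
  | 0, _ => 0
  | n + 1, γ =>
    match Φ γ k with
    | [] => 0
    | q :: r => if Φ q.1 k = r then baseLev Φ k n q.1 + q.2 + 1 else 0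

open Classical in
/-- The forest on `G × ℕ × ℕ` defined by `Φ`: the node `(γ, k, i+1)` has the parent `(γ, k, i)`;
the node `(γ, k, 0)` has the parent `(γ', k, i')` if `Φ γ k = (γ', i') :: Φ γ' k`, otherwise it is
a root. -/
noncomputable def fpar (Φ : G → ℕ → List (G × ℕ)) : G × ℕ × ℕ → Option (G × ℕ × ℕ)
  | (γ, k, i + 1) => some (γ, k, i)
  | (γ, k, 0) =>
    match Φ γ k with
    | [] => none
    | q :: r => if Φ q.1 k = r then some (q.1, k, q.2) else none

noncomputable def mkForest (Φ : G → ℕ → List (G × ℕ)) : Forest (G × ℕ × ℕ) where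
  par := fpar Φ
  lev := fun t => baseLev Φ t.2.1 (Φ t.1 t.2.1).length t.1 + t.2.2
  lev_root := by
    rintro ⟨γ, k, i⟩ h
    cases i with
    | succ i => simp [fpar] at h
    | zero =>
      simp only [fpar] at h
      show baseLev Φ k (Φ γ k).length γ + 0 = 0
      cases hΦ : Φ γ k with
      | nil => simp [baseLev]
      | cons q r =>
        rw [hΦ] at h
        simp only at h
        split_ifs at h with h1
        simp [baseLev, hΦ, h1]
  lev_par := by
    rintro ⟨γ, k, i⟩ s h
    cases i with
    | succ i =>
      simp only [fpar, Option.some.injEq] at h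
      subst h
      show _ + (i + 1) = _ + i + 1
      rw [add_assoc]
    | zero =>
      simp only [fpar] at h
      cases hΦ : Φ γ k with
      | nil => rw [hΦ] at h; simp at h
      | cons q r =>
        rw [hΦ] at h
        simp only at h
        split_ifs at h with h1
        simp only [Option.some.injEq] at h
        subst h
        simp only [h1]
        simp [baseLev, hΦ, h1]

/-- The line `(γ, k, ·)`. -/
def line (γ : G) (k : ℕ) : ℕ → G × ℕ × ℕ := fun i => (γ, k, i)

/-- The space `X`. -/
noncomputable def XX (Φ : G → ℕ → List (G × ℕ)) : Submodule ℝ (mkForest Φ).W :=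
  ⨅ q : G × ℕ, LinearMap.ker (((mkForest Φ).brL (line q.1 q.2) -
    ((1 / 2 : ℝ) ^ q.2) • (mkForest Φ).brL (line q.1 0) : (mkForest Φ).W →L[ℝ] ℝ) :
      (mkForest Φ).W →ₗ[ℝ] ℝ)

end Pool.Agent.H191W
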