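import Pool.Agent.H191R4.WG.Stubs

set_option autoImplicit false
set_option maxSynthPendingDepth 3

open scoped ENNReal Topology
open Filter

namespace Pool.Agent.H191W

theorem t_A2 : A2 := by
  intro T F w S hS
  set c : ℝ := ∑ p ∈ S, (F.ssum (F.coord w) p) ^ 2 with hc
  have hc0 : 0 ≤ c := Finset.sum_nonneg fun p _ => sq_nonneg _
  rcases hc0.eq_or_lt with h0 | hpos
  · rw [← h0]
    positivity
  · set s : ℝ := Real.sqrt c with hs
    have hs0 : 0 < s := Real.sqrt_pos.2 hpos
    have hs2 : s ^ 2 = c := Real.sq_sqrt hc0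
    let q : F.Idx := ⟨(S, fun p => F.ssum (F.coord w) p / s), hS, by
      show ∑ p ∈ S, (F.ssum (F.coord w) p / s) ^ 2 ≤ 1
      have : ∑ p ∈ S, (F.ssum (F.coord w) p / s) ^ 2 = c / s ^ 2 := by
        rw [hc, Finset.sum_div]
        exact Finset.sum_congr rfl fun p _ => div_pow _ _ _
      rw [this, hs2, div_self hpos.ne']⟩
    have h1 : (w : lp (fun _ : F.Idx => ℝ) ∞) q = s := by
      have h2 := w.2 q
      have h3 : (w : lp (fun _ : F.Idx => ℝ) ∞) q =
          ∑ p ∈ S, F.ssum (F.coord w) p / s * F.ssum (F.coord w) p := h2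
      rw [h3]
      have h4 : ∑ p ∈ S, F.ssum (F.coord w) p / s * F.ssum (F.coord w) p = c / s := by
        rw [hc, Finset.sum_div]
        refine Finset.sum_congr rfl fun p _ => ?_
        ring
      rw [h4, ← hs2]
      field_simp
    have h5 := lp.norm_apply_le_norm (ENNReal.top_ne_zero) (w : lp (fun _ : F.Idx => ℝ) ∞) q
    rw [h1, Real.norm_eq_abs, abs_of_pos hs0] at h5
    have h6 : s ≤ ‖w‖ := h5
    rw [← hs2]
    exact pow_le_pow_left₀ hs0.le h6 2

end Pool.Agent.H191W
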