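import Pool.Agent.H191R4.WG.Stubs

set_option autoImplicit false
set_option maxSynthPendingDepth 3

open scoped ENNReal Topology
open Filter

namespace Pool.Agent.H191W

open Forest

theorem a3_ssum_zero {T : Type} (F : Forest T) (x : T → ℝ) (t : T) : F.ssum x (t, 0) = x t := by
  unfold Forest.ssum
  simp [Forest.anc]

theorem a3_bound {T : Type} (F : Forest T) (x : T → ℝ) (C : ℝ) (hC : 0 ≤ C)
    (h : ∀ S : Finset (T × ℕ), F.Disj S → ∑ p ∈ S, (F.ssum x p) ^ 2 ≤ C ^ 2) (q : F.Idx) :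
    |∑ p ∈ q.1.1, q.1.2 p * F.ssum x p| ≤ C := by
  apply abs_le_of_sq_le_sq _ hC
  calc (∑ p ∈ q.1.1, q.1.2 p * F.ssum x p) ^ 2
      ≤ (∑ p ∈ q.1.1, q.1.2 p ^ 2) * ∑ p ∈ q.1.1, F.ssum x p ^ 2 :=
        Finset.sum_mul_sq_le_sq_mul_sq _ _ _
    _ ≤ 1 * C ^ 2 := by
        apply mul_le_mul q.2.2 (h _ q.2.1) (Finset.sum_nonneg fun _ _ => sq_nonneg _) zero_le_one
    _ = C ^ 2 := one_mul _

theorem t_A3 : A3 := by
  intro T F x C hC h
  have hb := a3_bound F x C hC h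
  let f0 : F.Idx → ℝ := fun q => ∑ p ∈ q.1.1, q.1.2 p * F.ssum x p
  have hf0 : Memℓp f0 ∞ := by
    apply memℓp_infty
    refine ⟨C, ?_⟩
    rintro _ ⟨q, rfl⟩
    exact hb q
  let f : lp (fun _ : F.Idx => ℝ) ∞ := ⟨f0, hf0⟩
  have hd : ∀ t, f (F.dlt t) = x t := by
    intro t
    change ∑ p ∈ ({(t, 0)} : Finset (T × ℕ)), (1 : ℝ) * F.ssum x p = x t
    rw [Finset.sum_singleton, one_mul, a3_ssum_zero]
  have hfW : f ∈ F.W := by
    intro q
    have e : (fun t => f (F.dlt t)) = x := funext hd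
    rw [e]
  refine ⟨⟨f, hfW⟩, hd, ?_⟩
  change ‖f‖ ≤ C
  apply lp.norm_le_of_forall_le hC
  intro q
  exact hb q

end Pool.Agent.H191W
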