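import Pool.Agent.H191R4.WG.Stubs

set_option autoImplicit false
set_option maxSynthPendingDepth 3
set_option synthInstance.maxHeartbeats 400000

open scoped ENNReal Topology
open Filter

namespace Pool.Agent.H191W

open Forest

open Classical in
theorem t_A5 (hA3 : A3) (hL1 : L1) : A5 := by
  intro T F t
  have hss : ∀ p : T × ℕ, F.ssum (fun s => if s = t then (1 : ℝ) else 0) p =
      if t ∈ F.seg p then 1 else 0 := by
    intro p
    unfold ssum seg
    by_cases h : ∃ i, i ≤ p.2 ∧ F.anc p.1 i = some t
    · obtain ⟨i, hi, hit⟩ := h
      rw [if_pos ⟨i, hi, hit⟩]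
      rw [Finset.sum_eq_single i]
      · rw [hit]; simp
      · intro j _ hji
        cases hj : F.anc p.1 j with
        | none => simp
        | some s =>
          simp only [Option.elim_some]
          rw [if_neg]
          rintro rfl
          have h1 := hL1 T F _ _ _ hj
          have h2 := hL1 T F _ _ _ hit
          omega
      · intro h
        exact absurd (Finset.mem_range.2 (by omega)) h
    · rw [if_neg (show ¬ t ∈ {s | ∃ i ≤ p.2, F.anc p.1 i = some s} from h)]
      apply Finset.sum_eq_zero
      intro j hj
      cases hj' : F.anc p.1 j with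
      | none => simp
      | some s =>
        simp only [Option.elim_some]
        rw [if_neg]
        rintro rfl
        exact h ⟨j, by have := Finset.mem_range.1 hj; omega, hj'⟩
  have hex : ∃ w : F.W, (∀ s, F.coord w s = if s = t then (1 : ℝ) else 0) ∧ ‖w‖ ≤ 1 := by
    refine hA3 T F (fun s => if s = t then (1 : ℝ) else 0) 1 zero_le_one ?_
    intro S hS
    simp only [hss, one_pow]
    by_cases h : ∃ p ∈ S, t ∈ F.seg p
    · obtain ⟨p, hp, hpt⟩ := h
      rw [Finset.sum_eq_single p]
      · rw [if_pos hpt]; norm_num
      · intro q hq hqp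
        rw [if_neg]
        · norm_num
        · intro hqt
          have := hS hq hp hqp
          exact (Set.disjoint_left.1 this hqt hpt)
      · intro h; exact absurd hp h
    · push Not at h
      rw [Finset.sum_eq_zero]
      · norm_num
      · intro p hp
        rw [if_neg (h p hp)]; norm_num
  obtain ⟨w, hw, hn⟩ := hex
  have hex2 : ∃ w : F.W, ∀ s, F.coord w s = if s = t then 1 else 0 := ⟨w, hw⟩
  have he : F.e t = w := by
    unfold e
    rw [dif_pos hex2]
    apply F.coord_ext
    intro s
    rw [hex2.choose_spec s, hw s]
  rw [he]
  exact ⟨hw, hn⟩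

end Pool.Agent.H191W
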