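import Pool.Agent.H191R4.WG.Stubs

set_option autoImplicit false
set_option maxSynthPendingDepth 3

open scoped ENNReal Topology
open Filter

namespace Pool.Agent.H191W

open Forest

section A6

variable {T : Type} (F : Forest T)

private def A6_sh (n : ℕ) (p : T × ℕ) : T × ℕ := (p.1, min p.2 (F.lev p.1 - n))

private theorem A6_seg_sub (n : ℕ) (p : T × ℕ) : F.seg (A6_sh F n p) ⊆ F.seg p := by
  rintro s ⟨i, hi, hs⟩
  exact ⟨i, le_trans hi (min_le_left _ _), hs⟩

private theorem A6_top (p : T × ℕ) : p.1 ∈ F.seg p := ⟨0, Nat.zero_le _, rfl⟩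

private theorem A6_ssum (hL1 : L1) (n : ℕ) (x : T → ℝ) (p : T × ℕ) (hp : n ≤ F.lev p.1) :
    F.ssum (fun t => if n ≤ F.lev t then x t else 0) p = F.ssum x (A6_sh F n p) := by
  unfold ssum A6_sh
  symm
  refine Finset.sum_subset_zero_on_sdiff ?_ ?_ ?_
  · intro i hi
    simp only [Finset.mem_range] at hi ⊢
    exact lt_of_lt_of_le hi (Nat.succ_le_succ (min_le_left _ _))
  · intro i hi
    simp only [Finset.mem_sdiff, Finset.mem_range, not_lt] at hi
    cases h : F.anc p.1 i with
    | none => simp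
    | some s =>
      have h1 := hL1 T F p.1 s i h
      have h2 : ¬ n ≤ F.lev s := by
        intro h3
        have h4 : i ≤ min p.2 (F.lev p.1 - n) := le_min (by omega) (by omega)
        omega
      simp [h2]
  · intro i hi
    simp only [Finset.mem_range] at hi
    cases h : F.anc p.1 i with
    | none => simp
    | some s =>
      have h1 := hL1 T F p.1 s i h
      have h3 : i ≤ F.lev p.1 - n := by
        have := min_le_right p.2 (F.lev p.1 - n)
        omega
      have h2 : n ≤ F.lev s := by omega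
      simp [h2]

private theorem A6_ssum0 (hL1 : L1) (n : ℕ) (x : T → ℝ) (p : T × ℕ) (hp : ¬ n ≤ F.lev p.1) :
    F.ssum (fun t => if n ≤ F.lev t then x t else 0) p = 0 := by
  unfold ssum
  refine Finset.sum_eq_zero fun i _ => ?_
  cases h : F.anc p.1 i with
  | none => simp
  | some s =>
    have h1 := hL1 T F p.1 s i h
    have h2 : ¬ n ≤ F.lev s := by omega
    simp [h2]

/-- the tail has small energy -/
private theorem A6_tail (hA2 : A2) (hL1 : L1) (w : F.W) (ε : ℝ) (hε : 0 < ε) :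
    ∃ n : ℕ, ∀ S : Finset (T × ℕ), F.Disj S →
      ∑ p ∈ S, (F.ssum (fun t => if n ≤ F.lev t then F.coord w t else 0) p) ^ 2 ≤ ε := by
  classical
  set E : Set ℝ := {r | ∃ S : Finset (T × ℕ), F.Disj S ∧
    r = ∑ p ∈ S, (F.ssum (F.coord w) p) ^ 2} with hE
  have hb : BddAbove E := ⟨‖w‖ ^ 2, by
    rintro r ⟨S, hS, rfl⟩
    exact hA2 T F w S hS⟩
  have hne : E.Nonempty := ⟨0, ∅, by simp [Disj], by simp⟩
  obtain ⟨r, ⟨S0, hS0, rfl⟩, hr⟩ := exists_lt_of_lt_csSup hne
    (show sSup E - ε < sSup E by linarith)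
  obtain ⟨n, hn⟩ : ∃ n : ℕ, ∀ p ∈ S0, F.lev p.1 < n :=
    ⟨S0.sup (fun p => F.lev p.1) + 1, fun p hp =>
      Nat.lt_succ_of_le (Finset.le_sup (f := fun p : T × ℕ => F.lev p.1) hp)⟩
  refine ⟨n, fun S hS => ?_⟩
  set S1 := S.filter (fun p => n ≤ F.lev p.1) with hS1
  have hinj : Set.InjOn (A6_sh F n) (S1 : Set (T × ℕ)) := by
    intro p hp q hq hpq
    have hp' : p ∈ S := (Finset.mem_filter.1 (Finset.mem_coe.1 hp)).1
    have hq' : q ∈ S := (Finset.mem_filter.1 (Finset.mem_coe.1 hq)).1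
    by_contra hne'
    have hd := hS (Finset.mem_coe.2 hp') (Finset.mem_coe.2 hq') hne'
    have h0 : (A6_sh F n p).1 = (A6_sh F n q).1 := by rw [hpq]
    have h1 : p.1 = q.1 := h0
    exact Set.disjoint_left.1 hd (A6_top F p) (h1 ▸ A6_top F q)
  have hlow : ∀ p ∈ S0, ∀ s ∈ F.seg p, F.lev s < n := by
    rintro p hp s ⟨i, _, hs⟩
    have := hL1 T F p.1 s i hs
    have := hn p hp
    omega
  have hhigh : ∀ p ∈ S1, ∀ s ∈ F.seg (A6_sh F n p), n ≤ F.lev s := by
    rintro p hp s ⟨i, hi, hs⟩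
    have h1 := hL1 T F p.1 s i hs
    have h2 : n ≤ F.lev p.1 := (Finset.mem_filter.1 hp).2
    have h3 : i ≤ F.lev p.1 - n := le_trans hi (min_le_right _ _)
    omega
  have hdis : Disjoint S0 (S1.image (A6_sh F n)) := by
    rw [Finset.disjoint_left]
    intro q hq hq'
    obtain ⟨p, hp, rfl⟩ := Finset.mem_image.1 hq'
    have h1 := hlow _ hq _ (A6_top F _)
    have h2 := hhigh p hp _ (A6_top F _)
    omega
  have hD : F.Disj (S0 ∪ S1.image (A6_sh F n)) := by
    intro q hq q' hq' hne'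
    have hq2 := Finset.mem_union.1 (Finset.mem_coe.1 hq)
    have hq2' := Finset.mem_union.1 (Finset.mem_coe.1 hq')
    show Disjoint (F.seg q) (F.seg q')
    rcases hq2 with h | h <;> rcases hq2' with h' | h'
    · exact hS0 (Finset.mem_coe.2 h) (Finset.mem_coe.2 h') hne'
    · obtain ⟨p, hp, rfl⟩ := Finset.mem_image.1 h'
      rw [Set.disjoint_left]
      intro s hs hs'
      have h1 := hlow _ h _ hs
      have h2 := hhigh _ hp _ hs'
      omega
    · obtain ⟨p, hp, rfl⟩ := Finset.mem_image.1 h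
      rw [Set.disjoint_left]
      intro s hs hs'
      have h1 := hlow _ h' _ hs'
      have h2 := hhigh _ hp _ hs
      omega
    · obtain ⟨p, hp, rfl⟩ := Finset.mem_image.1 h
      obtain ⟨p', hp', rfl⟩ := Finset.mem_image.1 h'
      have hpp : p ≠ p' := fun h => hne' (by rw [h])
      exact (hS (Finset.mem_coe.2 (Finset.mem_filter.1 hp).1)
        (Finset.mem_coe.2 (Finset.mem_filter.1 hp').1) hpp).mono (A6_seg_sub F n p)
        (A6_seg_sub F n p')
  have h1 : ∑ p ∈ S0 ∪ S1.image (A6_sh F n), (F.ssum (F.coord w) p) ^ 2 ≤ sSup E :=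
    le_csSup hb ⟨_, hD, rfl⟩
  rw [Finset.sum_union hdis, Finset.sum_image hinj] at h1
  have h2 : ∑ p ∈ S, (F.ssum (fun t => if n ≤ F.lev t then F.coord w t else 0) p) ^ 2 =
      ∑ p ∈ S1, (F.ssum (F.coord w) (A6_sh F n p)) ^ 2 := by
    rw [hS1, Finset.sum_filter]
    refine Finset.sum_congr rfl fun p _ => ?_
    split_ifs with h
    · rw [A6_ssum F hL1 n _ p h]
    · rw [A6_ssum0 F hL1 n _ p h]
      simp
  rw [h2]
  linarith

/-- few levels: the energy is controlled by the sum of squares -/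
private theorem A6_head (hL1 : L1) (n : ℕ) (z : T → ℝ) (hz : ∀ t, n ≤ F.lev t → z t = 0)
    (δ : ℝ) (hδ : ∀ U : Finset T, ∑ t ∈ U, (z t) ^ 2 ≤ δ) (S : Finset (T × ℕ)) (hS : F.Disj S) :
    ∑ p ∈ S, (F.ssum z p) ^ 2 ≤ n * δ := by
  classical
  have h1 : ∀ p ∈ S, (F.ssum z p) ^ 2 ≤
      n * ∑ i ∈ Finset.range (p.2 + 1), ((F.anc p.1 i).elim 0 z) ^ 2 := by
    intro p _
    set I := (Finset.range (p.2 + 1)).filter (fun i => F.lev p.1 < i + n ∧ i ≤ F.lev p.1) with hI
    have e1 : F.ssum z p = ∑ i ∈ I, ((F.anc p.1 i).elim 0 z) := by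
      unfold ssum
      symm
      refine Finset.sum_subset (Finset.filter_subset _ _) ?_
      intro i hi hi'
      cases h : F.anc p.1 i with
      | none => simp
      | some s =>
        have h1 := hL1 T F p.1 s i h
        have h2 : n ≤ F.lev s := by
          by_contra h3
          refine hi' (Finset.mem_filter.2 ⟨hi, ?_, ?_⟩) <;> omega
        simp [hz s h2]
    have e2 : I.card ≤ n := by
      have : I ⊆ Finset.Ico (F.lev p.1 + 1 - n) (F.lev p.1 + 1) := by
        intro i hi
        have := (Finset.mem_filter.1 hi).2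
        simp only [Finset.mem_Ico]
        omega
      refine (Finset.card_le_card this).trans ?_
      rw [Nat.card_Ico]
      omega
    rw [e1]
    refine (sq_sum_le_card_mul_sum_sq (s := I) (f := fun i => ((F.anc p.1 i).elim 0 z))).trans ?_
    have e3 : ∑ i ∈ I, ((F.anc p.1 i).elim 0 z) ^ 2 ≤
        ∑ i ∈ Finset.range (p.2 + 1), ((F.anc p.1 i).elim 0 z) ^ 2 :=
      Finset.sum_le_sum_of_subset_of_nonneg (Finset.filter_subset _ _)
        (fun _ _ _ => sq_nonneg _)
    have e4 : (I.card : ℝ) ≤ n := by exact_mod_cast e2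
    exact mul_le_mul e4 e3 (Finset.sum_nonneg fun _ _ => sq_nonneg _) (Nat.cast_nonneg _)
  refine (Finset.sum_le_sum h1).trans ?_
  rw [← Finset.mul_sum]
  refine mul_le_mul_of_nonneg_left ?_ (Nat.cast_nonneg _)
  rw [Finset.sum_sigma']
  set P := (S.sigma (fun p => Finset.range (p.2 + 1))).filter
    (fun a : (_ : T × ℕ) × ℕ => (F.anc a.1.1 a.2).isSome) with hP
  have h2 : ∑ a ∈ S.sigma (fun p => Finset.range (p.2 + 1)),
      ((F.anc a.1.1 a.2).elim 0 z) ^ 2 = ∑ a ∈ P, (z ((F.anc a.1.1 a.2).getD a.1.1)) ^ 2 := by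
    rw [hP, Finset.sum_filter]
    refine Finset.sum_congr rfl fun a _ => ?_
    cases h : F.anc a.1.1 a.2 with
    | none => simp
    | some s => simp
  have hinj : Set.InjOn (fun a : (_ : T × ℕ) × ℕ => (F.anc a.1.1 a.2).getD a.1.1)
      (P : Set ((_ : T × ℕ) × ℕ)) := by
    rintro ⟨p, i⟩ ha ⟨q, j⟩ hb hab
    have ha' := Finset.mem_filter.1 (Finset.mem_coe.1 ha)
    have hb' := Finset.mem_filter.1 (Finset.mem_coe.1 hb)
    simp only [Finset.mem_sigma, Finset.mem_range] at ha' hb'
    obtain ⟨⟨hp, hi⟩, hs⟩ := ha'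
    obtain ⟨⟨hq, hj⟩, ht⟩ := hb'
    obtain ⟨s, hs⟩ := Option.isSome_iff_exists.1 hs
    obtain ⟨t, ht⟩ := Option.isSome_iff_exists.1 ht
    simp only [hs, ht, Option.getD_some] at hab
    subst hab
    have hpq : p = q := by
      by_contra hne
      exact Set.disjoint_left.1 (hS (Finset.mem_coe.2 hp) (Finset.mem_coe.2 hq) hne)
        ⟨i, by omega, hs⟩ ⟨j, by omega, ht⟩
    subst hpq
    have e1 := hL1 T F _ _ _ hs
    have e2 := hL1 T F _ _ _ ht
    have : i = j := by omega
    subst this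
    rfl
  have h3 : ∑ a ∈ S.sigma (fun p => Finset.range (p.2 + 1)),
      ((F.anc a.1.1 a.2).elim 0 z) ^ 2 =
      ∑ t ∈ P.image (fun a : (_ : T × ℕ) × ℕ => (F.anc a.1.1 a.2).getD a.1.1), (z t) ^ 2 := by
    rw [h2, Finset.sum_image hinj]
  exact h3.le.trans (hδ _)

end A6

theorem t_A6 (hA2 : A2) (hA3 : A3) (hL1 : L1) : A6 := by
  classical
  intro T F w ε hε
  obtain ⟨n, hn⟩ := A6_tail F hA2 hL1 w ((ε / 3) ^ 2) (by positivity)
  obtain ⟨X, hX, hXn⟩ := hA3 T F (fun t => if n ≤ F.lev t then F.coord w t else 0) (ε / 3)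
    (by positivity) hn
  have hsq : ∀ U : Finset T, ∑ t ∈ U, (F.coord w t) ^ 2 ≤ ‖w‖ ^ 2 := by
    intro U
    have hinj : Set.InjOn (fun t : T => ((t, 0) : T × ℕ)) (U : Set T) := by
      intro a _ b _ hab
      exact congrArg Prod.fst hab
    have hseg : ∀ t : T, F.seg (t, 0) = {t} := by
      intro t
      ext s
      constructor
      · rintro ⟨i, hi, hs⟩
        have : i = 0 := Nat.le_zero.1 hi
        subst this
        exact (Option.some.inj hs).symm
      · intro hs
        exact ⟨0, le_rfl, by rw [Set.mem_singleton_iff.1 hs]; rfl⟩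
    have hD : F.Disj (U.image (fun t : T => ((t, 0) : T × ℕ))) := by
      intro q hq q' hq' hne
      obtain ⟨a, _, rfl⟩ := Finset.mem_image.1 (Finset.mem_coe.1 hq)
      obtain ⟨b, _, rfl⟩ := Finset.mem_image.1 (Finset.mem_coe.1 hq')
      show Disjoint (F.seg (a, 0)) (F.seg (b, 0))
      rw [hseg, hseg, Set.disjoint_singleton]
      rintro rfl
      exact hne rfl
    have h1 := hA2 T F w _ hD
    rw [Finset.sum_image hinj] at h1
    have h2 : ∀ t : T, F.ssum (F.coord w) (t, 0) = F.coord w t := by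
      intro t
      unfold ssum
      simp [anc]
    simpa only [h2] using h1
  have hsum : Summable (fun t => (F.coord w t) ^ 2) :=
    summable_of_sum_le (fun _ => sq_nonneg _) hsq
  set δ : ℝ := (ε / 3) ^ 2 / (n + 1) with hδ
  have hδ0 : 0 < δ := by positivity
  obtain ⟨J, hJ⟩ := summable_iff_vanishing_norm.1 hsum δ hδ0
  obtain ⟨Z, hZ, hZn⟩ := hA3 T F (fun t => if F.lev t < n ∧ t ∉ J then F.coord w t else 0) (ε / 3)
    (by positivity) (fun S hS => by
      have h1 := A6_head F hL1 n (fun t => if F.lev t < n ∧ t ∉ J then F.coord w t else 0)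
        (fun t ht => by
          have : ¬ (F.lev t < n ∧ t ∉ J) := fun h => absurd h.1 (not_lt.2 ht)
          simp [this]) δ
        (fun U => by
          have h2 : ∑ t ∈ U, (if F.lev t < n ∧ t ∉ J then F.coord w t else 0) ^ 2 ≤
              ∑ t ∈ U \ J, (F.coord w t) ^ 2 := by
            rw [← Finset.sum_sdiff (Finset.inter_subset_left : U ∩ J ⊆ U)]
            have e1 : ∑ t ∈ U ∩ J, (if F.lev t < n ∧ t ∉ J then F.coord w t else 0) ^ 2 = 0 := by
              refine Finset.sum_eq_zero fun t ht => ?_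
              have : ¬ (F.lev t < n ∧ t ∉ J) := fun h => h.2 (Finset.mem_inter.1 ht).2
              simp [this]
            rw [e1, add_zero, Finset.sdiff_inter_self_left]
            refine Finset.sum_le_sum fun t _ => ?_
            split_ifs
            · exact le_rfl
            · simpa using sq_nonneg _
          have h3 := hJ (U \ J) Finset.sdiff_disjoint
          rw [Real.norm_eq_abs] at h3
          exact h2.trans ((le_abs_self _).trans h3.le)) S hS
      refine h1.trans ?_
      rw [hδ, ← mul_div_assoc, div_le_iff₀ (by positivity)]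
      nlinarith [sq_nonneg (ε / 3)])
  refine ⟨w - X - Z, ?_, ?_, ?_⟩
  · refine (J.finite_toSet).subset ?_
    intro t ht
    by_contra htJ
    apply ht
    rw [coord_sub, coord_sub, hX, hZ]
    by_cases h : n ≤ F.lev t
    · have : ¬ (F.lev t < n ∧ t ∉ J) := fun h' => absurd h'.1 (not_lt.2 h)
      simp [h]
    · have h' : F.lev t < n := not_le.1 h
      have : t ∉ J := fun h3 => htJ (Finset.mem_coe.2 h3)
      simp [h, h', this]
  · intro t
    rw [coord_sub, coord_sub, hX, hZ]
    by_cases h : n ≤ F.lev t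
    · right
      simp [h]
    · have h' : F.lev t < n := not_le.1 h
      by_cases h3 : t ∈ J
      · left
        simp [h, h3]
      · right
        simp [h, h', h3]
  · have : w - (w - X - Z) = X + Z := by abel
    rw [this]
    calc ‖X + Z‖ ≤ ‖X‖ + ‖Z‖ := norm_add_le _ _
      _ ≤ ε / 3 + ε / 3 := add_le_add hXn hZn
      _ < ε := by linarith

end Pool.Agent.H191W
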