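import Pool.Agent.H191R4.WG.Stubs

set_option autoImplicit false
set_option maxSynthPendingDepth 3

open scoped ENNReal Topology
open Filter

namespace Pool.Agent.H191W

open Forest

theorem t_A7 (hA5 : A5) : A7 := by
  classical
  intro T F v h
  apply F.coord_ext
  intro s
  have h1 : F.coord (∑ t ∈ h.toFinset, F.coord v t • F.e t) s =
      ∑ t ∈ h.toFinset, F.coord v t * (if s = t then 1 else 0) := by
    have h2 : ∀ J : Finset T, F.coord (∑ t ∈ J, F.coord v t • F.e t) s =
        ∑ t ∈ J, F.coord v t * (if s = t then 1 else 0) := by
      intro J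
      induction J using Finset.induction_on with
      | empty => rfl
      | insert a J ha ih =>
        rw [Finset.sum_insert ha, Finset.sum_insert ha, coord_add, ih, coord_smul, (hA5 T F a).1 s]
    exact h2 _
  rw [h1]
  simp only [mul_ite, mul_one, mul_zero]
  rw [Finset.sum_ite_eq]
  split_ifs with h2
  · rfl
  · by_contra h3
    exact h2 ((Set.Finite.mem_toFinset h).2 h3)

end Pool.Agent.H191W
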