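import Pool.Agent.H191R4.WG.Stubs

set_option autoImplicit false
set_option maxSynthPendingDepth 3

open scoped ENNReal Topology
open Filter

namespace Pool.Agent.H191W

open Forest

theorem t_A8 (hA6 : A6) (hA7 : A7) : A8 := by
  intro T F
  rw [Submodule.eq_top_iff']
  intro w
  rw [← SetLike.mem_coe, Submodule.topologicalClosure_coe, Metric.mem_closure_iff]
  intro ε hε
  obtain ⟨v, hv, -, hwv⟩ := hA6 T F w ε hε
  refine ⟨v, ?_, ?_⟩
  · have h := hA7 T F v hv
    rw [SetLike.mem_coe, h]
    exact Submodule.sum_mem _ fun t _ =>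
      Submodule.smul_mem _ _ (Submodule.subset_span ⟨t, rfl⟩)
  · rw [dist_eq_norm]
    exact hwv

end Pool.Agent.H191W
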