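import Pool.Agent.H191R4.WG.Stubs

set_option autoImplicit false
set_option maxSynthPendingDepth 3

open scoped ENNReal Topology
open Filter

namespace Pool.Agent.H191W

open Forest

namespace B1aux

variable {T : Type} (F : Forest T)

theorem anc_br (hL5 : L5) (b : ℕ → T) (hb : F.IsBr b) (j l : ℕ) (h : l ≤ j) :
    F.anc (b j) l = some (b (j - l)) := by
  have h1 := (hL5 T F b hb).2.1 (j - l) j (by omega)
  have h2 : j - (j - l) = l := by omega
  rw [h2] at h1
  exact h1

/-- the segment of the block `m ≤ i < m'` -/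
def blk (b : ℕ → T) (m m' : ℕ) : T × ℕ := (b (m' - 1), m' - 1 - m)

theorem ssum_blk (hL5 : L5) (b : ℕ → T) (hb : F.IsBr b) (x : T → ℝ) (m m' : ℕ) (h : m < m') :
    F.ssum x (blk b m m') = ∑ i ∈ Finset.Ico m m', x (b i) := by
  unfold Forest.ssum blk
  simp only
  have h1 : ∀ i ∈ Finset.range (m' - 1 - m + 1),
      (F.anc (b (m' - 1)) i).elim 0 x = x (b (m' - 1 - i)) := by
    intro i hi
    rw [Finset.mem_range] at hi
    rw [anc_br F hL5 b hb (m' - 1) i (by omega)]
    rfl
  rw [Finset.sum_congr rfl h1]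
  refine Finset.sum_bij (fun i _ => m' - 1 - i) ?_ ?_ ?_ ?_
  · intro i hi
    rw [Finset.mem_range] at hi
    rw [Finset.mem_Ico]
    omega
  · intro i hi j hj hij
    rw [Finset.mem_range] at hi hj
    omega
  · intro i hi
    rw [Finset.mem_Ico] at hi
    refine ⟨m' - 1 - i, ?_, ?_⟩
    · rw [Finset.mem_range]; omega
    · omega
  · intro i hi
    rfl

theorem seg_blk (hL5 : L5) (b : ℕ → T) (hb : F.IsBr b) (m m' : ℕ) (h : m < m') (s : T)
    (hs : s ∈ F.seg (blk b m m')) : ∃ i, m ≤ i ∧ i < m' ∧ s = b i := by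
  obtain ⟨i, hi, hi'⟩ := hs
  simp only [blk] at hi hi'
  rw [anc_br F hL5 b hb (m' - 1) i (by omega)] at hi'
  refine ⟨m' - 1 - i, by omega, by omega, ?_⟩
  exact (Option.some.inj hi').symm

theorem blocks (hA2 : A2) (hL5 : L5) (b : ℕ → T) (hb : F.IsBr b) (w : F.W) (m : ℕ → ℕ)
    (hm : StrictMono m) (K : ℕ) :
    ∑ j ∈ Finset.range K, (∑ i ∈ Finset.Ico (m j) (m (j+1)), F.coord w (b i)) ^ 2 ≤ ‖w‖ ^ 2 := by
  classical
  have hinj := (hL5 T F b hb).2.2.2.1
  have hlt : ∀ j, m j < m (j+1) := fun j => hm (Nat.lt_succ_self j)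
  have h0 : ∀ i j, m (i+1) - 1 = m (j+1) - 1 → i = j := by
    intro i j hij
    have h1 : m (i+1) = m (j+1) := by
      have := hlt i
      have := hlt j
      omega
    have := hm.injective h1
    omega
  have h1 := hA2 T F w ((Finset.range K).image (fun j => blk b (m j) (m (j+1)))) ?_
  · rw [Finset.sum_image] at h1
    · refine le_trans (le_of_eq ?_) h1
      refine Finset.sum_congr rfl fun j _ => ?_
      rw [ssum_blk F hL5 b hb _ _ _ (hlt j)]
    · intro i _ j _ hij
      simp only [blk, Prod.mk.injEq] at hij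
      exact h0 i j (hinj hij.1)
  · intro p hp q hq hpq
    rw [Finset.mem_coe, Finset.mem_image] at hp hq
    obtain ⟨i, _, rfl⟩ := hp
    obtain ⟨j, _, rfl⟩ := hq
    show Disjoint (F.seg _) (F.seg _)
    rw [Set.disjoint_left]
    intro s hs hs'
    obtain ⟨u, hu1, hu2, hu3⟩ := seg_blk F hL5 b hb _ _ (hlt i) s hs
    obtain ⟨v, hv1, hv2, hv3⟩ := seg_blk F hL5 b hb _ _ (hlt j) s hs'
    have huv : u = v := hinj (hu3.symm.trans hv3)
    subst huv
    apply hpq
    have : i = j := by
      rcases lt_trichotomy i j with h | h | h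
      · have : m (i+1) ≤ m j := hm.monotone h
        omega
      · exact h
      · have : m (j+1) ≤ m i := hm.monotone h
        omega
    rw [this]

theorem partial_le (hA2 : A2) (hL5 : L5) (b : ℕ → T) (hb : F.IsBr b) (w : F.W) (n : ℕ) :
    |∑ i ∈ Finset.range n, F.coord w (b i)| ≤ ‖w‖ := by
  rcases Nat.eq_zero_or_pos n with h | h
  · subst h
    simp
  · have h1 := blocks F hA2 hL5 b hb w (fun j => j * n) (fun i j hij =>
      Nat.mul_lt_mul_of_pos_right hij h) 1
    simp only [Finset.range_one, Finset.sum_singleton, zero_mul, zero_add, one_mul] at h1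
    rw [← Finset.range_eq_Ico] at h1
    exact abs_le_of_sq_le_sq h1 (norm_nonneg _)

theorem cauchy (hA2 : A2) (hL5 : L5) (b : ℕ → T) (hb : F.IsBr b) (w : F.W) :
    CauchySeq (fun n => ∑ i ∈ Finset.range n, F.coord w (b i)) := by
  by_contra hc
  rw [Metric.cauchySeq_iff'] at hc
  push Not at hc
  obtain ⟨ε, hε, hc⟩ := hc
  choose f hf hf' using hc
  have hflt : ∀ N, N < f N := by
    intro N
    refine lt_of_le_of_ne (hf N) ?_
    intro h
    have := hf' N
    rw [← h, dist_self] at this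
    linarith
  let m : ℕ → ℕ := fun j => f^[j] 0
  have hm1 : ∀ j, m (j+1) = f (m j) := by
    intro j
    exact Function.iterate_succ_apply' f j 0
  have hm : StrictMono m := by
    refine strictMono_nat_of_lt_succ ?_
    intro j
    rw [hm1]
    exact hflt _
  have hb1 : ∀ j, ε ^ 2 ≤ (∑ i ∈ Finset.Ico (m j) (m (j+1)), F.coord w (b i)) ^ 2 := by
    intro j
    have h1 := hf' (m j)
    rw [← hm1, Real.dist_eq, ← Finset.sum_Ico_eq_sub _ (hm (Nat.lt_succ_self j)).le] at h1
    rw [← sq_abs (∑ i ∈ Finset.Ico (m j) (m (j+1)), F.coord w (b i))]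
    exact pow_le_pow_left₀ hε.le h1 2
  obtain ⟨K, hK⟩ := exists_nat_gt (‖w‖ ^ 2 / ε ^ 2)
  have h2 := blocks F hA2 hL5 b hb w m hm K
  have h3 : (K : ℝ) * ε ^ 2 ≤ ‖w‖ ^ 2 := by
    refine le_trans ?_ h2
    have := Finset.card_nsmul_le_sum (Finset.range K)
      (fun j => (∑ i ∈ Finset.Ico (m j) (m (j+1)), F.coord w (b i)) ^ 2) (ε ^ 2)
      (fun j _ => hb1 j)
    simpa using this
  rw [div_lt_iff₀ (by positivity)] at hK
  linarith

theorem exists_L (hA2 : A2) (hL5 : L5) (b : ℕ → T) (hb : F.IsBr b) :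
    ∃ L : F.W →L[ℝ] ℝ, ∀ w, Tendsto (fun n => ∑ i ∈ Finset.range n, F.coord w (b i))
      atTop (𝓝 (L w)) := by
  have h := fun w => cauchySeq_tendsto_of_complete (cauchy F hA2 hL5 b hb w)
  choose L hL using h
  refine ⟨LinearMap.mkContinuous
    { toFun := L
      map_add' := ?_
      map_smul' := ?_ } 1 ?_, ?_⟩
  · intro v w
    refine tendsto_nhds_unique (hL (v + w)) ?_
    refine ((hL v).add (hL w)).congr ?_
    intro n
    rw [← Finset.sum_add_distrib]
    exact Finset.sum_congr rfl fun i _ => (F.coord_add v w (b i)).symm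
  · intro c w
    refine tendsto_nhds_unique (hL (c • w)) ?_
    refine ((hL w).const_mul c).congr ?_
    intro n
    rw [Finset.mul_sum]
    exact Finset.sum_congr rfl fun i _ => (F.coord_smul c w (b i)).symm
  · intro w
    rw [one_mul]
    show |L w| ≤ ‖w‖
    refine le_of_tendsto ((hL w).abs) ?_
    exact Filter.Eventually.of_forall fun n => partial_le F hA2 hL5 b hb w n
  · intro w
    exact hL w

end B1aux

theorem t_B1 (hA2 : A2) (hL5 : L5) : B1 := by
  intro T F b hb w
  have h := B1aux.exists_L F hA2 hL5 b hb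
  unfold Forest.brL
  rw [dif_pos h]
  exact h.choose_spec w

end Pool.Agent.H191W
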