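import Pool.Agent.H191R4.WG.Stubs

set_option autoImplicit false
set_option maxSynthPendingDepth 3

open scoped ENNReal Topology
open Filter

namespace Pool.Agent.H191W

open Forest

namespace B2aux

theorem anc_eq (hL5 : L5) {T : Type} (F : Forest T) (b : ℕ → T) (hb : F.IsBr b) (n i : ℕ)
    (hi : i ≤ n) : F.anc (b n) i = some (b (n - i)) := by
  have h := (hL5 T F b hb).2.1 (n - i) n (Nat.sub_le _ _)
  rwa [Nat.sub_sub_self hi] at h

theorem seg_sub (hL5 : L5) {T : Type} (F : Forest T) (b : ℕ → T) (hb : F.IsBr b) (n : ℕ) :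
    F.seg (b n, n) ⊆ Set.range b := by
  rintro s ⟨i, hi, hs⟩
  simp only at hi hs
  rw [anc_eq hL5 F b hb n i hi] at hs
  exact ⟨n - i, Option.some.inj hs⟩

theorem ssum_eq (hL5 : L5) {T : Type} (F : Forest T) (b : ℕ → T) (hb : F.IsBr b) (x : T → ℝ)
    (n : ℕ) : F.ssum x (b n, n) = ∑ i ∈ Finset.range (n + 1), x (b i) := by
  unfold Forest.ssum
  simp only
  rw [← Finset.sum_range_reflect]
  apply Finset.sum_congr rfl
  intro i hi
  rw [Finset.mem_range] at hi
  have h1 : n + 1 - 1 - i ≤ n := by omega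
  rw [anc_eq hL5 F b hb n _ h1]
  have h2 : n - (n + 1 - 1 - i) = i := by omega
  rw [h2]
  rfl

end B2aux

open B2aux in
theorem t_B2 (hA2 : A2) (hB1 : B1) (hL5 : L5) : B2 := by
  classical
  intro T F ι J b hb hd w
  -- the bound at the level n
  have key : ∀ n : ℕ, ∑ a ∈ J, (∑ i ∈ Finset.range (n + 1), F.coord w (b a i)) ^ 2 ≤ ‖w‖ ^ 2 := by
    intro n
    have hne : ∀ a ∈ J, ∀ c ∈ J, (b a n, n) = (b c n, n) → a = c := by
      intro a ha c hc h
      by_contra hac
      have h1 : b a n = b c n := (Prod.mk.inj h).1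
      have h2 := hd a ha c hc hac
      rw [Set.disjoint_left] at h2
      exact h2 ⟨n, rfl⟩ ⟨n, h1.symm⟩
    have hS : F.Disj (J.image (fun a => (b a n, n))) := by
      intro p hp q hq hpq
      rw [Finset.mem_coe, Finset.mem_image] at hp hq
      obtain ⟨a, ha, rfl⟩ := hp
      obtain ⟨c, hc, rfl⟩ := hq
      have hac : a ≠ c := fun h => hpq (by rw [h])
      exact (hd a ha c hc hac).mono (seg_sub hL5 F (b a) (hb a ha) n)
        (seg_sub hL5 F (b c) (hb c hc) n)
    have h := hA2 T F w _ hS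
    rw [Finset.sum_image (fun a ha c hc h => hne a ha c hc h)] at h
    refine le_trans (le_of_eq ?_) h
    apply Finset.sum_congr rfl
    intro a ha
    rw [ssum_eq hL5 F (b a) (hb a ha)]
  have hlim : Tendsto (fun n : ℕ => ∑ a ∈ J, (∑ i ∈ Finset.range (n + 1), F.coord w (b a i)) ^ 2)
      atTop (𝓝 (∑ a ∈ J, (F.brL (b a) w) ^ 2)) := by
    apply tendsto_finset_sum
    intro a ha
    exact ((hB1 T F (b a) (hb a ha) w).comp (tendsto_add_atTop_nat 1)).pow 2
  exact le_of_tendsto' hlim key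

end Pool.Agent.H191W
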