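import Pool.Agent.H191R4.WG.Stubs

/-!
# B3: tails of branch sums
-/

set_option autoImplicit false
set_option maxSynthPendingDepth 3

open scoped ENNReal Topology
open Filter

namespace Pool.Agent.H191W

theorem t_B3 (h1 : B1) : B3 := by
  intro T F b hb w
  have hsh : ∀ s : ℕ, F.IsBr (fun i => b (i + s)) := by
    intro s i
    show F.par (b (i + 1 + s)) = some (b (i + s))
    have e : i + 1 + s = (i + s) + 1 := by ring
    rw [e]
    exact hb (i + s)
  have key : ∀ s, F.brL b w = ∑ i ∈ Finset.range s, F.coord w (b i) +
      F.brL (fun i => b (i + s)) w := by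
    intro s
    have t1 : Tendsto (fun n => ∑ i ∈ Finset.range (s + n), F.coord w (b i)) atTop
        (𝓝 (F.brL b w)) := by
      have h2 : Tendsto (fun n : ℕ => s + n) atTop atTop := by
        simpa only [add_comm] using tendsto_add_atTop_nat s
      exact (h1 T F b hb w).comp h2
    have t2 : Tendsto (fun n => ∑ i ∈ Finset.range s, F.coord w (b i) +
        ∑ i ∈ Finset.range n, F.coord w (b (i + s))) atTop
        (𝓝 (∑ i ∈ Finset.range s, F.coord w (b i) + F.brL (fun i => b (i + s)) w)) :=
      (h1 T F (fun i => b (i + s)) (hsh s) w).const_add _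
    have e : (fun n => ∑ i ∈ Finset.range (s + n), F.coord w (b i)) =
        fun n => ∑ i ∈ Finset.range s, F.coord w (b i) +
        ∑ i ∈ Finset.range n, F.coord w (b (i + s)) := by
      funext n
      rw [Finset.sum_range_add]
      congr 1
      refine Finset.sum_congr rfl fun i _ => ?_
      rw [add_comm s i]
    rw [e] at t1
    exact tendsto_nhds_unique t1 t2
  refine ⟨key, ?_⟩
  have e : (fun s => F.brL (fun i => b (i + s)) w) =
      fun s => F.brL b w - ∑ i ∈ Finset.range s, F.coord w (b i) := by
    funext s
    rw [key s]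
    ring
  rw [e]
  have t3 := (h1 T F b hb w).const_sub (F.brL b w)
  rwa [sub_self] at t3

end Pool.Agent.H191W
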