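import Pool.Agent.H191R4.WG.Stubs

set_option autoImplicit false
set_option maxSynthPendingDepth 3

open scoped ENNReal Topology
open Filter

namespace Pool.Agent.H191W

open Forest

/-- the `i`-th ancestor exists and is in `A` -/
def C1inA {T : Type} (F : Forest T) (A : Set T) (t : T) (i : ℕ) : Prop :=
  ∃ s, F.anc t i = some s ∧ s ∈ A

theorem C1_succ {T : Type} (F : Forest T) (A : Set T) (hA : F.IsUp A) (t : T) (i : ℕ)
    (h : C1inA F A t (i + 1)) : C1inA F A t i := by
  obtain ⟨s, hs, hsA⟩ := h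
  have h1 : (F.anc t i).bind F.par = some s := hs
  rw [Option.bind_eq_some_iff] at h1
  obtain ⟨u, hu, hpu⟩ := h1
  exact ⟨u, hu, hA u s hpu hsA⟩

theorem C1_le {T : Type} (F : Forest T) (A : Set T) (hA : F.IsUp A) (t : T) (i j : ℕ)
    (hij : i ≤ j) (h : C1inA F A t j) : C1inA F A t i := by
  induction j, hij using Nat.le_induction with
  | base => exact h
  | succ j _ ih => exact ih (C1_succ F A hA t j h)

theorem C1_initial {T : Type} (F : Forest T) (A : Set T) (hA : F.IsUp A) (t : T) (m : ℕ) :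
    ∃ k, k ≤ m ∧ ∀ i, i < m → (C1inA F A t i ↔ i < k) := by
  induction m with
  | zero => exact ⟨0, le_rfl, fun i hi => absurd hi (Nat.not_lt_zero i)⟩
  | succ m ih =>
    obtain ⟨k, hk, h⟩ := ih
    by_cases hm : C1inA F A t m
    · refine ⟨m + 1, le_rfl, fun i hi => ⟨fun _ => hi, fun _ => ?_⟩⟩
      exact C1_le F A hA t i m (Nat.lt_succ_iff.mp hi) hm
    · refine ⟨k, by omega, fun i hi => ?_⟩
      rcases Nat.lt_succ_iff_lt_or_eq.mp hi with h1 | h1
      · exact h i h1
      · subst h1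
        exact ⟨fun h2 => absurd h2 hm, fun h2 => absurd h2 (by omega)⟩

open Classical in
theorem C1_seg {T : Type} (F : Forest T) (A : Set T) (hA : F.IsUp A) (c : T → ℝ) (p : T × ℕ) :
    ∃ m, m ≤ p.2 ∧ (F.ssum (fun t => if t ∈ A then c t else 0) p) ^ 2 ≤
      (F.ssum c (p.1, m)) ^ 2 := by
  obtain ⟨t, n⟩ := p
  obtain ⟨k, hk, h⟩ := C1_initial F A hA t (n + 1)
  have hterm : ∀ i, i < n + 1 → ((F.anc t i).elim 0 (fun t => if t ∈ A then c t else 0)) =
      if i < k then (F.anc t i).elim 0 c else 0 := by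
    intro i hi
    have h1 := h i hi
    cases hanc : F.anc t i with
    | none => simp
    | some s =>
      simp only [Option.elim_some]
      by_cases hik : i < k
      · obtain ⟨s', hs', hs'A⟩ := h1.mpr hik
        rw [hanc] at hs'
        have hss : s = s' := by simpa using hs'
        rw [if_pos hik, if_pos (hss ▸ hs'A)]
      · rw [if_neg hik, if_neg]
        intro hsA
        exact hik (h1.mp ⟨s, hanc, hsA⟩)
  have hsum : F.ssum (fun t => if t ∈ A then c t else 0) (t, n) =
      ∑ i ∈ Finset.range k, (F.anc t i).elim 0 c := by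
    unfold ssum
    rw [Finset.sum_congr rfl (fun i hi => hterm i (Finset.mem_range.mp hi))]
    rw [← Finset.sum_filter]
    refine Finset.sum_congr ?_ fun _ _ => rfl
    ext i
    simp only [Finset.mem_filter, Finset.mem_range]
    omega
  cases k with
  | zero =>
    refine ⟨0, Nat.zero_le _, ?_⟩
    rw [hsum]
    rw [Finset.range_zero, Finset.sum_empty, zero_pow two_ne_zero]
    exact sq_nonneg _
  | succ k =>
    refine ⟨k, by simpa using hk, ?_⟩
    rw [hsum]
    exact le_of_eq rfl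

open Classical in
theorem C1_energy {T : Type} (F : Forest T) (A : Set T) (hA : F.IsUp A) (hA2 : A2) (w : F.W)
    (S : Finset (T × ℕ)) (hS : F.Disj S) :
    ∑ p ∈ S, (F.ssum (fun t => if t ∈ A then F.coord w t else 0) p) ^ 2 ≤ ‖w‖ ^ 2 := by
  choose r hr1 hr2 using C1_seg F A hA (F.coord w)
  have hmem : ∀ p : T × ℕ, p.1 ∈ F.seg p := fun p => ⟨0, Nat.zero_le _, rfl⟩
  have hinj : Set.InjOn (fun p : T × ℕ => (p.1, r p)) (S : Set (T × ℕ)) := by
    intro p hp q hq hpq
    by_contra hne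
    have hd := hS hp hq hne
    have h1 : p.1 = q.1 := by
      have h0 : ((p.1, r p) : T × ℕ) = (q.1, r q) := hpq
      exact (Prod.mk.inj h0).1
    exact Set.disjoint_left.mp hd (hmem p) (h1 ▸ hmem q)
  have hsub : ∀ p : T × ℕ, F.seg (p.1, r p) ⊆ F.seg p := by
    rintro p s ⟨i, hi, hs⟩
    exact ⟨i, le_trans hi (hr1 p), hs⟩
  have hd' : F.Disj (S.image (fun p : T × ℕ => (p.1, r p))) := by
    intro a ha b hb hab
    rw [Finset.mem_coe, Finset.mem_image] at ha hb
    obtain ⟨p, hp, rfl⟩ := ha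
    obtain ⟨q, hq, rfl⟩ := hb
    have hpq : p ≠ q := fun h => hab (by rw [h])
    exact (hS hp hq hpq).mono (hsub p) (hsub q)
  calc ∑ p ∈ S, (F.ssum (fun t => if t ∈ A then F.coord w t else 0) p) ^ 2
      ≤ ∑ p ∈ S, (F.ssum (F.coord w) (p.1, r p)) ^ 2 := Finset.sum_le_sum fun p _ => hr2 p
    _ = ∑ q ∈ S.image (fun p : T × ℕ => (p.1, r p)), (F.ssum (F.coord w) q) ^ 2 := by
        rw [Finset.sum_image hinj]
    _ ≤ ‖w‖ ^ 2 := hA2 T F w _ hd'

open Classical in
theorem t_C1 (hA2 : A2) (hA3 : A3) : C1 := by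
  intro T F A hA
  have hex : ∀ w : F.W, ∃ v : F.W, (∀ t, F.coord v t = if t ∈ A then F.coord w t else 0) ∧
      ‖v‖ ≤ ‖w‖ := fun w =>
    hA3 T F _ ‖w‖ (norm_nonneg w) (fun S hS => C1_energy F A hA hA2 w S hS)
  choose R0 h1 h2 using hex
  have hR : ∃ R : F.W →L[ℝ] F.W, (∀ w t, F.coord (R w) t = if t ∈ A then F.coord w t else 0) ∧
      ∀ w, ‖R w‖ ≤ ‖w‖ := by
    refine ⟨LinearMap.mkContinuous
      { toFun := R0
        map_add' := ?_
        map_smul' := ?_ } 1 ?_, ?_, ?_⟩
    · intro v w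
      apply F.coord_ext
      intro t
      rw [F.coord_add, h1, h1, h1, F.coord_add]
      split_ifs <;> simp
    · intro c w
      apply F.coord_ext
      intro t
      rw [RingHom.id_apply, F.coord_smul, h1, h1, F.coord_smul]
      split_ifs <;> simp
    · intro w
      rw [one_mul]
      exact h2 w
    · exact h1
    · exact h2
  have hres : F.res A = hR.choose := by
    unfold res
    rw [dif_pos hR]
  rw [hres]
  exact hR.choose_spec

end Pool.Agent.H191W
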