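import Pool.Agent.H191R4.WG.Stubs

/-! C2: vectors supported in disjoint up-sets. -/

set_option autoImplicit false
set_option maxSynthPendingDepth 3

open scoped ENNReal Topology
open Filter

namespace Pool.Agent.H191W

theorem C2_coord_sum {T : Type} (F : Forest T) {ι : Type} (J : Finset ι) (w : ι → F.W) (t : T) :
    F.coord (∑ a ∈ J, w a) t = ∑ a ∈ J, F.coord (w a) t := by
  have h := map_sum (F.cf t) w J
  simp only [Forest.cf_apply] at h
  exact h

theorem C2_ssum_sum {T : Type} (F : Forest T) {ι : Type} (J : Finset ι) (w : ι → F.W)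
    (p : T × ℕ) :
    F.ssum (F.coord (∑ a ∈ J, w a)) p = ∑ a ∈ J, F.ssum (F.coord (w a)) p := by
  unfold Forest.ssum
  rw [Finset.sum_comm]
  refine Finset.sum_congr rfl fun i _ => ?_
  cases h : F.anc p.1 i with
  | none => simp
  | some s => simpa using C2_coord_sum F J w s

theorem C2_ne {T : Type} (F : Forest T) (hL4 : L4) (A : Set T) (hA : F.IsUp A) (w : F.W)
    (hw : F.SuppIn w A) (p : T × ℕ) (h : F.ssum (F.coord w) p ≠ 0) : p.1 ∈ A := by
  unfold Forest.ssum at h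
  obtain ⟨i, hi, hne⟩ := Finset.exists_ne_zero_of_sum_ne_zero h
  cases hs : F.anc p.1 i with
  | none => rw [hs] at hne; exact absurd rfl hne
  | some s =>
    rw [hs] at hne
    have hsA : s ∈ A := by
      by_contra hn
      exact hne (hw s hn)
    refine (hL4 T F).2.2.2.2.2 A hA p s ?_ hsA
    exact ⟨i, by have := Finset.mem_range.1 hi; omega, hs⟩

theorem C2_sq {ι : Type} (J : Finset ι) (f : ι → ℝ)
    (h : ∀ a ∈ J, ∀ c ∈ J, a ≠ c → f a * f c = 0) :
    (∑ a ∈ J, f a) ^ 2 = ∑ a ∈ J, f a ^ 2 := by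
  rw [sq, Finset.sum_mul_sum]
  refine Finset.sum_congr rfl fun a ha => ?_
  rw [Finset.sum_eq_single a]
  · ring
  · intro c hc hca
    exact h a ha c hc (Ne.symm hca)
  · intro hn
    exact absurd ha hn

theorem t_C2 (hA2 : A2) (hA3 : A3) (hL4 : L4) : C2 := by
  intro T F ι J A w hup hdis hsupp
  have hnn : 0 ≤ ∑ a ∈ J, ‖w a‖ ^ 2 := Finset.sum_nonneg fun a _ => sq_nonneg _
  obtain ⟨w', hw', hn⟩ := hA3 T F (F.coord (∑ a ∈ J, w a)) (Real.sqrt (∑ a ∈ J, ‖w a‖ ^ 2))
    (Real.sqrt_nonneg _) (by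
      intro S hS
      rw [Real.sq_sqrt hnn]
      have h1 : ∀ p ∈ S, (F.ssum (F.coord (∑ a ∈ J, w a)) p) ^ 2 =
          ∑ a ∈ J, (F.ssum (F.coord (w a)) p) ^ 2 := by
        intro p _
        rw [C2_ssum_sum]
        apply C2_sq
        intro a ha c hc hac
        by_contra hne
        have hfa : F.ssum (F.coord (w a)) p ≠ 0 := left_ne_zero_of_mul hne
        have hfc : F.ssum (F.coord (w c)) p ≠ 0 := right_ne_zero_of_mul hne
        have h2 := C2_ne F hL4 (A a) (hup a ha) (w a) (hsupp a ha) p hfa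
        have h3 := C2_ne F hL4 (A c) (hup c hc) (w c) (hsupp c hc) p hfc
        exact Set.disjoint_left.1 (hdis a ha c hc hac) h2 h3
      rw [Finset.sum_congr rfl h1, Finset.sum_comm]
      exact Finset.sum_le_sum fun a _ => hA2 T F (w a) S hS)
  have he : w' = ∑ a ∈ J, w a := F.coord_ext hw'
  rw [he] at hn
  have h4 : ‖∑ a ∈ J, w a‖ ^ 2 ≤ (Real.sqrt (∑ a ∈ J, ‖w a‖ ^ 2)) ^ 2 :=
    pow_le_pow_left₀ (norm_nonneg _) hn 2
  rwa [Real.sq_sqrt hnn] at h4

end Pool.Agent.H191W
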