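import Pool.Agent.H191R4.WG.Stubs

set_option autoImplicit false
set_option maxSynthPendingDepth 3

open scoped ENNReal Topology
open Filter

namespace Pool.Agent.H191W

open Forest

theorem t_C3 (h1 : C1) (h2 : C2) : C3 := by
  intro T F ι J A hA hdisj g
  set s : ι → ℝ := fun a => ‖g.comp (F.res (A a))‖ with hs
  have hs0 : ∀ a, 0 ≤ s a := fun a => norm_nonneg _
  set S : ℝ := ∑ a ∈ J, s a ^ 2 with hS
  have hS0 : 0 ≤ S := Finset.sum_nonneg fun a _ => sq_nonneg _
  have hsum0 : 0 ≤ ∑ a ∈ J, s a := Finset.sum_nonneg fun a _ => hs0 a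
  have key : ∀ η : ℝ, 0 < η → S - η * ∑ a ∈ J, s a ≤ ‖g‖ * Real.sqrt S := by
    intro η hη
    have hw : ∀ a, ∃ w : F.W, ‖w‖ ≤ 1 ∧ s a - η ≤ g (F.res (A a) w) := by
      intro a
      have hlt : s a - η < ‖g.comp (F.res (A a))‖ := by
        show s a - η < s a
        linarith
      obtain ⟨x, hx1, hx2⟩ := (g.comp (F.res (A a))).exists_lt_apply_of_lt_opNorm hlt
      rw [Real.norm_eq_abs] at hx2
      by_cases hpos : 0 ≤ (g.comp (F.res (A a))) x
      · rw [abs_of_nonneg hpos] at hx2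
        exact ⟨x, hx1.le, hx2.le⟩
      · push Not at hpos
        rw [abs_of_neg hpos] at hx2
        refine ⟨-x, by rw [norm_neg]; exact hx1.le, ?_⟩
        rw [map_neg, map_neg]
        exact hx2.le
    choose w hw1 hw2 using hw
    have hv : ‖∑ a ∈ J, s a • F.res (A a) (w a)‖ ^ 2 ≤ S := by
      refine (h2 T F ι J A (fun a => s a • F.res (A a) (w a)) hA hdisj ?_).trans ?_
      · intro a ha t ht
        show F.coord (s a • F.res (A a) (w a)) t = 0
        rw [F.coord_smul, (h1 T F (A a) (hA a ha)).1 (w a) t, if_neg ht, mul_zero]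
      · apply Finset.sum_le_sum
        intro a ha
        have h3 : ‖F.res (A a) (w a)‖ ≤ 1 := ((h1 T F (A a) (hA a ha)).2 (w a)).trans (hw1 a)
        have h4 : ‖s a • F.res (A a) (w a)‖ ≤ s a := by
          rw [norm_smul, Real.norm_of_nonneg (hs0 a)]
          calc s a * ‖F.res (A a) (w a)‖ ≤ s a * 1 := mul_le_mul_of_nonneg_left h3 (hs0 a)
            _ = s a := mul_one _
        exact pow_le_pow_left₀ (norm_nonneg _) h4 2
    have hgv : S - η * ∑ a ∈ J, s a ≤ g (∑ a ∈ J, s a • F.res (A a) (w a)) := by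
      rw [map_sum, hS, Finset.mul_sum, ← Finset.sum_sub_distrib]
      apply Finset.sum_le_sum
      intro a _
      rw [map_smul, smul_eq_mul]
      have := mul_le_mul_of_nonneg_left (hw2 a) (hs0 a)
      nlinarith
    have h5 : g (∑ a ∈ J, s a • F.res (A a) (w a)) ≤
        ‖g‖ * ‖∑ a ∈ J, s a • F.res (A a) (w a)‖ :=
      (le_abs_self _).trans (g.le_opNorm _)
    have h6 : ‖∑ a ∈ J, s a • F.res (A a) (w a)‖ ≤ Real.sqrt S := Real.le_sqrt_of_sq_le hv
    exact hgv.trans (h5.trans (mul_le_mul_of_nonneg_left h6 (norm_nonneg _)))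
  have key2 : S ≤ ‖g‖ * Real.sqrt S := by
    by_contra h
    push Not at h
    have hd : 0 < S - ‖g‖ * Real.sqrt S := by linarith
    have hc : 0 < (∑ a ∈ J, s a) + 1 := by linarith
    have h3 := key ((S - ‖g‖ * Real.sqrt S) / (2 * ((∑ a ∈ J, s a) + 1))) (by positivity)
    have h4 : (S - ‖g‖ * Real.sqrt S) / (2 * ((∑ a ∈ J, s a) + 1)) * (∑ a ∈ J, s a) ≤
        (S - ‖g‖ * Real.sqrt S) / 2 := by
      rw [div_mul_eq_mul_div, div_le_div_iff₀ (by positivity) (by norm_num)]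
      nlinarith
    linarith
  show S ≤ ‖g‖ ^ 2
  have h7 : Real.sqrt S * Real.sqrt S = S := Real.mul_self_sqrt hS0
  rcases (Real.sqrt_nonneg S).eq_or_lt with h | h
  · rw [← h7, ← h, zero_mul]
    positivity
  · have h8 : Real.sqrt S ≤ ‖g‖ := by
      have : Real.sqrt S * Real.sqrt S ≤ ‖g‖ * Real.sqrt S := by rw [h7]; exact key2
      exact le_of_mul_le_mul_right this h
    calc S = Real.sqrt S * Real.sqrt S := h7.symm
      _ ≤ ‖g‖ * ‖g‖ := mul_le_mul h8 h8 h.le (norm_nonneg _)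
      _ = ‖g‖ ^ 2 := by ring

end Pool.Agent.H191W
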