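import Pool.Agent.H191R4.WG.Stubs

set_option autoImplicit false
set_option maxSynthPendingDepth 3

open scoped ENNReal Topology
open Filter

namespace Pool.Agent.H191W

open Forest

theorem t_C4 (hA5 : A5) (hC2 : C2) (hL2 : L2) (hL4 : L4) : C4 := by
  classical
  intro T F J hJ g
  obtain ⟨hrefl, -, -, -⟩ := hL2 T F
  obtain ⟨hup, -, -, hdis, -, -⟩ := hL4 T F
  have hS : 0 ≤ ∑ t ∈ J, (g (F.e t)) ^ 2 := Finset.sum_nonneg fun t _ => sq_nonneg _
  have hsum := hC2 T F T J (fun t => F.cone t) (fun t => g (F.e t) • F.e t)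
    (fun t _ => hup t)
    (fun a ha c hc hac => hdis a c (hJ a ha c hc hac) (hJ c hc a ha (Ne.symm hac)))
    (by
      intro t ht s hs
      have hne : s ≠ t := by
        rintro rfl
        exact hs (hrefl s)
      rw [coord_smul]
      have := (hA5 T F t).1 s
      rw [this]
      simp [hne])
  have hsum2 : ∑ t ∈ J, ‖g (F.e t) • F.e t‖ ^ 2 ≤ ∑ t ∈ J, (g (F.e t)) ^ 2 := by
    refine Finset.sum_le_sum fun t _ => ?_
    have h1 := (hA5 T F t).2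
    rw [norm_smul, mul_pow, Real.norm_eq_abs, sq_abs]
    have h2 : ‖F.e t‖ ^ 2 ≤ 1 := by
      have := norm_nonneg (F.e t)
      nlinarith
    have h3 := sq_nonneg (g (F.e t))
    nlinarith
  have hN : ‖∑ t ∈ J, g (F.e t) • F.e t‖ ^ 2 ≤ ∑ t ∈ J, (g (F.e t)) ^ 2 := hsum.trans hsum2
  have hval : g (∑ t ∈ J, g (F.e t) • F.e t) = ∑ t ∈ J, (g (F.e t)) ^ 2 := by
    rw [map_sum]
    refine Finset.sum_congr rfl fun t _ => ?_
    rw [map_smul, smul_eq_mul, sq]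
  have hop : ∑ t ∈ J, (g (F.e t)) ^ 2 ≤ ‖g‖ * ‖∑ t ∈ J, g (F.e t) • F.e t‖ := by
    rw [← hval]
    exact (le_abs_self _).trans (g.le_opNorm _)
  set S := ∑ t ∈ J, (g (F.e t)) ^ 2 with hSdef
  set N := ‖∑ t ∈ J, g (F.e t) • F.e t‖ with hNdef
  have hg0 := norm_nonneg g
  have hN0 : 0 ≤ N := norm_nonneg _
  rcases hS.eq_or_lt with h0 | h0
  · rw [← h0]; positivity
  · have h1 : S ^ 2 ≤ ‖g‖ ^ 2 * S := by
      calc S ^ 2 ≤ (‖g‖ * N) ^ 2 := by gcongr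
        _ = ‖g‖ ^ 2 * N ^ 2 := by ring
        _ ≤ ‖g‖ ^ 2 * S := by gcongr
    have h2 : S * S ≤ ‖g‖ ^ 2 * S := by nlinarith
    exact le_of_mul_le_mul_right h2 h0

end Pool.Agent.H191W
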