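import Pool.Agent.H191R4.WG.Stubs

set_option autoImplicit false
set_option maxSynthPendingDepth 3

/-! C5: sum of the squares of the norms of the restrictions. -/

open scoped ENNReal Topology
open Filter

namespace Pool.Agent.H191W

open Forest

namespace TC5

variable {T : Type} (F : Forest T)

theorem anc_add (t : T) (i j : ℕ) : F.anc t (i + j) = (F.anc t i).bind fun s => F.anc s j := by
  induction j with
  | zero => cases h : F.anc t i <;> simp [Forest.anc, h]
  | succ j ih =>
    rw [← add_assoc]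
    show (F.anc t (i + j)).bind F.par = _
    rw [ih]
    cases h : F.anc t i <;> simp [Forest.anc]

theorem up_anc {A : Set T} (hA : F.IsUp A) {s : T} (hs : s ∈ A) :
    ∀ (k : ℕ) (t : T), F.anc t k = some s → t ∈ A := by
  intro k
  induction k generalizing s with
  | zero =>
    intro t ht
    have : t = s := by simpa [Forest.anc] using ht
    rwa [this]
  | succ k ih =>
    intro t ht
    have h1 : (F.anc t k).bind F.par = some s := ht
    cases h : F.anc t k with
    | none => rw [h] at h1; simp at h1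
    | some u =>
      rw [h] at h1
      exact ih (hA u s h1 hs) t h

theorem anc_le {t : T} {i n : ℕ} (hi : i ≤ n) {s : T} (h : F.anc t n = some s) :
    ∃ s', F.anc t i = some s' ∧ F.anc s' (n - i) = some s := by
  have h1 : n = i + (n - i) := by omega
  rw [h1, anc_add] at h
  cases h2 : F.anc t i with
  | none => rw [h2] at h; simp at h
  | some u =>
    rw [h2] at h
    exact ⟨u, rfl, h⟩

theorem top_mem (p : T × ℕ) : p.1 ∈ F.seg p := ⟨0, Nat.zero_le _, rfl⟩

open Classical in
/-- the shortened segment -/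
noncomputable def sho (A : Set T) (p : T × ℕ) : T × ℕ :=
  (p.1, Nat.findGreatest (fun i => ∃ s ∈ A, F.anc p.1 i = some s) p.2)

theorem sho_spec {A : Set T} {p : T × ℕ} (hp : p.1 ∈ A) :
    ∃ s ∈ A, F.anc p.1 (sho F A p).2 = some s := by
  classical
  exact Nat.findGreatest_spec (P := fun i => ∃ s ∈ A, F.anc p.1 i = some s) (Nat.zero_le p.2)
    ⟨p.1, hp, rfl⟩

theorem sho_le (A : Set T) (p : T × ℕ) : (sho F A p).2 ≤ p.2 := by
  classical
  exact Nat.findGreatest_le _

theorem sho_max {A : Set T} {p : T × ℕ} {i : ℕ} (h1 : (sho F A p).2 < i) (h2 : i ≤ p.2) :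
    ¬ ∃ s ∈ A, F.anc p.1 i = some s := by
  classical
  exact Nat.findGreatest_is_greatest h1 h2

theorem seg_sho {A : Set T} (hA : F.IsUp A) {p : T × ℕ} (hp : p.1 ∈ A) :
    F.seg (sho F A p) ⊆ A ∧ F.seg (sho F A p) ⊆ F.seg p := by
  constructor
  · rintro s ⟨i, hi, hs⟩
    obtain ⟨u, hu, hu2⟩ := sho_spec F hp
    obtain ⟨s', h1, h2⟩ := anc_le F hi hu2
    have h3 : s = s' := by
      have : some s = some s' := hs.symm.trans h1
      simpa using this
    rw [h3]
    exact up_anc F hA hu _ _ h2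
  · rintro s ⟨i, hi, hs⟩
    exact ⟨i, hi.trans (sho_le F A p), hs⟩

open Classical in
theorem ssum_sho {A : Set T} (hA : F.IsUp A) (x : T → ℝ) {p : T × ℕ} (hp : p.1 ∈ A) :
    F.ssum (fun t => if t ∈ A then x t else 0) p = F.ssum x (sho F A p) := by
  unfold Forest.ssum
  have hle := sho_le F A p
  have hsub : Finset.range ((sho F A p).2 + 1) ⊆ Finset.range (p.2 + 1) := by
    intro i hi
    rw [Finset.mem_range] at hi ⊢
    omega
  rw [← Finset.sum_subset hsub]
  · refine Finset.sum_congr rfl fun i hi => ?_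
    rw [Finset.mem_range] at hi
    obtain ⟨u, hu, hu2⟩ := sho_spec F hp
    obtain ⟨s', h1, h2⟩ := anc_le F (show i ≤ (sho F A p).2 by omega) hu2
    have h3 : (sho F A p).1 = p.1 := rfl
    rw [h3, h1]
    simp only [Option.elim_some]
    rw [if_pos (up_anc F hA hu _ _ h2)]
  · intro i hi hi2
    rw [Finset.mem_range] at hi hi2
    have h1 := sho_max F (A := A) (p := p) (i := i) (by omega) (by omega)
    cases h2 : F.anc p.1 i with
    | none => simp
    | some s =>
      simp only [Option.elim_some]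
      rw [if_neg]
      intro hs
      exact h1 ⟨s, hs, h2⟩

open Classical in
theorem ssum_out {A : Set T} (hA : F.IsUp A) (x : T → ℝ) {p : T × ℕ} (hp : p.1 ∉ A) :
    F.ssum (fun t => if t ∈ A then x t else 0) p = 0 := by
  unfold Forest.ssum
  refine Finset.sum_eq_zero fun i _ => ?_
  cases h2 : F.anc p.1 i with
  | none => simp
  | some s =>
    simp only [Option.elim_some]
    rw [if_neg]
    intro hs
    exact hp (up_anc F hA hs _ _ h2)

open Classical in
theorem shorten {A : Set T} (hA : F.IsUp A) (x : T → ℝ) (S : Finset (T × ℕ)) (hS : F.Disj S) :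
    ∃ S' : Finset (T × ℕ), F.Disj S' ∧ (∀ p ∈ S', F.seg p ⊆ A) ∧
      ∑ p ∈ S, (F.ssum (fun t => if t ∈ A then x t else 0) p) ^ 2 =
        ∑ p ∈ S', (F.ssum x p) ^ 2 := by
  have hmem : ∀ p ∈ S.filter (fun p => p.1 ∈ A), p ∈ S ∧ p.1 ∈ A := fun p hp =>
    Finset.mem_filter.1 hp
  have hinj : ∀ p ∈ S.filter (fun p => p.1 ∈ A), ∀ q ∈ S.filter (fun p => p.1 ∈ A),
      sho F A p = sho F A q → p = q := by
    intro p hp q hq hpq
    by_contra hne
    have h1 : p.1 = q.1 := by
      have h0 : (sho F A p).1 = (sho F A q).1 := by rw [hpq]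
      exact h0
    have h2 := hS (Finset.mem_coe.2 (hmem p hp).1) (Finset.mem_coe.2 (hmem q hq).1) hne
    have h3 : p.1 ∈ F.seg q := by rw [h1]; exact top_mem F q
    exact Set.disjoint_left.1 h2 (top_mem F p) h3
  refine ⟨(S.filter (fun p => p.1 ∈ A)).image (sho F A), ?_, ?_, ?_⟩
  · intro p' hp' q' hq' hne
    obtain ⟨p, hp, rfl⟩ := Finset.mem_image.1 (Finset.mem_coe.1 hp')
    obtain ⟨q, hq, rfl⟩ := Finset.mem_image.1 (Finset.mem_coe.1 hq')
    have hpq : p ≠ q := fun h => hne (by rw [h])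
    have h2 := hS (Finset.mem_coe.2 (hmem p hp).1) (Finset.mem_coe.2 (hmem q hq).1) hpq
    exact Set.disjoint_of_subset (seg_sho F hA (hmem p hp).2).2 (seg_sho F hA (hmem q hq).2).2 h2
  · intro p' hp'
    obtain ⟨p, hp, rfl⟩ := Finset.mem_image.1 hp'
    exact (seg_sho F hA (hmem p hp).2).1
  · rw [Finset.sum_image (fun p hp q hq h => hinj p hp q hq h)]
    rw [← Finset.sum_filter_add_sum_filter_not S (fun p => p.1 ∈ A)]
    have h1 : ∑ p ∈ S.filter (fun p => ¬ p.1 ∈ A),
        (F.ssum (fun t => if t ∈ A then x t else 0) p) ^ 2 = 0 := by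
      refine Finset.sum_eq_zero fun p hp => ?_
      rw [ssum_out F hA x (Finset.mem_filter.1 hp).2]
      norm_num
    rw [h1, add_zero]
    refine Finset.sum_congr rfl fun p hp => ?_
    rw [ssum_sho F hA x (hmem p hp).2]

end TC5

open TC5 in
theorem t_C5 (hA2 : A2) (hA3 : A3) (hC1 : C1) : C5 := by
  classical
  intro T F ι J A hup hdis w
  -- families almost attaining the norms of the restrictions
  have key : ∀ η : ℝ, 0 < η → ∀ a ∈ J, ∃ S : Finset (T × ℕ), F.Disj S ∧ (∀ p ∈ S, F.seg p ⊆ A a) ∧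
      ‖F.res (A a) w‖ ^ 2 - η ≤ ∑ p ∈ S, (F.ssum (F.coord w) p) ^ 2 := by
    intro η hη a ha
    by_contra hcon
    push Not at hcon
    have hx : F.coord (F.res (A a) w) = fun t => if t ∈ A a then F.coord w t else 0 := by
      funext t
      rw [(hC1 T F (A a) (hup a ha)).1 w t]
    have h1 : ∀ S : Finset (T × ℕ), F.Disj S →
        ∑ p ∈ S, (F.ssum (F.coord (F.res (A a) w)) p) ^ 2 < ‖F.res (A a) w‖ ^ 2 - η := by
      intro S hS
      obtain ⟨S', h1, h2, h3⟩ := shorten F (hup a ha) (F.coord w) S hS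
      rw [hx, h3]
      exact hcon S' h1 h2
    have h0 : 0 ≤ ‖F.res (A a) w‖ ^ 2 - η := by
      have := h1 ∅ (by unfold Forest.Disj; simp)
      simp only [Finset.sum_empty] at this
      exact this.le
    obtain ⟨w', h2, h3⟩ := hA3 T F (F.coord (F.res (A a) w))
      (Real.sqrt (‖F.res (A a) w‖ ^ 2 - η)) (Real.sqrt_nonneg _) (fun S hS => by
        rw [Real.sq_sqrt h0]
        exact (h1 S hS).le)
    have h4 : w' = F.res (A a) w := F.coord_ext h2
    rw [h4] at h3
    have h5 : ‖F.res (A a) w‖ ^ 2 ≤ ‖F.res (A a) w‖ ^ 2 - η := by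
      calc ‖F.res (A a) w‖ ^ 2 ≤ (Real.sqrt (‖F.res (A a) w‖ ^ 2 - η)) ^ 2 :=
            pow_le_pow_left₀ (norm_nonneg _) h3 2
        _ = _ := Real.sq_sqrt h0
    linarith
  refine le_of_forall_pos_le_add fun δ hδ => ?_
  have hη : 0 < δ / (J.card + 1) := by positivity
  have key' := key (δ / (J.card + 1)) hη
  choose! S hS1 hS2 hS3 using key'
  have hUd : F.Disj (J.biUnion S) := by
    intro p hp q hq hpq
    obtain ⟨a, ha, hpa⟩ := Finset.mem_biUnion.1 (Finset.mem_coe.1 hp)
    obtain ⟨c, hc, hqc⟩ := Finset.mem_biUnion.1 (Finset.mem_coe.1 hq)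
    by_cases hac : a = c
    · subst hac
      exact hS1 a ha (Finset.mem_coe.2 hpa) (Finset.mem_coe.2 hqc) hpq
    · exact Set.disjoint_of_subset (hS2 a ha p hpa) (hS2 c hc q hqc) (hdis a ha c hc hac)
  have hSd : ∀ a ∈ J, ∀ c ∈ J, a ≠ c → Disjoint (S a) (S c) := by
    intro a ha c hc hac
    rw [Finset.disjoint_left]
    intro p hpa hpc
    exact Set.disjoint_left.1 (hdis a ha c hc hac) (hS2 a ha p hpa (top_mem F p))
      (hS2 c hc p hpc (top_mem F p))
  have h1 := hA2 T F w (J.biUnion S) hUd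
  rw [Finset.sum_biUnion (fun a ha c hc hac => hSd a ha c hc hac)] at h1
  have h2 : ∑ a ∈ J, (‖F.res (A a) w‖ ^ 2 - δ / (J.card + 1)) ≤
      ∑ a ∈ J, ∑ p ∈ S a, (F.ssum (F.coord w) p) ^ 2 := Finset.sum_le_sum fun a ha => hS3 a ha
  rw [Finset.sum_sub_distrib, Finset.sum_const, nsmul_eq_mul] at h2
  have h3 : (J.card : ℝ) * (δ / (J.card + 1)) ≤ δ := by
    have h4 : (0 : ℝ) ≤ J.card := Nat.cast_nonneg _
    rw [← mul_div_assoc, div_le_iff₀ (by positivity)]
    nlinarith
  linarith

end Pool.Agent.H191W
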