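import Pool.Agent.H191R4.WG.Stubs

set_option autoImplicit false
set_option maxSynthPendingDepth 3

namespace Pool.Agent.H191W

open Forest

theorem t_C6 (hC1 : C1) : C6 := by
  classical
  intro T F A B hA hB hAB g
  obtain ⟨hA1, hA2⟩ := hC1 T F A hA
  obtain ⟨hB1, hB2⟩ := hC1 T F B hB
  have hres : ∀ w, F.res B (F.res A w) = F.res A w := by
    intro w
    apply F.coord_ext
    intro t
    rw [hB1, hA1]
    by_cases h : t ∈ A
    · rw [if_pos (hAB h)]
    · rw [if_neg h]; simp
  constructor
  · refine ContinuousLinearMap.opNorm_le_bound _ (norm_nonneg _) fun w => ?_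
    have h1 : (g.comp (F.res A)) w = (g.comp (F.res B)) (F.res A w) := by
      simp only [ContinuousLinearMap.comp_apply, hres]
    rw [h1]
    refine (ContinuousLinearMap.le_opNorm _ _).trans ?_
    exact mul_le_mul_of_nonneg_left (hA2 w) (norm_nonneg _)
  · refine ContinuousLinearMap.opNorm_le_bound _ (norm_nonneg _) fun w => ?_
    rw [ContinuousLinearMap.comp_apply]
    refine (ContinuousLinearMap.le_opNorm _ _).trans ?_
    exact mul_le_mul_of_nonneg_left (hB2 w) (norm_nonneg _)

end Pool.Agent.H191W
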