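import Pool.Agent.H191R4.WG.Stubs

/-!
# WG task C7: norming vector with finite support (helper214)
-/

set_option autoImplicit false
set_option maxSynthPendingDepth 3

open scoped ENNReal Topology
open Filter

namespace Pool.Agent.H191W

theorem t_C7 (hA6 : A6) (hC1 : C1) : C7 := by
  intro T F A hA g q hq
  obtain ⟨hres, hnorm⟩ := hC1 T F A hA
  obtain ⟨w, hw1, hw2⟩ := ContinuousLinearMap.exists_lt_apply_of_lt_opNorm _ hq
  -- choose the sign
  obtain ⟨w', hw1', hw2'⟩ : ∃ w' : F.W, ‖w'‖ < 1 ∧ q < g (F.res A w') := by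
    rcases le_total 0 (g (F.res A w)) with h | h
    · refine ⟨w, hw1, ?_⟩
      rwa [ContinuousLinearMap.comp_apply, Real.norm_eq_abs, abs_of_nonneg h] at hw2
    · refine ⟨-w, by rwa [norm_neg], ?_⟩
      rw [map_neg, map_neg]
      rwa [ContinuousLinearMap.comp_apply, Real.norm_eq_abs, abs_of_nonpos h] at hw2
  set w₁ := F.res A w' with hw₁
  have hn1 : ‖w₁‖ < 1 := (hnorm w').trans_lt hw1'
  have hg : 0 < g w₁ - q := sub_pos.mpr hw2'
  have hgn : 0 < ‖g‖ + 1 := by positivity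
  obtain ⟨v, hv1, hv2, hv3⟩ := hA6 T F w₁ (min (1 - ‖w₁‖) ((g w₁ - q) / (‖g‖ + 1)))
    (lt_min (by linarith) (div_pos hg hgn))
  have h3a := hv3.trans_le (min_le_left _ _)
  have h3b := hv3.trans_le (min_le_right _ _)
  refine ⟨v, hv1, ?_, ?_, ?_⟩
  · intro t ht
    rcases hv2 t with h | h
    · rw [h, hw₁, hres w' t, if_neg ht]
    · exact h
  · have : ‖v‖ ≤ ‖w₁‖ + ‖w₁ - v‖ := by
      have h := norm_sub_le w₁ (w₁ - v)
      rwa [sub_sub_cancel] at h
    linarith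
  · have h1 : g v = g w₁ - g (w₁ - v) := by
      rw [map_sub]; ring
    have h2 : g (w₁ - v) ≤ ‖g‖ * ‖w₁ - v‖ :=
      (le_abs_self _).trans (by
        have := g.le_opNorm (w₁ - v)
        rwa [Real.norm_eq_abs] at this)
    have h4 : ‖w₁ - v‖ * (‖g‖ + 1) < g w₁ - q := (lt_div_iff₀ hgn).mp h3b
    have h5 : 0 ≤ ‖w₁ - v‖ := norm_nonneg _
    nlinarith

end Pool.Agent.H191W
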