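import Pool.Agent.H191R4.WG.Stubs

set_option autoImplicit false
set_option maxSynthPendingDepth 3

open scoped ENNReal Topology
open Filter

namespace Pool.Agent.H191W

open Forest

theorem t_D1 (hA5 : A5) : D1 := by
  intro T F b g
  have key : ∀ f : StrongDual ℝ F.W, ∃ x : ℝ, |x| ≤ ‖f‖ ∧
      Tendsto (fun i => f (F.e (b i))) (hyperfilter ℕ : Filter ℕ) (𝓝 x) := by
    intro f
    have hc : IsCompact (Set.Icc (-‖f‖) ‖f‖) := isCompact_Icc
    have hmem : ∀ i, f (F.e (b i)) ∈ Set.Icc (-‖f‖) ‖f‖ := by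
      intro i
      have h1 := f.le_opNorm (F.e (b i))
      have h2 := (hA5 T F (b i)).2
      rw [Real.norm_eq_abs] at h1
      have h3 : |f (F.e (b i))| ≤ ‖f‖ := by
        refine h1.trans ?_
        calc ‖f‖ * ‖F.e (b i)‖ ≤ ‖f‖ * 1 := by gcongr
          _ = ‖f‖ := mul_one _
      exact abs_le.mp h3
    have hle : (((hyperfilter ℕ).map (fun i => f (F.e (b i))) : Ultrafilter ℝ) : Filter ℝ) ≤
        𝓟 (Set.Icc (-‖f‖) ‖f‖) := by
      rw [Filter.le_principal_iff, Ultrafilter.coe_map, Filter.mem_map]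
      exact Filter.univ_mem' hmem
    obtain ⟨x, hx, hx2⟩ := hc.ultrafilter_le_nhds _ hle
    exact ⟨x, abs_le.mpr hx, hx2⟩
  choose U hU1 hU2 using key
  have hex : ∃ V : StrongDual ℝ (StrongDual ℝ F.W), ∀ g : StrongDual ℝ F.W,
      Tendsto (fun i => g (F.e (b i))) (hyperfilter ℕ : Filter ℕ) (𝓝 (V g)) := by
    refine ⟨LinearMap.mkContinuous
      { toFun := U
        map_add' := ?_
        map_smul' := ?_ } 1 ?_, ?_⟩
    · intro f1 f2
      refine tendsto_nhds_unique (hU2 (f1 + f2)) ?_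
      exact (hU2 f1).add (hU2 f2)
    · intro c f1
      refine tendsto_nhds_unique (hU2 (c • f1)) ?_
      exact (hU2 f1).const_mul c
    · intro f
      rw [one_mul]
      exact hU1 f
    · intro f
      exact hU2 f
  unfold Forest.uu
  rw [dif_pos hex]
  exact hex.choose_spec g

end Pool.Agent.H191W
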