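import Pool.Agent.H191R4.WG.Stubs

set_option autoImplicit false
set_option maxSynthPendingDepth 3

open scoped ENNReal Topology
open Filter

namespace Pool.Agent.H191W

open Forest

theorem t_D2 (hC4 : C4) (hD1 : D1) (hL2 : L2) : D2 := by
  classical
  intro T F ι J b hJ
  have hev : ∀ᶠ i in atTop, ∀ a ∈ J, ∀ c ∈ J, a ≠ c → ¬ F.le (b a i) (b c i) := by
    rw [Filter.eventually_all_finset]
    intro a ha
    rw [Filter.eventually_all_finset]
    intro c hc
    by_cases h : a = c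
    · exact Filter.Eventually.of_forall fun i h1 => absurd h h1
    · filter_upwards [hJ a ha c hc h] with i hi _
      exact hi
  have h1 : ∀ g : StrongDual ℝ F.W, ∑ a ∈ J, (F.uu (b a) g) ^ 2 ≤ ‖g‖ ^ 2 := by
    intro g
    have ht : Tendsto (fun i => ∑ a ∈ J, (g (F.e (b a i))) ^ 2) (hyperfilter ℕ : Filter ℕ)
        (𝓝 (∑ a ∈ J, (F.uu (b a) g) ^ 2)) :=
      tendsto_finset_sum _ fun a _ => (hD1 T F (b a) g).pow 2
    refine le_of_tendsto ht ?_
    have hle : (hyperfilter ℕ : Filter ℕ) ≤ atTop := by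
      rw [← Nat.cofinite_eq_atTop]
      exact hyperfilter_le_cofinite
    apply hle
    filter_upwards [hev] with i hi
    have hinj : Set.InjOn (fun a => b a i) (J : Set ι) := by
      intro a ha c hc hac
      by_contra hne
      apply hi a ha c hc hne
      have : b a i = b c i := hac
      rw [this]
      exact (hL2 T F).1 _
    have h2 := hC4 T F (J.image fun a => b a i) ?_ g
    · rw [Finset.sum_image hinj] at h2
      exact h2
    · intro s hs t ht' hst
      rw [Finset.mem_image] at hs ht'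
      obtain ⟨a, ha, rfl⟩ := hs
      obtain ⟨c, hc, rfl⟩ := ht'
      exact hi a ha c hc (fun h => hst (by rw [h]))
  refine ⟨h1, ?_⟩
  intro c
  have hc0 : 0 ≤ ∑ a ∈ J, (c a) ^ 2 := Finset.sum_nonneg fun a _ => sq_nonneg _
  have h2 : ‖∑ a ∈ J, c a • F.uu (b a)‖ ≤ Real.sqrt (∑ a ∈ J, (c a) ^ 2) := by
    refine ContinuousLinearMap.opNorm_le_bound _ (Real.sqrt_nonneg _) fun g => ?_
    have h3 : (∑ a ∈ J, c a • F.uu (b a)) g = ∑ a ∈ J, c a * F.uu (b a) g := by
      rw [ContinuousLinearMap.sum_apply]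
      rfl
    rw [h3, Real.norm_eq_abs]
    have h4 := Finset.sum_mul_sq_le_sq_mul_sq J c (fun a => F.uu (b a) g)
    have h5 : (∑ a ∈ J, c a * F.uu (b a) g) ^ 2 ≤
        (Real.sqrt (∑ a ∈ J, (c a) ^ 2) * ‖g‖) ^ 2 := by
      rw [mul_pow, Real.sq_sqrt hc0]
      exact h4.trans (mul_le_mul_of_nonneg_left (h1 g) hc0)
    exact abs_le_of_sq_le_sq h5 (by positivity)
  calc ‖∑ a ∈ J, c a • F.uu (b a)‖ ^ 2 ≤ (Real.sqrt (∑ a ∈ J, (c a) ^ 2)) ^ 2 :=
        pow_le_pow_left₀ (norm_nonneg _) h2 2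
    _ = ∑ a ∈ J, (c a) ^ 2 := Real.sq_sqrt hc0

end Pool.Agent.H191W
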