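import Pool.Agent.H191R4.WG.Stubs

set_option autoImplicit false
set_option maxSynthPendingDepth 3

open scoped ENNReal Topology
open Filter

namespace Pool.Agent.H191W

open Forest

theorem D3.brL_e (hA5 : A5) (hB1 : B1) (hL5 : L5) (T : Type) (F : Forest T) (b : ℕ → T)
    (hb : F.IsRBr b) (s : T) :
    (s ∈ Set.range b → F.brL b (F.e s) = 1) ∧ (s ∉ Set.range b → F.brL b (F.e s) = 0) := by
  classical
  have hB := hB1 T F b hb.2 (F.e s)
  have hc : ∀ t, F.coord (F.e s) t = if t = s then 1 else 0 := by
    intro t
    rw [(hA5 T F s).1 t]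
  simp only [hc] at hB
  have hinj : Function.Injective b := (hL5 T F b hb.2).2.2.2.1
  constructor
  · rintro ⟨j, rfl⟩
    refine tendsto_nhds_unique hB ?_
    refine tendsto_const_nhds.congr' ?_
    filter_upwards [eventually_gt_atTop j] with n hn
    symm
    rw [Finset.sum_eq_single j]
    · simp
    · intro i _ hij
      rw [if_neg]
      intro h
      exact hij (hinj h)
    · intro h
      exact absurd (Finset.mem_range.2 hn) h
  · intro hs
    refine tendsto_nhds_unique hB ?_
    refine tendsto_const_nhds.congr ?_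
    intro n
    symm
    refine Finset.sum_eq_zero fun i _ => ?_
    rw [if_neg]
    intro h
    exact hs ⟨i, h⟩

theorem t_D3 (hA5 : A5) (hB1 : B1) (hD1 : D1) (hD4 : D4) (hL5 : L5) : D3 := by
  classical
  intro T F b hb
  have hinj : Function.Injective b := (hL5 T F b hb.2).2.2.2.1
  constructor
  · intro t
    refine tendsto_nhds_unique (hD1 T F b (F.cf t)) ?_
    refine tendsto_const_nhds.congr' ?_
    have h1 : ∀ᶠ i in (cofinite : Filter ℕ), b i ≠ t := by
      have h2 : {i : ℕ | b i = t}.Finite := by
        apply Set.Subsingleton.finite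
        intro i hi j hj
        exact hinj (hi.trans hj.symm)
      have h3 := h2.compl_mem_cofinite
      filter_upwards [h3] with i hi
      exact hi
    have h4 : ∀ᶠ i in (hyperfilter ℕ : Filter ℕ), b i ≠ t := hyperfilter_le_cofinite h1
    filter_upwards [h4] with i hi
    rw [cf_apply, (hA5 T F (b i)).1 t, if_neg (fun h => hi h.symm)]
  · intro b' hb'
    by_cases hbb : b = b'
    · subst hbb
      rw [if_pos rfl]
      refine tendsto_nhds_unique (hD1 T F b (F.brL b)) ?_
      refine tendsto_const_nhds.congr ?_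
      intro i
      exact ((D3.brL_e hA5 hB1 hL5 T F b hb (b i)).1 ⟨i, rfl⟩).symm
    · rw [if_neg hbb]
      refine tendsto_nhds_unique (hD1 T F b (F.brL b')) ?_
      refine tendsto_const_nhds.congr' ?_
      obtain ⟨n, -, hn⟩ := hD4 T F b b' hb hb' hbb
      have h1 : ∀ᶠ i in (hyperfilter ℕ : Filter ℕ), n ≤ i :=
        Nat.hyperfilter_le_atTop (eventually_ge_atTop n)
      filter_upwards [h1] with i hi
      refine ((D3.brL_e hA5 hB1 hL5 T F b' hb' (b i)).2 ?_).symm
      rintro ⟨j, hj⟩
      exact hn i j hi hj.symm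

end Pool.Agent.H191W
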