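import Pool.Agent.H191R4.WG.Stubs

set_option autoImplicit false
set_option maxSynthPendingDepth 3

namespace Pool.Agent.H191W

theorem t_D4 (hL1 : L1) (hL5 : L5) : D4 := by
  intro T F b b' hb hb' hne
  obtain ⟨n, hn⟩ : ∃ n, b n ≠ b' n := by
    by_contra hcon
    push Not at hcon
    exact hne (funext hcon)
  obtain ⟨-, hanc, -, -, hroot⟩ := hL5 T F b hb.2
  obtain ⟨-, hanc', -, -, hroot'⟩ := hL5 T F b' hb'.2
  have hlev := (hroot hb).1
  have hlev' := (hroot' hb').1
  have key : ∀ i, n ≤ i → b i ≠ b' i := by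
    intro i hi h
    have h1 := hanc n i hi
    have h2 := hanc' n i hi
    rw [h, h2] at h1
    exact hn (Option.some.inj h1).symm
  refine ⟨n, ?_, ?_⟩
  · rintro i hi ⟨k, hk⟩
    have h1 := hL1 T F _ _ _ hk
    rw [hlev, hlev'] at h1
    have h2 : k = 0 := by omega
    subst h2
    have h3 : some (b' i) = some (b i) := hk
    exact key i hi (Option.some.inj h3).symm
  · intro i j hi h
    have h1 : F.lev (b i) = F.lev (b' j) := by rw [h]
    rw [hlev, hlev'] at h1
    subst h1
    exact key i hi h

end Pool.Agent.H191W
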