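import Pool.Agent.H191R4.WG.Stubs

set_option autoImplicit false
set_option maxSynthPendingDepth 3

open scoped ENNReal Topology
open Filter

namespace Pool.Agent.H191W

open Forest

theorem E1_pigeon {T : Type} (S : Set T) (hS : S.Finite) (c : ℕ → T) (hc : ∀ n, c n ∈ S) :
    ∃ a ∈ S, ∀ m, ∃ n, m ≤ n ∧ c n = a := by
  by_contra hcon
  push Not at hcon
  have h1 : ∀ a : T, ∃ m, a ∈ S → ∀ n, m ≤ n → c n ≠ a := by
    intro a
    by_cases ha : a ∈ S
    · obtain ⟨m, hm⟩ := hcon a ha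
      exact ⟨m, fun _ => hm⟩
    · exact ⟨0, fun h => absurd h ha⟩
  choose M hM using h1
  obtain ⟨B, hB⟩ : ∃ B, ∀ a ∈ S, M a ≤ B := by
    obtain ⟨B, hB⟩ := (hS.image M).bddAbove
    exact ⟨B, fun a ha => hB ⟨a, ha, rfl⟩⟩
  exact hM (c B) (hc B) B (hB _ (hc B)) rfl

theorem t_E1 (hC3 : C3) (hC6 : C6) (hL1 : L1) (hL2 : L2) (hL3 : L3) (hL4 : L4) : E1 := by
  intro T F g ε hε hall
  obtain ⟨l2a, l2b, l2c, l2d⟩ := hL2 T F
  obtain ⟨l4a, l4b, l4c, l4d, l4e, l4f⟩ := hL4 T F
  have hlev : ∀ a t, F.le a t → F.lev a ≤ F.lev t := by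
    rintro a t ⟨i, hi⟩
    have := hL1 T F t a i hi
    omega
  have hbig : ∀ a t, F.le a t → Big T F g ε t → Big T F g ε a := by
    intro a t hat ht n
    refine (ht n).trans ?_
    refine (hC6 T F _ _ (l4c _ _ (l4a t) (l4b n)) (l4c _ _ (l4a a) (l4b n)) ?_ g).1
    intro s hs
    exact ⟨l2b _ _ _ hat hs.1, hs.2⟩
  have hfin : ∀ n, {t | F.lev t = n ∧ Big T F g ε t}.Finite := by
    intro n
    by_contra hinf
    obtain ⟨N, hN⟩ := exists_nat_gt (‖g‖ ^ 2 / ε ^ 2)
    obtain ⟨J, hJ, hJc⟩ := Set.Infinite.exists_subset_card_eq hinf N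
    have h1 := hC3 T F T J (fun t => F.cone t ∩ F.tail 0)
      (fun a _ => l4c _ _ (l4a a) (l4b 0)) (by
        intro a ha c hc hac
        have ha' := (hJ ha).1
        have hc' := (hJ hc).1
        have hd := l4d a c (by
          rintro ⟨i, hi⟩
          have := hL1 T F c a i hi
          have h0 : i = 0 := by omega
          subst h0
          have h2 : some c = some a := hi
          exact hac (Option.some.inj h2).symm) (by
          rintro ⟨i, hi⟩
          have := hL1 T F a c i hi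
          have h0 : i = 0 := by omega
          subst h0
          have h2 : some a = some c := hi
          exact hac (Option.some.inj h2))
        exact hd.mono Set.inter_subset_left Set.inter_subset_left) g
    have h2 : ∑ _a ∈ J, ε ^ 2 ≤ ∑ a ∈ J, ‖g.comp (F.res (F.cone a ∩ F.tail 0))‖ ^ 2 := by
      apply Finset.sum_le_sum
      intro a ha
      exact pow_le_pow_left₀ hε.le ((hJ ha).2 0) 2
    rw [Finset.sum_const, hJc, nsmul_eq_mul] at h2
    rw [div_lt_iff₀ (by positivity)] at hN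
    linarith
  -- infinitely many descendants
  let Gd : T → Prop := fun t => Big T F g ε t ∧ ∀ m, ∃ t', m ≤ F.lev t' ∧ Big T F g ε t' ∧ F.le t t'
  have hroot : ∃ a, Gd a ∧ F.lev a = 0 := by
    choose t ht1 ht2 using hall
    choose c hc1 hc2 using fun n => hL3 T F (t n) 0 (Nat.zero_le _)
    obtain ⟨a, ha, hinf⟩ := E1_pigeon {t | F.lev t = 0 ∧ Big T F g ε t} (hfin 0) c
      (fun n => ⟨hc1 n, hbig _ _ (hc2 n) (ht2 n)⟩)
    refine ⟨a, ⟨ha.2, ?_⟩, ha.1⟩
    intro m
    obtain ⟨n, hn, hna⟩ := hinf m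
    exact ⟨t n, by rw [ht1]; exact hn, ht2 n, by rw [← hna]; exact hc2 n⟩
  have hstep : ∀ t, Gd t → ∃ c, Gd c ∧ F.par c = some t := by
    rintro t ⟨hbt, hinf⟩
    choose t' h1 h2 h3 using fun m => hinf (max m (F.lev t + 1))
    choose c hc1 hc2 using fun m => hL3 T F (t' m) (F.lev t + 1) ((le_max_right _ _).trans (h1 m))
    obtain ⟨a, ha, hinf'⟩ := E1_pigeon {s | F.lev s = F.lev t + 1 ∧ Big T F g ε s}
      (hfin (F.lev t + 1)) c (fun n => ⟨hc1 n, hbig _ _ (hc2 n) (h2 n)⟩)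
    refine ⟨a, ⟨ha.2, ?_⟩, ?_⟩
    · intro m
      obtain ⟨n, hn, hna⟩ := hinf' m
      exact ⟨t' n, hn.trans ((le_max_left _ _).trans (h1 n)), h2 n, by rw [← hna]; exact hc2 n⟩
    · obtain ⟨n, -, hna⟩ := hinf' 0
      have hat : F.le a (t' n) := by rw [← hna]; exact hc2 n
      rcases l2d _ _ _ (h3 n) hat with h | h
      · obtain ⟨i, hi⟩ := h
        have hl := hL1 T F a t i hi
        have h4 := ha.1
        have h1' : i = 1 := by omega
        subst h1'
        exact hi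
      · have := hlev _ _ h
        have h4 := ha.1
        omega
  obtain ⟨a, ha, ha0⟩ := hroot
  choose nx hnx1 hnx2 using hstep
  let b : ℕ → {t // Gd t} := fun n =>
    Nat.rec (⟨a, ha⟩ : {t // Gd t}) (fun _ t => ⟨nx t.1 t.2, hnx1 t.1 t.2⟩) n
  refine ⟨fun n => (b n).1, ⟨?_, ?_⟩, fun i => (b i).2.1⟩
  · show F.par a = none
    cases h : F.par a with
    | none => rfl
    | some s =>
      have := F.lev_par a s h
      omega
  · intro i
    exact hnx2 (b i).1 (b i).2

end Pool.Agent.H191W
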