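import Pool.Agent.H191R4.WG.Stubs

set_option autoImplicit false
set_option maxSynthPendingDepth 3

open scoped ENNReal Topology
open Filter

namespace Pool.Agent.H191W

theorem t_E10 (hD2 : D2) (hD4 : D4) (hE9 : E9) : E10 := by
  classical
  intro T F g
  set S := Submodule.span ℝ (Set.range F.cf ∪ F.brL '' {b | F.IsRBr b}) with hS
  let x : {b : ℕ → T // F.IsRBr b} → ℝ := fun b => F.uu b.1 g
  have hfin : ∀ J : Finset {b : ℕ → T // F.IsRBr b}, ∑ b ∈ J, (x b) ^ 2 ≤ ‖g‖ ^ 2 := by
    intro J
    exact (hD2 T F {b : ℕ → T // F.IsRBr b} J (fun b => b.1) (by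
      intro a _ c _ hac
      obtain ⟨n, hn, -⟩ := hD4 T F a.1 c.1 a.2 c.2 (fun h => hac (Subtype.ext h))
      exact eventually_atTop.2 ⟨n, hn⟩)).1 g
  have hsum : Summable (fun b => (x b) ^ 2) :=
    summable_of_sum_le (fun b => sq_nonneg _) hfin
  choose s hs using fun j : ℕ => (summable_iff_vanishing_norm.1 hsum) ((1 / 16) ^ j) (by positivity)
  let J : ℕ → Finset {b : ℕ → T // F.IsRBr b} := fun n => (Finset.range n).biUnion s
  have hJmono : ∀ n, J n ⊆ J (n + 1) := fun n =>
    Finset.biUnion_subset_biUnion_of_subset_left _ (Finset.range_mono (Nat.le_succ n))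
  have hJmono' : Monotone J := monotone_nat_of_le_succ hJmono
  have hsJ : ∀ n, s n ⊆ J (n + 1) := fun n =>
    Finset.subset_biUnion_of_mem s (Finset.self_mem_range_succ n)
  let K : ℕ → Finset (ℕ → T) := fun n => (J (n + 1) \ J n).map (Function.Embedding.subtype _)
  have hK : ∀ n, ∀ b ∈ K n, F.IsRBr b := by
    intro n b hb
    simp only [K, Finset.mem_map, Function.Embedding.coe_subtype] at hb
    obtain ⟨a, -, rfl⟩ := hb
    exact a.2
  choose h hmem hnorm hval hzero using fun n => hE9 T F (K n) (hK n) (fun b => F.uu b g)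
  have hn2 : ∀ m, ‖h (m + 1)‖ ≤ (1 / 4 : ℝ) ^ m := by
    intro m
    have h1 := hnorm (m + 1)
    have h2 : ∑ b ∈ K (m + 1), (F.uu b g) ^ 2 = ∑ b ∈ J (m + 2) \ J (m + 1), (x b) ^ 2 := by
      simp only [K, Finset.sum_map, Function.Embedding.coe_subtype, x]
    rw [h2] at h1
    have h3 : Disjoint (J (m + 2) \ J (m + 1)) (s m) :=
      (Finset.disjoint_sdiff.symm).mono_right (hsJ m)
    have h4 := hs m _ h3
    have h5 : ‖h (m + 1)‖ ^ 2 ≤ ((1 / 4 : ℝ) ^ m) ^ 2 := by
      calc ‖h (m + 1)‖ ^ 2 ≤ _ := h1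
        _ ≤ _ := Real.le_norm_self _
        _ ≤ (1 / 16 : ℝ) ^ m := h4.le
        _ = _ := by rw [← pow_mul, mul_comm m 2, pow_mul]; norm_num
    exact (pow_le_pow_iff_left₀ (norm_nonneg _) (by positivity) two_ne_zero).1 h5
  have hsn : Summable (fun n => ‖h n‖) := by
    rw [← summable_nat_add_iff 1]
    exact Summable.of_nonneg_of_le (fun _ => norm_nonneg _) hn2
      (summable_geometric_of_lt_one (by norm_num) (by norm_num))
  have hsh : Summable h := hsn.of_norm
  have hT := hsh.hasSum.tendsto_sum_nat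
  refine ⟨∑' n, h n, ?_, ?_⟩
  · exact S.isClosed_topologicalClosure.mem_of_tendsto hT
      (Eventually.of_forall fun n => S.le_topologicalClosure (S.sum_mem fun i _ => hmem i))
  · intro b hb
    have hT2 : Tendsto (fun n => F.uu b (∑ i ∈ Finset.range n, h i)) atTop
        (𝓝 (F.uu b (∑' n, h n))) := ((F.uu b).continuous.tendsto _).comp hT
    have hpart : ∀ n, F.uu b (∑ i ∈ Finset.range n, h i) =
        if (⟨b, hb⟩ : {b : ℕ → T // F.IsRBr b}) ∈ J n then F.uu b g else 0 := by
      intro n
      induction n with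
      | zero => simp [J]
      | succ n ih =>
        rw [Finset.sum_range_succ, map_add, ih]
        by_cases h1 : (⟨b, hb⟩ : {b : ℕ → T // F.IsRBr b}) ∈ J n
        · have h2 : b ∉ K n := by
            intro hbK
            simp only [K, Finset.mem_map, Function.Embedding.coe_subtype] at hbK
            obtain ⟨a, ha, hab⟩ := hbK
            have : a = ⟨b, hb⟩ := Subtype.ext hab
            rw [this] at ha
            exact (Finset.mem_sdiff.1 ha).2 h1
          rw [if_pos h1, if_pos (hJmono n h1), hzero n b hb h2, add_zero]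
        · rw [if_neg h1, zero_add]
          by_cases h3 : (⟨b, hb⟩ : {b : ℕ → T // F.IsRBr b}) ∈ J (n + 1)
          · rw [if_pos h3]
            refine hval n b ?_
            simp only [K, Finset.mem_map, Function.Embedding.coe_subtype]
            exact ⟨⟨b, hb⟩, Finset.mem_sdiff.2 ⟨h3, h1⟩, rfl⟩
          · rw [if_neg h3]
            refine hzero n b hb ?_
            intro hbK
            simp only [K, Finset.mem_map, Function.Embedding.coe_subtype] at hbK
            obtain ⟨a, ha, hab⟩ := hbK
            have : a = ⟨b, hb⟩ := Subtype.ext hab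
            rw [this] at ha
            exact h3 (Finset.mem_sdiff.1 ha).1
    by_cases hex : ∃ n, (⟨b, hb⟩ : {b : ℕ → T // F.IsRBr b}) ∈ J n
    · obtain ⟨n0, hn0⟩ := hex
      refine tendsto_nhds_unique hT2 ?_
      refine tendsto_const_nhds.congr' ?_
      filter_upwards [eventually_ge_atTop n0] with n hn
      rw [hpart n, if_pos (hJmono' hn hn0)]
    · push Not at hex
      have h0 : F.uu b (∑' n, h n) = 0 := by
        refine tendsto_nhds_unique hT2 ?_
        refine tendsto_const_nhds.congr fun n => ?_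
        rw [hpart n, if_neg (hex n)]
      have hx0 : x ⟨b, hb⟩ = 0 := by
        have h1 : ∀ j : ℕ, (x ⟨b, hb⟩) ^ 2 ≤ (1 / 16 : ℝ) ^ j := by
          intro j
          have h2 : Disjoint ({⟨b, hb⟩} : Finset {b : ℕ → T // F.IsRBr b}) (s j) := by
            rw [Finset.disjoint_singleton_left]
            exact fun h => hex (j + 1) (hsJ j h)
          have h3 := hs j _ h2
          rw [Finset.sum_singleton] at h3
          exact (Real.le_norm_self _).trans h3.le
        have h2 : (x ⟨b, hb⟩) ^ 2 ≤ 0 :=
          ge_of_tendsto (tendsto_pow_atTop_nhds_zero_of_lt_one (by norm_num) (by norm_num : (1 / 16 : ℝ) < 1))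
            (Eventually.of_forall h1)
        exact pow_eq_zero_iff two_ne_zero |>.1 (le_antisymm h2 (sq_nonneg _))
      rw [h0]
      exact hx0.symm

end Pool.Agent.H191W
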