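import Pool.Agent.H191R4.WG.Stubs

set_option autoImplicit false
set_option maxSynthPendingDepth 3

open scoped ENNReal Topology
open Filter

namespace Pool.Agent.H191W

open Forest

theorem t_E11 (hE8 : E8) (hE10 : E10) : E11 := by
  intro T F
  rw [Submodule.eq_top_iff']
  intro g
  obtain ⟨h, hh, hb⟩ := hE10 T F g
  have h1 := hE8 T F (g - h) (fun b hbr => by rw [map_sub, hb b hbr, sub_self])
  have h2 : (Submodule.span ℝ (Set.range F.cf)).topologicalClosure ≤
      (Submodule.span ℝ (Set.range F.cf ∪ F.brL '' {b | F.IsRBr b})).topologicalClosure :=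
    Submodule.topologicalClosure_mono (Submodule.span_mono Set.subset_union_left)
  have h3 := Submodule.add_mem _ (h2 h1) hh
  rwa [sub_add_cancel] at h3

end Pool.Agent.H191W
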