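import Pool.Agent.H191R4.WG.Stubs

set_option autoImplicit false
set_option maxSynthPendingDepth 3

open scoped ENNReal Topology
open Filter

namespace Pool.Agent.H191W

open Forest

theorem E2_lev_eq (hL1 : L1) (T : Type) (F : Forest T) (a b : T) (h : F.le a b)
    (hl : F.lev a = F.lev b) : a = b := by
  obtain ⟨i, hi⟩ := h
  have h1 := hL1 T F b a i hi
  have h2 : i = 0 := by omega
  subst h2
  simpa [Forest.anc] using hi.symm

theorem E2_disj (hL1 : L1) (hL4 : L4) (T : Type) (F : Forest T) (a b : T) (n : ℕ)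
    (ha : F.lev a = n) (hb : F.lev b = n) (hab : a ≠ b) : Disjoint (F.cone a) (F.cone b) := by
  obtain ⟨-, -, -, h4, -, -⟩ := hL4 T F
  refine h4 a b (fun h => hab (E2_lev_eq hL1 T F a b h (ha.trans hb.symm)))
    (fun h => hab (E2_lev_eq hL1 T F b a h (hb.trans ha.symm)).symm)

theorem E2_ssum_sum {ι : Type} (T : Type) (F : Forest T) (J : Finset ι) (w : ι → F.W)
    (p : T × ℕ) : F.ssum (F.coord (∑ a ∈ J, w a)) p = ∑ a ∈ J, F.ssum (F.coord (w a)) p := by
  classical
  induction J using Finset.induction_on with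
  | empty =>
    simp only [Finset.sum_empty]
    exact F.ssum_zero p
  | insert a s ha ih =>
    rw [Finset.sum_insert ha, Finset.sum_insert ha, ← ih]
    exact F.ssum_add (F.coord (w a)) (F.coord (∑ a ∈ s, w a)) p

theorem E2_ssum_smul (T : Type) (F : Forest T) (c : ℝ) (w : F.W)
    (p : T × ℕ) : F.ssum (F.coord (c • w)) p = c * F.ssum (F.coord w) p :=
  F.ssum_smul c (F.coord w) p

theorem E2_ssum_le (hA2 : A2) (T : Type) (F : Forest T) (w : F.W) (p : T × ℕ) :
    |F.ssum (F.coord w) p| ≤ ‖w‖ := by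
  have h := hA2 T F w {p} (by unfold Forest.Disj; simp)
  rw [Finset.sum_singleton] at h
  exact abs_le_of_sq_le_sq h (norm_nonneg _)

theorem E2_ssum_zero (hL4 : L4) (T : Type) (F : Forest T) (A : Set T) (hA : F.IsUp A) (w : F.W)
    (hw : F.SuppIn w A) (p : T × ℕ) (hp : p.1 ∉ A) : F.ssum (F.coord w) p = 0 := by
  obtain ⟨-, -, -, -, -, h6⟩ := hL4 T F
  unfold Forest.ssum
  refine Finset.sum_eq_zero fun i hi => ?_
  cases hs : F.anc p.1 i with
  | none => rfl
  | some s =>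
    simp only [Option.elim_some]
    by_contra hne
    refine hp (h6 A hA p s ⟨i, by simpa [Nat.lt_succ_iff] using hi, hs⟩ ?_)
    by_contra hsA
    exact hne (hw s hsA)

theorem t_E2 (hA2 : A2) (hC1 : C1) (hC2 : C2) (hC3 : C3) (hC5 : C5) (hC6 : C6) (hC7 : C7)
    (hL1 : L1) (hL3 : L3) (hL4 : L4) : E2 := by
  classical
  intro T F g q ε n hq hε hbig hnb N
  obtain ⟨h41, h42, h43, h44, h45, h46⟩ := hL4 T F
  -- finitely many nodes with large norm
  have hfin : {t | F.lev t = n ∧ ε ≤ ‖g.comp (F.res (F.cone t))‖}.Finite := by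
    by_contra hinf
    obtain ⟨m, hm⟩ := exists_nat_gt (‖g‖ ^ 2 / ε ^ 2)
    obtain ⟨J, hJ1, hJ2⟩ := Set.Infinite.exists_subset_card_eq hinf m
    have h1 := hC3 T F T J F.cone (fun a _ => h41 a) (fun a ha c hc hac =>
      E2_disj hL1 hL4 T F a c n (hJ1 ha).1 (hJ1 hc).1 hac) g
    have h2 : ∑ a ∈ J, ε ^ 2 ≤ ∑ a ∈ J, ‖g.comp (F.res (F.cone a))‖ ^ 2 := by
      refine Finset.sum_le_sum fun a ha => ?_
      exact pow_le_pow_left₀ hε.le (hJ1 ha).2 2
    rw [Finset.sum_const, hJ2, nsmul_eq_mul] at h2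
    rw [div_lt_iff₀ (by positivity)] at hm
    linarith
  have hnb' : ∀ t, F.lev t = n → ∃ k, ‖g.comp (F.res (F.cone t ∩ F.tail k))‖ < ε := by
    intro t ht
    have := hnb t ht
    unfold Big at this
    push Not at this
    exact this
  choose! k hk using hnb'
  set N1 : ℕ := max N (max n (hfin.toFinset.sup k)) with hN1
  have hNN1 : N ≤ N1 := le_max_left _ _
  have hnN1 : n ≤ N1 := (le_max_left _ _).trans (le_max_right _ _)
  have hup : ∀ t, F.IsUp (F.cone t ∩ F.tail N1) := fun t => h43 _ _ (h41 t) (h42 N1)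
  set d : T → ℝ := fun t => ‖g.comp (F.res (F.cone t ∩ F.tail N1))‖ with hd
  have hd0 : ∀ t, 0 ≤ d t := fun t => norm_nonneg _
  have hdε : ∀ t, F.lev t = n → d t < ε := by
    intro t ht
    by_cases hB : ε ≤ ‖g.comp (F.res (F.cone t))‖
    · have h1 : k t ≤ N1 :=
        (Finset.le_sup (f := k) (hfin.mem_toFinset.2 ⟨ht, hB⟩)).trans
          ((le_max_right _ _).trans (le_max_right _ _))
      refine lt_of_le_of_lt ?_ (hk t ht)
      refine (hC6 T F (F.cone t ∩ F.tail N1) (F.cone t ∩ F.tail (k t)) (hup t)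
        (h43 _ _ (h41 t) (h42 _)) ?_ g).1
      exact Set.inter_subset_inter_right _ (fun s (hs : N1 ≤ F.lev s) => h1.trans hs)
    · push Not at hB
      refine lt_of_le_of_lt ?_ hB
      exact (hC6 T F (F.cone t ∩ F.tail N1) (F.cone t) (hup t) (h41 t)
        Set.inter_subset_left g).1
  -- norming vector
  obtain ⟨x, hxF, hxS, hx1, hxg⟩ := hC7 T F (F.tail N1) (h42 N1) g (q / 2)
    (lt_of_lt_of_le (by linarith) (hbig N1))
  have hex : ∀ s, F.coord x s ≠ 0 → ∃ t, F.lev t = n ∧ F.le t s := by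
    intro s hs
    refine hL3 T F s n ?_
    have : s ∈ F.tail N1 := by
      by_contra h
      exact hs (hxS s h)
    exact hnN1.trans this
  choose! a ha1 ha2 using hex
  set J : Finset T := hxF.toFinset.image a with hJ
  have hJlev : ∀ t ∈ J, F.lev t = n := by
    intro t ht
    obtain ⟨s, hs, rfl⟩ := Finset.mem_image.1 ht
    exact ha1 s (hxF.mem_toFinset.1 hs)
  have hcd : ∀ a ∈ J, ∀ c ∈ J, a ≠ c → Disjoint (F.cone a) (F.cone c) :=
    fun a ha c hc hac => E2_disj hL1 hL4 T F a c n (hJlev a ha) (hJlev c hc) hac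
  have hcd' : ∀ a ∈ J, ∀ c ∈ J, a ≠ c →
      Disjoint (F.cone a ∩ F.tail N1) (F.cone c ∩ F.tail N1) :=
    fun a ha c hc hac => (hcd a ha c hc hac).mono Set.inter_subset_left Set.inter_subset_left
  have hxsum : x = ∑ t ∈ J, F.res (F.cone t) x := by
    refine F.coord_ext fun s => ?_
    rw [← F.cf_apply s (∑ t ∈ J, F.res (F.cone t) x), map_sum]
    simp only [Forest.cf_apply]
    by_cases hs : F.coord x s = 0
    · rw [hs]
      symm
      refine Finset.sum_eq_zero fun t _ => ?_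
      rw [(hC1 T F (F.cone t) (h41 t)).1 x s, hs]
      simp
    · have h1 : a s ∈ J := Finset.mem_image_of_mem _ (hxF.mem_toFinset.2 hs)
      rw [Finset.sum_eq_single (a s)]
      · rw [(hC1 T F (F.cone (a s)) (h41 _)).1 x s, if_pos (show s ∈ F.cone (a s) from ha2 s hs)]
      · intro t ht hne
        rw [(hC1 T F (F.cone t) (h41 _)).1 x s, if_neg]
        intro hst
        exact Set.disjoint_left.1 (hcd t ht (a s) h1 hne) hst (ha2 s hs)
      · intro h
        exact absurd h1 h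
  have hres : ∀ t, F.res (F.cone t) x =
      F.res (F.cone t ∩ F.tail N1) (F.res (F.cone t) x) := by
    intro t
    refine F.coord_ext fun s => ?_
    rw [(hC1 T F (F.cone t ∩ F.tail N1) (hup t)).1 _ s, (hC1 T F (F.cone t) (h41 t)).1 x s]
    by_cases h1 : s ∈ F.cone t
    · by_cases h2 : s ∈ F.tail N1
      · rw [if_pos h1, if_pos ⟨h1, h2⟩]
      · rw [if_pos h1, if_neg (fun h => h2 h.2)]
        exact hxS s h2
    · rw [if_neg h1, if_neg (fun h => h1 h.1)]
  have hgx : g x ≤ ∑ t ∈ J, d t * ‖F.res (F.cone t) x‖ := by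
    conv_lhs => rw [hxsum]
    rw [map_sum]
    refine Finset.sum_le_sum fun t _ => ?_
    rw [hres t]
    refine (le_abs_self _).trans ?_
    have := (g.comp (F.res (F.cone t ∩ F.tail N1))).le_opNorm (F.res (F.cone t) x)
    rw [← hres t]
    rw [ContinuousLinearMap.comp_apply, ← hres t, Real.norm_eq_abs] at this
    exact this
  have hsq : (q / 2) ^ 2 ≤ ∑ t ∈ J, d t ^ 2 := by
    have h1 : (∑ t ∈ J, d t * ‖F.res (F.cone t) x‖) ^ 2 ≤
        (∑ t ∈ J, d t ^ 2) * ∑ t ∈ J, ‖F.res (F.cone t) x‖ ^ 2 :=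
      Finset.sum_mul_sq_le_sq_mul_sq _ _ _
    have h2 : ∑ t ∈ J, ‖F.res (F.cone t) x‖ ^ 2 ≤ 1 := by
      refine (hC5 T F T J F.cone (fun a _ => h41 a) hcd x).trans ?_
      exact pow_le_one₀ (norm_nonneg _) hx1
    have h3 : 0 ≤ ∑ t ∈ J, d t ^ 2 := Finset.sum_nonneg fun t _ => sq_nonneg _
    have h4 : (q / 2) ^ 2 ≤ (∑ t ∈ J, d t * ‖F.res (F.cone t) x‖) ^ 2 :=
      pow_le_pow_left₀ (by positivity) (hxg.le.trans hgx) 2
    nlinarith
  -- the blocks
  have hz : ∀ t, ∃ z : F.W, F.FS z ∧ F.SuppIn z (F.cone t ∩ F.tail N1) ∧ ‖z‖ ≤ 1 ∧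
      d t / 2 ≤ g z := by
    intro t
    rcases (hd0 t).eq_or_lt with h0 | h0
    · refine ⟨0, ?_, ?_, by simp, by rw [← h0]; simp⟩
      · unfold Forest.FS
        simp only [F.coord_zero]
        simp
      · intro s _
        exact F.coord_zero s
    · obtain ⟨z, hz1, hz2, hz3, hz4⟩ := hC7 T F (F.cone t ∩ F.tail N1) (hup t) g (d t / 2)
        (by show d t / 2 < d t; linarith)
      exact ⟨z, hz1, hz2, hz3, hz4.le⟩
  choose z hz1 hz2 hz3 hz4 using hz
  have hcoord : ∀ s, F.coord (∑ t ∈ J, d t • z t) s = ∑ t ∈ J, d t * F.coord (z t) s := by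
    intro s
    rw [← F.cf_apply s (∑ t ∈ J, d t • z t), map_sum]
    refine Finset.sum_congr rfl fun t _ => ?_
    rw [map_smul]
    rfl
  refine ⟨∑ t ∈ J, d t • z t, ?_, ?_, ?_, ?_, ?_⟩
  · refine Set.Finite.subset (Set.Finite.biUnion J.finite_toSet (fun t _ => hz1 t)) ?_
    intro s hs
    by_contra hcon
    refine hs ?_
    rw [hcoord]
    refine Finset.sum_eq_zero fun t ht => ?_
    have : F.coord (z t) s = 0 := by
      by_contra h
      exact hcon (Set.mem_biUnion (Finset.mem_coe.2 ht) h)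
    rw [this, mul_zero]
  · intro s hs
    rw [hcoord]
    refine Finset.sum_eq_zero fun t ht => ?_
    have : F.coord (z t) s = 0 := hz2 t s (fun h => hs (hNN1.trans h.2))
    rw [this, mul_zero]
  · have h1 := hC2 T F T J (fun t => F.cone t ∩ F.tail N1) (fun t => d t • z t)
      (fun t _ => hup t) hcd' (fun t _ s hs => by
        rw [F.coord_smul, hz2 t s hs, mul_zero])
    have h2 : ∑ t ∈ J, ‖d t • z t‖ ^ 2 ≤ ∑ t ∈ J, d t ^ 2 := by
      refine Finset.sum_le_sum fun t _ => ?_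
      rw [norm_smul, Real.norm_eq_abs, abs_of_nonneg (hd0 t)]
      refine pow_le_pow_left₀ (mul_nonneg (hd0 t) (norm_nonneg _)) ?_ 2
      exact mul_le_of_le_one_right (hd0 t) (hz3 t)
    have h3 : ∑ t ∈ J, d t ^ 2 ≤ ‖g‖ ^ 2 :=
      hC3 T F T J (fun t => F.cone t ∩ F.tail N1) (fun t _ => hup t) hcd' g
    exact (abs_le_of_sq_le_sq (h1.trans (h2.trans h3)) (norm_nonneg _)).trans'
      (le_abs_self _)
  · rw [map_sum]
    have h1 : ∑ t ∈ J, d t ^ 2 / 2 ≤ ∑ t ∈ J, g (d t • z t) := by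
      refine Finset.sum_le_sum fun t _ => ?_
      rw [map_smul, smul_eq_mul]
      nlinarith [hz4 t, hd0 t]
    rw [← Finset.sum_div] at h1
    refine le_trans ?_ h1
    nlinarith
  · intro p
    rw [E2_ssum_sum]
    simp only [E2_ssum_smul]
    by_cases hp : ∃ t ∈ J, p.1 ∈ F.cone t
    · obtain ⟨t, ht, hpt⟩ := hp
      rw [Finset.sum_eq_single t]
      · rw [abs_mul, abs_of_nonneg (hd0 t)]
        have h1 := E2_ssum_le hA2 T F (z t) p
        have h2 := hdε t (hJlev t ht)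
        nlinarith [hd0 t, hz3 t, abs_nonneg (F.ssum (F.coord (z t)) p)]
      · intro t' ht' hne
        rw [E2_ssum_zero hL4 T F _ (hup t') (z t') (hz2 t') p, mul_zero]
        intro h
        exact Set.disjoint_left.1 (hcd t' ht' t ht hne) h.1 hpt
      · intro h
        exact absurd ht h
    · push Not at hp
      rw [Finset.sum_eq_zero, abs_zero]
      · exact hε.le
      · intro t ht
        rw [E2_ssum_zero hL4 T F _ (hup t) (z t) (hz2 t) p (fun h => hp t ht h.1), mul_zero]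

end Pool.Agent.H191W
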