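import Pool.Agent.H191R4.WG.Stubs

/-! Task E3 (helper368): blocks with small segment sums give a contradiction. -/

set_option autoImplicit false
set_option maxSynthPendingDepth 3

open scoped ENNReal Topology
open Filter

namespace Pool.Agent.H191W

open Forest

theorem E3_fs_add {T : Type} (F : Forest T) {Y y : F.W} (hY : F.FS Y) (hy : F.FS y) :
    F.FS (Y + y) := by
  refine (Set.Finite.union hY hy).subset ?_
  intro t ht
  by_contra hcon
  rw [Set.mem_union, not_or] at hcon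
  obtain ⟨h1, h2⟩ := hcon
  have h1' : F.coord Y t = 0 := by
    by_contra h
    exact h1 h
  have h2' : F.coord y t = 0 := by
    by_contra h
    exact h2 h
  apply ht
  rw [coord_add, h1', h2', add_zero]

theorem t_E3 (hE3a : E3a) : E3 := by
  intro T F g M c hc h
  have key : ∀ m : ℕ, ∃ Y : F.W, F.FS Y ∧ ‖Y‖ ^ 2 ≤ m * (M ^ 2 + 1) ∧ m * c ≤ g Y := by
    intro m
    induction m with
    | zero =>
      refine ⟨0, ?_, ?_, ?_⟩
      · have : {t | F.coord 0 t ≠ 0} = (∅ : Set T) := by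
          ext t
          simp [coord_zero]
        unfold FS
        rw [this]
        exact Set.finite_empty
      · simp
      · rw [ContinuousLinearMap.map_zero g, Nat.cast_zero, zero_mul]
    | succ m ih =>
      obtain ⟨Y, hY, hn, hg⟩ := ih
      obtain ⟨N, hN⟩ : ∃ N : ℕ, ∀ t, F.coord Y t ≠ 0 → F.lev t < N := by
        refine ⟨hY.toFinset.sup F.lev + 1, fun t ht => ?_⟩
        have : t ∈ hY.toFinset := hY.mem_toFinset.2 ht
        exact Nat.lt_succ_of_le (Finset.le_sup this)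
      obtain ⟨D, hD⟩ : ∃ D : ℝ, D = hY.toFinset.card * ‖Y‖ := ⟨_, rfl⟩
      have hD0 : 0 ≤ D := by rw [hD]; positivity
      obtain ⟨y, hy1, hy2, hy3, hy4, hy5⟩ := h (1 / (2 * (D + 1))) (by positivity) N
      have h1 := hE3a T F Y y N (1 / (2 * (D + 1))) hY (by positivity) hN hy2 hy5
      have h2 : 2 * (1 / (2 * (D + 1))) * hY.toFinset.card * ‖Y‖ ≤ 1 := by
        have e : 2 * (1 / (2 * (D + 1))) * hY.toFinset.card * ‖Y‖ = D / (D + 1) := by
          rw [hD]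
          field_simp
        rw [e, div_le_one (by linarith)]
        linarith
      refine ⟨Y + y, E3_fs_add F hY hy1, ?_, ?_⟩
      · have h3 : ‖y‖ ^ 2 ≤ M ^ 2 := pow_le_pow_left₀ (norm_nonneg y) hy3 2
        push_cast
        nlinarith
      · rw [ContinuousLinearMap.map_add g]
        push_cast
        linarith
  obtain ⟨m, hm⟩ := exists_nat_gt (‖g‖ ^ 2 * (M ^ 2 + 1) / c ^ 2)
  obtain ⟨Y, _, hn, hg⟩ := key (m + 1)
  have h1 : g Y ≤ ‖g‖ * ‖Y‖ := (le_abs_self _).trans (g.le_opNorm Y)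
  have h2 : 0 ≤ ((m + 1 : ℕ) : ℝ) * c := by positivity
  have h3 : (((m + 1 : ℕ) : ℝ) * c) ^ 2 ≤ (‖g‖ * ‖Y‖) ^ 2 :=
    pow_le_pow_left₀ h2 (hg.trans h1) 2
  have h4 : (‖g‖ * ‖Y‖) ^ 2 ≤ ‖g‖ ^ 2 * (((m + 1 : ℕ) : ℝ) * (M ^ 2 + 1)) := by
    rw [mul_pow]
    exact mul_le_mul_of_nonneg_left hn (sq_nonneg _)
  have h5 : (0 : ℝ) < ((m + 1 : ℕ) : ℝ) := by positivity
  have h6 : ((m + 1 : ℕ) : ℝ) * c ^ 2 ≤ ‖g‖ ^ 2 * (M ^ 2 + 1) := by
    have h7 : ((m + 1 : ℕ) : ℝ) * (((m + 1 : ℕ) : ℝ) * c ^ 2) ≤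
        ((m + 1 : ℕ) : ℝ) * (‖g‖ ^ 2 * (M ^ 2 + 1)) := by
      calc ((m + 1 : ℕ) : ℝ) * (((m + 1 : ℕ) : ℝ) * c ^ 2) = (((m + 1 : ℕ) : ℝ) * c) ^ 2 := by ring
        _ ≤ ‖g‖ ^ 2 * (((m + 1 : ℕ) : ℝ) * (M ^ 2 + 1)) := h3.trans h4
        _ = ((m + 1 : ℕ) : ℝ) * (‖g‖ ^ 2 * (M ^ 2 + 1)) := by ring
    exact le_of_mul_le_mul_left h7 h5
  rw [div_lt_iff₀ (by positivity)] at hm
  push_cast at h6
  nlinarith [sq_nonneg c]

end Pool.Agent.H191W
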