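import Pool.Agent.H191R4.WG.Stubs

set_option autoImplicit false
set_option maxSynthPendingDepth 3

open scoped ENNReal Topology
open Filter

namespace Pool.Agent.H191W

open Forest

theorem E4_brL_e (hA5 : A5) (hB1 : B1) (hL5 : L5) {T : Type} (F : Forest T) (b : ℕ → T)
    (hb : F.IsRBr b) (r : ℕ) : F.brL b (F.e (b r)) = 1 := by
  classical
  have h1 := hB1 T F b hb.2 (F.e (b r))
  have hinj := (hL5 T F b hb.2).2.2.2.1
  have h2 : Tendsto (fun n => ∑ i ∈ Finset.range n, F.coord (F.e (b r)) (b i)) atTop (𝓝 1) := by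
    refine tendsto_const_nhds.congr' ?_
    filter_upwards [eventually_gt_atTop r] with n hn
    have : ∀ i ∈ Finset.range n, F.coord (F.e (b r)) (b i) = if i = r then (1 : ℝ) else 0 := by
      intro i _
      rw [(hA5 T F (b r)).1 (b i)]
      by_cases h : i = r
      · subst h; simp
      · rw [if_neg (fun hh => h (hinj hh)), if_neg h]
    rw [Finset.sum_congr rfl this, Finset.sum_ite_eq' (Finset.range n) r]
    simp [hn]
  exact tendsto_nhds_unique h1 h2

theorem E4_abs_brL (hB2 : B2) {T : Type} (F : Forest T) (b : ℕ → T) (hb : F.IsBr b) (w : F.W) :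
    |F.brL b w| ≤ ‖w‖ := by
  have := hB2 T F Unit {()} (fun _ => b) (fun _ _ => hb) (fun a _ c _ h => absurd rfl h) w
  rw [Finset.sum_singleton] at this
  exact abs_le_of_sq_le_sq this (norm_nonneg _)

theorem t_E4 (hA5 : A5) (hB1 : B1) (hB2 : B2) (hC1 : C1) (hC7 : C7) (hD1 : D1) (hE4a : E4a)
    (hL4 : L4) (hL5 : L5) : E4 := by
  classical
  intro T F g b ε hε hb hbig huu N
  obtain ⟨hup, hsm⟩ := hE4a T F g b hb
  obtain ⟨n, hnN, hn⟩ := hsm (ε / 4) (by positivity) N
  set O : Set T := F.cone (b n) \ Set.range b with hO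
  have hA : F.IsUp (F.cone (b n) ∩ F.tail N) :=
    (hL4 T F).2.2.1 _ _ ((hL4 T F).1 _) ((hL4 T F).2.1 _)
  obtain ⟨x, hxF, hxS, hx1, hxg⟩ := hC7 T F _ hA g (ε / 2) (by
    have := hbig n N
    linarith)
  obtain ⟨hres, hresn⟩ := hC1 T F O (hup n)
  set x1 : F.W := x - F.res O x with hx1d
  have hc1 : ∀ t, F.coord x1 t = if t ∈ O then 0 else F.coord x t := by
    intro t
    rw [hx1d, F.coord_sub, hres x t]
    by_cases h : t ∈ O <;> simp [h]
  have hx1supp : ∀ t, t ∉ Set.range b ∩ F.tail N → F.coord x1 t = 0 := by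
    intro t ht
    rw [hc1]
    by_cases h : t ∈ O
    · simp [h]
    · rw [if_neg h]
      refine hxS t (fun hmem => ht ⟨?_, hmem.2⟩)
      by_contra hr
      exact h ⟨hmem.1, hr⟩
  have hx1n : ‖x1‖ ≤ 2 := by
    have h1 := norm_sub_le x (F.res O x)
    have h2 := hresn x
    rw [hx1d]; linarith
  have hgx1 : ε / 4 ≤ g x1 := by
    have h1 : g (F.res O x) ≤ ε / 4 := by
      have h2 := (g.comp (F.res O)).le_opNorm x
      have h3 : ‖g.comp (F.res O)‖ * ‖x‖ ≤ ε / 4 * 1 :=
        mul_le_mul hn hx1 (norm_nonneg _) (by positivity)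
      have h4 : g (F.res O x) ≤ ‖(g.comp (F.res O)) x‖ := by
        rw [ContinuousLinearMap.comp_apply, Real.norm_eq_abs]
        exact le_abs_self _
      linarith
    rw [hx1d, map_sub]
    linarith
  set s : ℝ := F.brL b x1 with hs
  have hsn : |s| ≤ 2 := le_trans (E4_abs_brL hB2 F b hb.2 x1) hx1n
  have hD := hD1 T F b g
  rw [huu] at hD
  have hev1 : ∀ᶠ i in (hyperfilter ℕ : Filter ℕ), |g (F.e (b i))| < ε / 16 := by
    have := hD.abs
    rw [abs_zero] at this
    exact this.eventually (gt_mem_nhds (by positivity))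
  have hev2 : ∀ᶠ i in (hyperfilter ℕ : Filter ℕ), N ≤ i := by
    have h1 : ∀ᶠ i in (cofinite : Filter ℕ), N ≤ i := by
      rw [Nat.cofinite_eq_atTop]
      exact eventually_ge_atTop N
    exact hyperfilter_le_cofinite h1
  obtain ⟨r, hr1, hr2⟩ := (hev1.and hev2).exists
  have hlev : F.lev (b r) = r := ((hL5 T F b hb.2).2.2.2.2 hb).1 r
  set y : F.W := x1 - s • F.e (b r) with hyd
  have hcy : ∀ t, F.coord y t = F.coord x1 t - s * (if t = b r then 1 else 0) := by
    intro t
    rw [hyd, F.coord_sub, F.coord_smul, (hA5 T F (b r)).1 t]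
  refine ⟨y, ?_, ?_, ?_, ?_, ?_⟩
  · refine Set.Finite.subset (hxF.union (Set.finite_singleton (b r))) ?_
    intro t ht
    by_cases h : t = b r
    · right; exact h
    · left
      have h1 : F.coord y t ≠ 0 := ht
      rw [hcy, if_neg h, mul_zero, sub_zero, hc1] at h1
      by_cases h2 : t ∈ O
      · simp [h2] at h1
      · rw [if_neg h2] at h1
        exact h1
  · intro t ht
    have h : t ≠ b r := by
      intro h
      apply ht
      rw [h]
      refine ⟨⟨r, rfl⟩, ?_⟩
      show N ≤ F.lev (b r)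
      rw [hlev]; exact hr2
    rw [hcy, if_neg h, hx1supp t ht]
    simp
  · have h1 := norm_sub_le x1 (s • F.e (b r))
    have h2 : ‖s • F.e (b r)‖ ≤ 2 := by
      rw [norm_smul, Real.norm_eq_abs]
      have h3 := (hA5 T F (b r)).2
      calc |s| * ‖F.e (b r)‖ ≤ 2 * 1 := mul_le_mul hsn h3 (norm_nonneg _) (by norm_num)
        _ = 2 := by norm_num
    rw [hyd]; linarith
  · rw [hyd, (F.brL b).map_sub, (F.brL b).map_smul, E4_brL_e hA5 hB1 hL5 F b hb r, smul_eq_mul,
      mul_one, ← hs, sub_self]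
  · rw [hyd, ContinuousLinearMap.map_sub, ContinuousLinearMap.map_smul, smul_eq_mul]
    have h1 : s * g (F.e (b r)) ≤ 2 * (ε / 16) := by
      refine le_trans (le_abs_self _) ?_
      rw [abs_mul]
      exact mul_le_mul hsn hr1.le (abs_nonneg _) (by norm_num)
    linarith

end Pool.Agent.H191W
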