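import Pool.Agent.H191R4.WG.Stubs

set_option autoImplicit false
set_option maxSynthPendingDepth 3

open scoped ENNReal Topology
open Filter

namespace Pool.Agent.H191W

open Forest

namespace E4ax

variable {T : Type} (F : Forest T)

theorem anc_par {t s : T} (h : F.par t = some s) (i : ℕ) : F.anc t (i + 1) = F.anc s i := by
  induction i with
  | zero => simp [Forest.anc, h]
  | succ i ih =>
    show (F.anc t (i + 1)).bind F.par = _
    rw [ih]
    rfl

theorem le_par {a t s : T} (h : F.par t = some s) (ha : F.le a t) : a = t ∨ F.le a s := by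
  obtain ⟨i, hi⟩ := ha
  cases i with
  | zero =>
    left
    simpa [Forest.anc] using hi.symm
  | succ i =>
    right
    rw [anc_par F h] at hi
    exact ⟨i, hi⟩

theorem lev_le (hL1 : L1) {a b : T} (h : F.le a b) : F.lev a ≤ F.lev b := by
  obtain ⟨i, hi⟩ := h
  have := hL1 T F b a i hi
  omega

/-- the layers -/
def D (b : ℕ → T) (i : ℕ) : Set T := (F.cone (b i) \ F.cone (b (i + 1))) \ {b i}

theorem upO (hL4 : L4) (b : ℕ → T) (hb : F.IsRBr b) (n : ℕ) :
    F.IsUp (F.cone (b n) \ Set.range b) := by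
  intro t s hts hs
  refine ⟨(hL4 T F).1 (b n) t s hts hs.1, ?_⟩
  rintro ⟨j, rfl⟩
  cases j with
  | zero =>
    rw [hb.1] at hts
    exact absurd hts (by simp)
  | succ j =>
    rw [hb.2 j] at hts
    apply hs.2
    refine ⟨j, ?_⟩
    simpa using hts

theorem upD (hL1 : L1) (hL4 : L4) (b : ℕ → T) (hb : F.IsRBr b) (i : ℕ) :
    F.IsUp (D F b i) := by
  intro t s hts hs
  obtain ⟨⟨h1, h2⟩, h3⟩ := hs
  refine ⟨⟨(hL4 T F).1 (b i) t s hts h1, ?_⟩, ?_⟩
  · intro h4
    rcases le_par F hts h4 with h5 | h5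
    · rw [← h5, hb.2 i] at hts
      apply h3
      simpa using hts.symm
    · exact h2 h5
  · intro h4
    have h5 : t = b i := h4
    have h6 := F.lev_par t s hts
    have h7 := lev_le F hL1 (show F.le (b i) s from h1)
    rw [h5] at h6
    omega

theorem disjD (hL2 : L2) (hL5 : L5) (b : ℕ → T) (hb : F.IsRBr b) (i j : ℕ) (hij : i < j) :
    Disjoint (D F b i) (D F b j) := by
  rw [Set.disjoint_left]
  rintro x ⟨⟨_, h2⟩, _⟩ ⟨⟨h4, _⟩, _⟩
  exact h2 ((hL2 T F).2.1 _ _ _ ((hL5 T F b hb.2).2.2.1 (i + 1) j hij) h4)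

theorem disjD' (hL2 : L2) (hL5 : L5) (b : ℕ → T) (hb : F.IsRBr b) (i j : ℕ) (hij : i ≠ j) :
    Disjoint (D F b i) (D F b j) := by
  rcases lt_or_gt_of_ne hij with h | h
  · exact disjD F hL2 hL5 b hb i j h
  · exact (disjD F hL2 hL5 b hb j i h).symm

theorem coverO (hL1 : L1) (hL5 : L5) (b : ℕ → T) (hb : F.IsRBr b) (n : ℕ) (x : T)
    (hx : x ∈ F.cone (b n) \ Set.range b) : ∃ i, n ≤ i ∧ i ≤ F.lev x ∧ x ∈ D F b i := by
  classical
  have hlev := ((hL5 T F b hb.2).2.2.2.2 hb).1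
  have hb1 : ∀ i, F.le (b i) x → i ≤ F.lev x := by
    intro i hi
    have := lev_le F hL1 hi
    rwa [hlev i] at this
  set i := Nat.findGreatest (fun i => F.le (b i) x) (F.lev x) with hi
  have h1 : F.le (b n) x := hx.1
  have h2 : F.le (b i) x := Nat.findGreatest_spec (P := fun i => F.le (b i) x) (hb1 n h1) h1
  refine ⟨i, Nat.le_findGreatest (hb1 n h1) h1, hb1 i h2, ⟨h2, ?_⟩, ?_⟩
  · intro h3
    have h4 : F.le (b (i + 1)) x := h3
    have h5 : i + 1 ≤ i := Nat.le_findGreatest (hb1 _ h4) h4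
    omega
  · intro h3
    have h4 : x = b i := h3
    exact hx.2 ⟨i, h4.symm⟩

theorem DO (hL2 : L2) (hL5 : L5) (b : ℕ → T) (hb : F.IsRBr b) (n i : ℕ) (hni : n ≤ i) (x : T)
    (hx : x ∈ D F b i) : x ∈ F.cone (b n) \ Set.range b := by
  obtain ⟨⟨h1, h2⟩, h3⟩ := hx
  refine ⟨(hL2 T F).2.1 _ _ _ ((hL5 T F b hb.2).2.2.1 n i hni) h1, ?_⟩
  rintro ⟨j, rfl⟩
  by_cases hj : i + 1 ≤ j
  · exact h2 ((hL5 T F b hb.2).2.2.1 (i + 1) j hj)
  · obtain ⟨k, hk, hk2⟩ := ((hL5 T F b hb.2).2.2.2.2 hb).2 j (b i) h1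
    have := (hL5 T F b hb.2).2.2.2.1 hk2
    have h5 : j = i := by omega
    apply h3
    rw [h5]
    rfl

end E4ax

open E4ax in
theorem t_E4a (hC1 : C1) (hC3 : C3) (hC5 : C5) (hC7 : C7) (hL1 : L1) (hL2 : L2)
    (hL4 : L4) (hL5 : L5) : E4a := by
  classical
  intro T F g b hb
  refine ⟨fun n => upO F hL4 b hb n, ?_⟩
  intro ε hε n0
  set s : ℕ → ℝ := fun i => ‖g.comp (F.res (D F b i))‖ with hs
  have hsum : ∀ J : Finset ℕ, ∑ i ∈ J, s i ^ 2 ≤ ‖g‖ ^ 2 := fun J =>
    hC3 T F ℕ J (D F b) (fun i _ => upD F hL1 hL4 b hb i)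
      (fun i _ j _ hij => disjD' F hL2 hL5 b hb i j hij) g
  have hsm : Summable fun i => s i ^ 2 :=
    summable_of_sum_le (fun i => sq_nonneg _) hsum
  have htail : ∀ᶠ n in atTop, ∀ J : Finset ℕ, (∀ i ∈ J, n ≤ i) → ∑ i ∈ J, s i ^ 2 ≤ ε ^ 2 := by
    have h1 := hsm.vanishing (Iio_mem_nhds (show (0 : ℝ) < ε ^ 2 by positivity))
    obtain ⟨S, hS⟩ := h1
    obtain ⟨m, hm⟩ := S.exists_nat_subset_range
    filter_upwards [eventually_ge_atTop m] with n hn J hJ
    refine (hS J ?_).le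
    rw [Finset.disjoint_left]
    intro i hi hi2
    have := Finset.mem_range.1 (hm hi2)
    have := hJ i hi
    omega
  obtain ⟨n, hn0, hn⟩ := ((eventually_ge_atTop n0).and htail).exists
  refine ⟨n, hn0, ?_⟩
  by_contra hcon
  rw [not_le] at hcon
  obtain ⟨x, hxF, hxS, hx1, hx2⟩ := hC7 T F _ (upO F hL4 b hb n) g ε hcon
  -- the levels of the support
  obtain ⟨m, hm⟩ : ∃ m, ∀ t, F.coord x t ≠ 0 → F.lev t < m := by
    refine ⟨(hxF.toFinset.sup F.lev) + 1, fun t ht => ?_⟩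
    have : F.lev t ≤ hxF.toFinset.sup F.lev :=
      Finset.le_sup (f := F.lev) ((Set.Finite.mem_toFinset hxF).2 ht)
    omega
  set J : Finset ℕ := Finset.Ico n m with hJ
  have hres : ∀ i, ∀ (w : F.W) (t : T),
      F.coord (F.res (D F b i) w) t = if t ∈ D F b i then F.coord w t else 0 := fun i =>
    (hC1 T F _ (upD F hL1 hL4 b hb i)).1
  have hcs : ∀ (f : ℕ → F.W) (J : Finset ℕ) (t : T),
      F.coord (∑ i ∈ J, f i) t = ∑ i ∈ J, F.coord (f i) t := by
    intro f J t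
    induction J using Finset.induction_on with
    | empty => rfl
    | insert a J ha ih => rw [Finset.sum_insert ha, Finset.sum_insert ha, F.coord_add, ih]
  have hgs : ∀ (f : ℕ → F.W) (J : Finset ℕ), g (∑ i ∈ J, f i) = ∑ i ∈ J, g (f i) := by
    intro f J
    induction J using Finset.induction_on with
    | empty => exact ContinuousLinearMap.map_zero g
    | insert a J ha ih =>
      rw [Finset.sum_insert ha, Finset.sum_insert ha, ContinuousLinearMap.map_add, ih]
  have hxe : x = ∑ i ∈ J, F.res (D F b i) x := by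
    apply F.coord_ext
    intro t
    rw [hcs]
    by_cases ht : F.coord x t = 0
    · rw [ht]
      symm
      refine Finset.sum_eq_zero fun i _ => ?_
      rw [hres, ht]
      simp
    · have htO : t ∈ F.cone (b n) \ Set.range b := by
        by_contra h
        exact ht (hxS t h)
      obtain ⟨i, hi1, hi2, hi3⟩ := coverO F hL1 hL5 b hb n t htO
      have hiJ : i ∈ J := by
        rw [hJ, Finset.mem_Ico]
        have := hm t ht
        omega
      rw [Finset.sum_eq_single_of_mem i hiJ]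
      · rw [hres, if_pos hi3]
      · intro j _ hj
        rw [hres, if_neg]
        intro h
        exact Set.disjoint_left.1 (disjD' F hL2 hL5 b hb j i hj) h hi3
  have hidem : ∀ i, F.res (D F b i) (F.res (D F b i) x) = F.res (D F b i) x := by
    intro i
    apply F.coord_ext
    intro t
    rw [hres, hres]
    split_ifs <;> rfl
  have hg1 : ∀ i, g (F.res (D F b i) x) ≤ s i * ‖F.res (D F b i) x‖ := by
    intro i
    have h1 := (g.comp (F.res (D F b i))).le_opNorm (F.res (D F b i) x)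
    have h2 : (g.comp (F.res (D F b i))) (F.res (D F b i) x) = g (F.res (D F b i) x) := by
      show g (F.res (D F b i) (F.res (D F b i) x)) = _
      rw [hidem]
    rw [h2] at h1
    exact (le_abs_self _).trans h1
  have hg2 : g x ≤ ∑ i ∈ J, s i * ‖F.res (D F b i) x‖ := by
    calc g x = ∑ i ∈ J, g (F.res (D F b i) x) := by
          conv_lhs => rw [hxe]
          rw [hgs]
      _ ≤ _ := Finset.sum_le_sum fun i _ => hg1 i
  have hcsq := Finset.sum_mul_sq_le_sq_mul_sq J s (fun i => ‖F.res (D F b i) x‖)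
  have h5 := hC5 T F ℕ J (D F b) (fun i _ => upD F hL1 hL4 b hb i)
    (fun i _ j _ hij => disjD' F hL2 hL5 b hb i j hij) x
  have h6 := hn J (fun i hi => (Finset.mem_Ico.1 hi).1)
  have h7 : (∑ i ∈ J, s i * ‖F.res (D F b i) x‖) ^ 2 ≤ ε ^ 2 := by
    calc (∑ i ∈ J, s i * ‖F.res (D F b i) x‖) ^ 2 ≤
          (∑ i ∈ J, s i ^ 2) * ∑ i ∈ J, ‖F.res (D F b i) x‖ ^ 2 := hcsq
      _ ≤ ε ^ 2 * 1 := by
        refine mul_le_mul h6 (h5.trans ?_) (Finset.sum_nonneg fun i _ => sq_nonneg _)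
          (by positivity)
        calc ‖x‖ ^ 2 ≤ 1 ^ 2 := pow_le_pow_left₀ (norm_nonneg _) hx1 2
          _ = 1 := one_pow 2
      _ = ε ^ 2 := mul_one _
  have h8 : 0 ≤ ∑ i ∈ J, s i * ‖F.res (D F b i) x‖ :=
    Finset.sum_nonneg fun i _ => mul_nonneg (norm_nonneg _) (norm_nonneg _)
  have h9 : ∑ i ∈ J, s i * ‖F.res (D F b i) x‖ ≤ ε := by
    have := abs_le_of_sq_le_sq' h7 hε.le
    exact this.2
  linarith

end Pool.Agent.H191W
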