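import Pool.Agent.H191R4.WG.Stubs

set_option autoImplicit false
set_option maxSynthPendingDepth 3

open scoped ENNReal Topology
open Filter

namespace Pool.Agent.H191W

open Forest

theorem t_E5 (hB1 : B1) (hB2 : B2) (hB3 : B3) (hE5a : E5a) (hL5 : L5) : E5 := by
  intro T F g b M c hc hb hex
  have hM : 0 ≤ M := by
    obtain ⟨y, -, -, hy, -⟩ := hex 0
    exact (norm_nonneg _).trans hy
  have hbr : F.IsBr b := hb.2
  have hbra : ∀ a, F.IsBr (fun i => b (i + a)) := by
    intro a i
    have := hbr (i + a)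
    simpa [add_right_comm] using this
  have hlev : ∀ i, F.lev (b i) = i := ((hL5 T F b hbr).2.2.2.2 hb).1
  have key : ∀ m : ℕ, ∃ Y : F.W, F.FS Y ∧ F.SuppIn Y (Set.range b) ∧ ‖Y‖ ^ 2 ≤ 3 * m * M ^ 2 ∧
      (∀ a, |F.brL (fun i => b (i + a)) Y| ≤ M) ∧ (m : ℝ) * c ≤ g Y := by
    intro m
    induction m with
    | zero =>
      refine ⟨0, ?_, ?_, ?_, ?_, ?_⟩
      · have : {t | F.coord 0 t ≠ 0} = (∅ : Set T) := by
          ext t; simp [F.coord_zero]
        unfold FS
        rw [this]; exact Set.finite_empty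
      · intro t _; exact F.coord_zero t
      · simp
      · intro a; simp [hM]
      · simp
    | succ m ih =>
      obtain ⟨Y, hFS, hSupp, hnorm, htail, hg⟩ := ih
      obtain ⟨N, hN⟩ : ∃ N, ∀ t, F.coord Y t ≠ 0 → F.lev t < N := by
        have hfin : (F.lev '' {t | F.coord Y t ≠ 0}).Finite := hFS.image _
        obtain ⟨N, hN⟩ := hfin.bddAbove
        refine ⟨N + 1, fun t ht => ?_⟩
        have := hN ⟨t, ht, rfl⟩
        omega
      obtain ⟨y, hyFS, hySupp, hynorm, hybr, hyg⟩ := hex N
      refine ⟨Y + y, ?_, ?_, ?_, ?_, ?_⟩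
      · refine (hFS.union hyFS).subset ?_
        intro t ht
        by_contra hcon
        simp only [Set.mem_union, Set.mem_ofPred_eq, not_or, not_not] at hcon
        apply ht
        rw [F.coord_add, hcon.1, hcon.2, add_zero]
      · intro t ht
        rw [F.coord_add, hSupp t ht, hySupp t (fun h => ht h.1), add_zero]
      · have h := hE5a T F b Y y N M hb hSupp hN hySupp htail hynorm
        have h2 : ‖y‖ ^ 2 ≤ M ^ 2 := by
          have := norm_nonneg y
          gcongr
        push_cast
        nlinarith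
      · intro a
        rw [map_add]
        rcases lt_or_ge a N with ha | ha
        · have h1 : F.brL (fun i => b (i + a)) y = 0 := by
            have h2 := (hB3 T F b hbr y).1 a
            rw [hybr] at h2
            have h3 : ∑ i ∈ Finset.range a, F.coord y (b i) = 0 := by
              refine Finset.sum_eq_zero fun i hi => hySupp _ ?_
              rintro ⟨-, h⟩
              have h' : N ≤ F.lev (b i) := h
              rw [hlev] at h'
              have := Finset.mem_range.mp hi
              omega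
            rw [h3, zero_add] at h2
            exact h2.symm
          rw [h1, add_zero]
          exact htail a
        · have h1 : F.brL (fun i => b (i + a)) Y = 0 := by
            have h2 := hB1 T F _ (hbra a) Y
            have h3 : (fun n => ∑ i ∈ Finset.range n, F.coord Y (b (i + a))) = fun _ => (0 : ℝ) := by
              funext n
              refine Finset.sum_eq_zero fun i _ => ?_
              by_contra hne
              have := hN _ hne
              rw [hlev] at this
              omega
            rw [h3] at h2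
            exact tendsto_nhds_unique h2 tendsto_const_nhds
          rw [h1, zero_add]
          have h2 := hB2 T F Unit {()} (fun _ => fun i => b (i + a)) (fun _ _ => hbra a)
            (fun x _ z _ hxz => absurd (Subsingleton.elim x z) hxz) y
          simp only [Finset.sum_singleton] at h2
          have h3 : |F.brL (fun i => b (i + a)) y| ≤ ‖y‖ := by
            have := sq_le_sq.mp h2
            rwa [abs_of_nonneg (norm_nonneg y)] at this
          exact h3.trans hynorm
      · rw [map_add]
        push_cast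
        linarith
  -- contradiction
  obtain ⟨m, hm⟩ := exists_nat_gt (3 * ‖g‖ ^ 2 * M ^ 2 / c ^ 2)
  obtain ⟨Y, -, -, hnorm, -, hg⟩ := key (m + 1)
  have h1 : g Y ≤ ‖g‖ * ‖Y‖ := (le_abs_self _).trans (g.le_opNorm Y)
  have hm1 : (0 : ℝ) < ((m + 1 : ℕ) : ℝ) := by positivity
  have h2 : (((m + 1 : ℕ) : ℝ) * c) ^ 2 ≤ ‖g‖ ^ 2 * (3 * ((m + 1 : ℕ) : ℝ) * M ^ 2) := by
    calc (((m + 1 : ℕ) : ℝ) * c) ^ 2 ≤ (‖g‖ * ‖Y‖) ^ 2 := by
          have : 0 ≤ ((m + 1 : ℕ) : ℝ) * c := by positivity
          exact pow_le_pow_left₀ this (hg.trans h1) 2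
      _ = ‖g‖ ^ 2 * ‖Y‖ ^ 2 := by ring
      _ ≤ _ := by gcongr
  have h3 : ((m + 1 : ℕ) : ℝ) * c ^ 2 ≤ 3 * ‖g‖ ^ 2 * M ^ 2 := by
    have h4 : ((m + 1 : ℕ) : ℝ) * (((m + 1 : ℕ) : ℝ) * c ^ 2) ≤ ((m + 1 : ℕ) : ℝ) * (3 * ‖g‖ ^ 2 * M ^ 2) := by
      nlinarith
    exact le_of_mul_le_mul_left h4 hm1
  have hc2 : 0 < c ^ 2 := by positivity
  rw [div_lt_iff₀ hc2] at hm
  push_cast at h3
  nlinarith

end Pool.Agent.H191W
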