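import Pool.Agent.H191R4.WG.Stubs

set_option autoImplicit false
set_option maxSynthPendingDepth 3

open scoped ENNReal Topology
open Filter

namespace Pool.Agent.H191W

theorem E5a_anc_add {T : Type} (F : Forest T) (t : T) (i j : ℕ) :
    F.anc t (i + j) = (F.anc t i).bind (fun s => F.anc s j) := by
  induction j with
  | zero =>
    simp only [Nat.add_zero, Forest.anc]
    cases F.anc t i <;> rfl
  | succ j ih =>
    rw [← Nat.add_assoc]
    simp only [Forest.anc]
    rw [ih]
    cases F.anc t i <;> rfl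

theorem E5a_ssum_ne {T : Type} (F : Forest T) (x : T → ℝ) (p : T × ℕ) (h : F.ssum x p ≠ 0) :
    ∃ i s, i ≤ p.2 ∧ F.anc p.1 i = some s ∧ x s ≠ 0 := by
  unfold Forest.ssum at h
  obtain ⟨i, hi, h1⟩ := Finset.exists_ne_zero_of_sum_ne_zero h
  rw [Finset.mem_range] at hi
  cases h2 : F.anc p.1 i with
  | none => rw [h2] at h1; simp at h1
  | some s =>
    rw [h2] at h1
    exact ⟨i, s, by omega, h2, h1⟩

/-- The value of the sum of `Y` over a segment through `b j1` with `N ≤ j1`. -/
theorem E5a_val (hL1 : L1) (hL5 : L5) {T : Type} (F : Forest T) (b : ℕ → T) (x : T → ℝ) (N : ℕ)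
    (hb : F.IsRBr b) (hx : ∀ t, x t ≠ 0 → F.lev t < N) (p : T × ℕ) (j j1 : ℕ) (hj : j ≤ p.2)
    (hj1 : N ≤ j1) (ha : F.anc p.1 j = some (b j1)) :
    ∃ a K, a + K = j1 ∧ F.ssum x p = ∑ i ∈ Finset.range (K + 1), x (b (i + a)) := by
  obtain ⟨_, hanc, _, _, h5⟩ := hL5 T F b hb.2
  obtain ⟨hl, _⟩ := h5 hb
  have hlev : F.lev p.1 = j1 + j := by
    have := hL1 T F p.1 (b j1) j ha
    rw [hl] at this
    exact this
  have hK : ∀ k, k ≤ j1 → F.anc p.1 (j + k) = some (b (j1 - k)) := by
    intro k hk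
    rw [E5a_anc_add, ha]
    have := hanc (j1 - k) j1 (by omega)
    rw [show j1 - (j1 - k) = k by omega] at this
    exact this
  have hnone : ∀ k, j1 < k → F.anc p.1 (j + k) = none := by
    intro k hk
    cases h : F.anc p.1 (j + k) with
    | none => rfl
    | some s =>
      have := hL1 T F p.1 s _ h
      omega
  set K := min (p.2 - j) j1 with hKdef
  refine ⟨j1 - K, K, by omega, ?_⟩
  have e1 : F.ssum x p = ∑ i ∈ Finset.Ico j (p.2 + 1), ((F.anc p.1 i).elim 0 x) := by
    unfold Forest.ssum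
    rw [Finset.range_eq_Ico, ← Finset.sum_Ico_consecutive _ (Nat.zero_le j) (by omega : j ≤ p.2 + 1)]
    have : ∑ i ∈ Finset.Ico 0 j, ((F.anc p.1 i).elim 0 x) = 0 := by
      apply Finset.sum_eq_zero
      intro i hi
      rw [Finset.mem_Ico] at hi
      cases h : F.anc p.1 i with
      | none => rfl
      | some s =>
        have h1 := hL1 T F p.1 s i h
        show x s = 0
        by_contra h2
        have := hx s h2
        omega
    rw [this, zero_add]
  rw [e1, Finset.sum_Ico_eq_sum_range]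
  have e2 : ∑ k ∈ Finset.range (p.2 + 1 - j), ((F.anc p.1 (j + k)).elim 0 x) =
      ∑ k ∈ Finset.range (K + 1), x (b (j1 - k)) := by
    have hsub : Finset.range (K + 1) ⊆ Finset.range (p.2 + 1 - j) := by
      intro k hk
      rw [Finset.mem_range] at hk ⊢
      omega
    rw [← Finset.sum_subset hsub]
    · apply Finset.sum_congr rfl
      intro k hk
      rw [Finset.mem_range] at hk
      rw [hK k (by omega)]
      rfl
    · intro k hk1 hk2
      rw [Finset.mem_range] at hk1 hk2
      rw [hnone k (by omega)]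
      rfl
  rw [e2, ← Finset.sum_range_reflect]
  apply Finset.sum_congr rfl
  intro k hk
  rw [Finset.mem_range] at hk
  congr 2
  omega

theorem t_E5a (hA2 : A2) (hA3 : A3) (hB1 : B1) (hL1 : L1) (hL5 : L5) : E5a := by
  intro T F b Y y N M hb hYs hYN hy hM hyM
  obtain ⟨_, hanc, _, _, h5⟩ := hL5 T F b hb.2
  obtain ⟨hl, _⟩ := h5 hb
  have hM0 : 0 ≤ M := (norm_nonneg _).trans hyM
  -- the segment contains `b j1` with `N ≤ j1`
  have key : ∀ p, F.ssum (F.coord y) p ≠ 0 → ∃ j j1, j ≤ p.2 ∧ N ≤ j1 ∧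
      F.anc p.1 j = some (b j1) := by
    intro p hp
    obtain ⟨j, s, h1, h2, h3⟩ := E5a_ssum_ne F _ p hp
    have h4 : s ∈ Set.range b ∩ F.tail N := by
      by_contra h
      exact h3 (hy s h)
    obtain ⟨⟨j1, rfl⟩, h6⟩ := h4
    refine ⟨j, j1, h1, ?_, h2⟩
    have h7 : N ≤ F.lev (b j1) := h6
    rwa [hl] at h7
  have hbN : ∀ p, F.ssum (F.coord Y) p ≠ 0 → F.ssum (F.coord y) p ≠ 0 → b N ∈ F.seg p := by
    intro p hp1 hp2
    obtain ⟨j, j1, h1, h2, h3⟩ := key p hp2
    obtain ⟨i, s, g1, g2, g3⟩ := E5a_ssum_ne F _ p hp1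
    have h4 := hL1 T F p.1 (b j1) j h3
    have h5 := hL1 T F p.1 s i g2
    have h6 := hYN s g3
    rw [hl] at h4
    refine ⟨j + (j1 - N), by omega, ?_⟩
    rw [E5a_anc_add, h3]
    exact hanc N j1 h2
  have hYM : ∀ p, F.ssum (F.coord y) p ≠ 0 → |F.ssum (F.coord Y) p| ≤ M := by
    intro p hp2
    obtain ⟨j, j1, h1, h2, h3⟩ := key p hp2
    obtain ⟨a, K, haK, hval⟩ := E5a_val hL1 hL5 F b (F.coord Y) N hb hYN p j j1 h1 h2 h3
    have hbr : F.IsBr (fun i => b (i + a)) := by
      intro i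
      have := hb.2 (i + a)
      rw [show i + a + 1 = i + 1 + a by omega] at this
      exact this
    have hlim := hB1 T F _ hbr Y
    have hconst : Tendsto (fun n => ∑ i ∈ Finset.range n, F.coord Y (b (i + a))) atTop
        (𝓝 (∑ i ∈ Finset.range (K + 1), F.coord Y (b (i + a)))) := by
      apply tendsto_atTop_of_eventually_const (i₀ := K + 1)
      intro n hn
      have hsub : Finset.range (K + 1) ⊆ Finset.range n := by
        intro k hk
        rw [Finset.mem_range] at hk ⊢
        omega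
      symm
      apply Finset.sum_subset hsub
      intro k _ hk2
      rw [Finset.mem_range] at hk2
      by_contra h
      have := hYN _ h
      rw [hl] at this
      omega
    have heq := tendsto_nhds_unique hlim hconst
    rw [hval, ← heq]
    exact hM a
  have hyp : ∀ p, |F.ssum (F.coord y) p| ≤ M := by
    intro p
    have h1 := hA2 T F y {p} (by unfold Forest.Disj; simp)
    rw [Finset.sum_singleton] at h1
    exact (abs_le_of_sq_le_sq' h1 (norm_nonneg _) |> abs_le.mpr).trans hyM
  set C := Real.sqrt (‖Y‖ ^ 2 + ‖y‖ ^ 2 + 2 * M ^ 2) with hC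
  have hC2 : C ^ 2 = ‖Y‖ ^ 2 + ‖y‖ ^ 2 + 2 * M ^ 2 := Real.sq_sqrt (by positivity)
  have hx : ∀ t, F.coord (Y + y) t = F.coord Y t + F.coord y t := fun t => F.coord_add Y y t
  obtain ⟨w, hw1, hw2⟩ := hA3 T F (F.coord (Y + y)) C (Real.sqrt_nonneg _) (by
    intro S hS
    have e0 : ∀ p, F.ssum (F.coord (Y + y)) p = F.ssum (F.coord Y) p + F.ssum (F.coord y) p := by
      intro p
      have : F.coord (Y + y) = fun t => F.coord Y t + F.coord y t := funext hx
      rw [this, F.ssum_add]
    have e1 : ∑ p ∈ S, (F.ssum (F.coord (Y + y)) p) ^ 2 =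
        ∑ p ∈ S, (F.ssum (F.coord Y) p) ^ 2 + ∑ p ∈ S, (F.ssum (F.coord y) p) ^ 2 +
          2 * ∑ p ∈ S, F.ssum (F.coord Y) p * F.ssum (F.coord y) p := by
      rw [← Finset.sum_add_distrib, Finset.mul_sum, ← Finset.sum_add_distrib]
      apply Finset.sum_congr rfl
      intro p _
      rw [e0]
      ring
    have e2 : ∑ p ∈ S, F.ssum (F.coord Y) p * F.ssum (F.coord y) p ≤ M ^ 2 := by
      by_cases h : ∃ p ∈ S, F.ssum (F.coord Y) p * F.ssum (F.coord y) p ≠ 0
      · obtain ⟨p, hp, hne⟩ := h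
        rw [Finset.sum_eq_single p]
        · calc F.ssum (F.coord Y) p * F.ssum (F.coord y) p
              ≤ |F.ssum (F.coord Y) p * F.ssum (F.coord y) p| := le_abs_self _
            _ = |F.ssum (F.coord Y) p| * |F.ssum (F.coord y) p| := abs_mul _ _
            _ ≤ M * M := mul_le_mul (hYM p (right_ne_zero_of_mul hne)) (hyp p) (abs_nonneg _) hM0
            _ = M ^ 2 := by ring
        · intro q hq hqp
          by_contra hne2
          have h1 := hbN p (left_ne_zero_of_mul hne) (right_ne_zero_of_mul hne)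
          have h2 := hbN q (left_ne_zero_of_mul hne2) (right_ne_zero_of_mul hne2)
          have h3 := hS hq hp hqp
          exact Set.disjoint_left.mp h3 h2 h1
        · intro hp'
          exact absurd hp hp'
      · push Not at h
        rw [Finset.sum_eq_zero h]
        positivity
    rw [e1, hC2]
    have h1 := hA2 T F Y S hS
    have h2 := hA2 T F y S hS
    linarith)
  have hwe : w = Y + y := F.coord_ext hw1
  rw [hwe] at hw2
  calc ‖Y + y‖ ^ 2 ≤ C ^ 2 := pow_le_pow_left₀ (norm_nonneg _) hw2 2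
    _ = _ := hC2

end Pool.Agent.H191W
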