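import Pool.Agent.H191R4.WG.Stubs

set_option autoImplicit false
set_option maxSynthPendingDepth 3

open scoped ENNReal Topology
open Filter

namespace Pool.Agent.H191W

open Forest

/-- vanishing on branches implies small tails (helper818) -/
theorem t_E6 (h1 : E1) (h2 : E2) (h3 : E3) (h4 : E4) (h5 : E5) : E6 := by
  intro T F g hz ε0 hε0
  by_contra hcon
  push Not at hcon
  by_cases hB : ∃ ε : ℝ, 0 < ε ∧ ∀ n, ∃ t, F.lev t = n ∧ Big T F g ε t
  · obtain ⟨ε, hε, hB⟩ := hB
    obtain ⟨b, hb, hbig⟩ := h1 T F g ε hε hB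
    exact h5 T F g b 4 (ε / 8) (by positivity) hb (h4 T F g b ε hε hb hbig (hz b hb))
  · push Not at hB
    refine h3 T F g ‖g‖ (ε0 ^ 2 / 8) (by positivity) ?_
    intro ε hε N
    obtain ⟨n, hn⟩ := hB ε hε
    exact h2 T F g ε0 ε n hε0 hε hcon hn N

end Pool.Agent.H191W
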