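import Pool.Agent.H191R4.WG.Stubs

set_option autoImplicit false
set_option maxSynthPendingDepth 3

open scoped ENNReal Topology
open Filter

namespace Pool.Agent.H191W

open Forest

theorem t_E7 (hA2 : A2) (hA5 : A5) (hA8 : A8) (hC1 : C1) (hC4 : C4) (hL1 : L1) (hL4 : L4) : E7 := by
  classical
  intro T F g n
  have hres := hC1 T F (F.tail n) ((hL4 T F).2.1 n)
  set h : StrongDual ℝ F.W := g - g.comp (F.res (F.tail n)) with hh
  have hv1 : ∀ t, n ≤ F.lev t → h (F.e t) = 0 := by
    intro t ht
    have h1 : F.res (F.tail n) (F.e t) = F.e t := by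
      apply F.coord_ext
      intro s
      rw [hres.1, (hA5 T F t).1 s]
      by_cases hst : s = t
      · subst hst
        rw [if_pos (show s ∈ F.tail n from ht)]
      · rw [if_neg hst, ite_self]
    rw [hh, sub_apply, ContinuousLinearMap.comp_apply, h1, sub_self]
  have hv2 : ∀ t, F.lev t < n → h (F.e t) = g (F.e t) := by
    intro t ht
    have h1 : F.res (F.tail n) (F.e t) = 0 := by
      apply F.coord_ext
      intro s
      rw [hres.1, (hA5 T F t).1 s, F.coord_zero]
      by_cases hst : s = t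
      · subst hst
        rw [if_neg (show ¬ s ∈ F.tail n from not_le.mpr ht)]
      · rw [if_neg hst, ite_self]
    rw [hh, sub_apply, ContinuousLinearMap.comp_apply, h1, g.map_zero, sub_zero]
  -- square summability
  have hsq : ∀ J : Finset T, ∑ t ∈ J, (h (F.e t)) ^ 2 ≤ n * ‖g‖ ^ 2 := by
    intro J
    have h1 : ∑ t ∈ J, (h (F.e t)) ^ 2 ≤
        ∑ l ∈ Finset.range n, ∑ t ∈ J with F.lev t = l, (g (F.e t)) ^ 2 := by
      have h2 : ∑ t ∈ J, (h (F.e t)) ^ 2 = ∑ t ∈ J with F.lev t < n, (g (F.e t)) ^ 2 := by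
        rw [Finset.sum_filter]
        refine Finset.sum_congr rfl fun t _ => ?_
        split_ifs with h3
        · rw [hv2 t h3]
        · rw [hv1 t (not_lt.mp h3)]
          ring
      rw [h2]
      rw [← Finset.sum_fiberwise_of_maps_to (s := J.filter (fun t => F.lev t < n))
        (t := Finset.range n) (g := F.lev) (fun t ht => by
          rw [Finset.mem_filter] at ht
          exact Finset.mem_range.mpr ht.2)]
      refine Finset.sum_le_sum fun l hl => ?_
      refine Finset.sum_le_sum_of_subset_of_nonneg ?_ (fun _ _ _ => sq_nonneg _)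
      intro t ht
      rw [Finset.mem_filter, Finset.mem_filter] at ht
      rw [Finset.mem_filter]
      exact ⟨ht.1.1, ht.2⟩
    refine h1.trans ?_
    have h2 : ∀ l ∈ Finset.range n, ∑ t ∈ J with F.lev t = l, (g (F.e t)) ^ 2 ≤ ‖g‖ ^ 2 := by
      intro l hl
      refine hC4 T F _ ?_ g
      intro a ha b hb hab hle
      rw [Finset.mem_filter] at ha hb
      obtain ⟨i, hi⟩ := hle
      have h3 := hL1 T F b a i hi
      rw [ha.2, hb.2] at h3
      have h4 : i = 0 := by omega
      subst h4
      exact hab (by simpa [Forest.anc] using hi.symm)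
    calc ∑ l ∈ Finset.range n, ∑ t ∈ J with F.lev t = l, (g (F.e t)) ^ 2
        ≤ ∑ l ∈ Finset.range n, ‖g‖ ^ 2 := Finset.sum_le_sum h2
      _ = n * ‖g‖ ^ 2 := by rw [Finset.sum_const, Finset.card_range, nsmul_eq_mul]
  have hsum : Summable (fun t => (h (F.e t)) ^ 2) :=
    summable_of_sum_le (fun _ => sq_nonneg _) hsq
  -- norm bound
  have hnb : ∀ J : Finset T, ‖∑ t ∈ J, h (F.e t) • F.cf t‖ ≤
      Real.sqrt (∑ t ∈ J, (h (F.e t)) ^ 2) := by
    intro J
    refine ContinuousLinearMap.opNorm_le_bound _ (Real.sqrt_nonneg _) fun w => ?_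
    have h2 : ∑ t ∈ J, (F.coord w t) ^ 2 ≤ ‖w‖ ^ 2 := by
      have hinj : Function.Injective (fun t : T => (t, (0 : ℕ))) := fun a b hab =>
        (Prod.mk.inj hab).1
      have h3 := hA2 T F w (J.map ⟨fun t => (t, 0), hinj⟩) (by
        intro p hp q hq hpq
        rw [Finset.mem_coe, Finset.mem_map] at hp hq
        obtain ⟨a, ha, rfl⟩ := hp
        obtain ⟨b, hb, rfl⟩ := hq
        rw [Function.onFun, Set.disjoint_left]
        rintro x ⟨i, hi, hi2⟩ ⟨j, hj, hj2⟩
        simp only [Function.Embedding.coeFn_mk, Nat.le_zero] at hi hj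
        subst hi
        subst hj
        simp only [Function.Embedding.coeFn_mk, Forest.anc, Option.some.injEq] at hi2 hj2
        apply hpq
        rw [hi2, hj2])
      rw [Finset.sum_map] at h3
      refine le_trans (le_of_eq ?_) h3
      refine Finset.sum_congr rfl fun t _ => ?_
      simp [Forest.ssum, Forest.anc]
    have h3 : (∑ t ∈ J, h (F.e t) • F.cf t) w = ∑ t ∈ J, h (F.e t) * F.coord w t := by
      simp
    rw [h3, Real.norm_eq_abs]
    have h4 := Finset.sum_mul_sq_le_sq_mul_sq J (fun t => h (F.e t)) (fun t => F.coord w t)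
    have h5 : (∑ t ∈ J, h (F.e t) * F.coord w t) ^ 2 ≤
        (Real.sqrt (∑ t ∈ J, (h (F.e t)) ^ 2) * ‖w‖) ^ 2 := by
      rw [mul_pow, Real.sq_sqrt (Finset.sum_nonneg fun _ _ => sq_nonneg _)]
      exact h4.trans (mul_le_mul_of_nonneg_left h2 (Finset.sum_nonneg fun _ _ => sq_nonneg _))
    exact abs_le_of_sq_le_sq h5 (by positivity)
  have hsum2 : Summable (fun t => h (F.e t) • F.cf t) := by
    rw [summable_iff_vanishing_norm]
    intro ε hε
    have h1 := summable_iff_vanishing_norm.mp hsum (ε ^ 2) (by positivity)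
    obtain ⟨s, hs⟩ := h1
    refine ⟨s, fun t ht => ?_⟩
    have h2 := hs t ht
    refine lt_of_le_of_lt (hnb t) ?_
    rw [Real.norm_eq_abs, abs_of_nonneg (Finset.sum_nonneg fun _ _ => sq_nonneg _)] at h2
    calc Real.sqrt (∑ t ∈ t, (h (F.e t)) ^ 2) < Real.sqrt (ε ^ 2) :=
          Real.sqrt_lt_sqrt (Finset.sum_nonneg fun _ _ => sq_nonneg _) h2
      _ = ε := Real.sqrt_sq hε.le
  obtain ⟨h1, hh1⟩ := hsum2
  have hmem : h1 ∈ (Submodule.span ℝ (Set.range F.cf)).topologicalClosure := by
    rw [← SetLike.mem_coe, Submodule.topologicalClosure_coe]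
    refine mem_closure_of_tendsto hh1 (Filter.Eventually.of_forall fun J => ?_)
    exact Submodule.sum_mem _ fun t _ => Submodule.smul_mem _ _ (Submodule.subset_span ⟨t, rfl⟩)
  have heq : ∀ t, h1 (F.e t) = h (F.e t) := by
    intro t
    have h2 : HasSum (fun s => (h (F.e s) • F.cf s) (F.e t)) (h1 (F.e t)) :=
      hh1.mapL (ContinuousLinearMap.apply ℝ ℝ (F.e t))
    have h3 : HasSum (fun s => (h (F.e s) • F.cf s) (F.e t)) (h (F.e t)) := by
      have h4 : (fun s => (h (F.e s) • F.cf s) (F.e t)) =
          fun s => if s = t then h (F.e t) else 0 := by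
        funext s
        rw [smul_apply, Forest.cf_apply, (hA5 T F t).1 s]
        split_ifs with hst
        · rw [hst]
          simp
        · simp
      rw [h4]
      exact hasSum_ite_eq t _
    exact h2.unique h3
  have hfin : h1 = h := by
    ext w
    have hcl : IsClosed {w : F.W | h1 w = h w} := isClosed_eq h1.continuous h.continuous
    have hsub : (Submodule.span ℝ (Set.range F.e) : Set F.W) ⊆ {w : F.W | h1 w = h w} := by
      intro w hw
      refine Submodule.span_induction (p := fun w _ => h1 w = h w) ?_ ?_ ?_ ?_ hw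
      · rintro _ ⟨t, rfl⟩
        exact heq t
      · rw [h1.map_zero, h.map_zero]
      · intro x y _ _ hx hy
        rw [h1.map_add, h.map_add, hx, hy]
      · intro a x _ hx
        rw [h1.map_smul, h.map_smul, hx]
    have h2 : w ∈ (Submodule.span ℝ (Set.range F.e)).topologicalClosure := by
      rw [hA8 T F]
      trivial
    rw [← SetLike.mem_coe, Submodule.topologicalClosure_coe] at h2
    exact closure_minimal hsub hcl h2
  rw [← hfin]
  exact hmem

end Pool.Agent.H191W
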