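import Pool.Agent.H191R4.WG.Stubs

set_option autoImplicit false
set_option maxSynthPendingDepth 3

open scoped ENNReal Topology
open Filter

namespace Pool.Agent.H191W

open Forest

theorem t_E8 (hE6 : E6) (hE7 : E7) : E8 := by
  intro T F g hg
  have hcl : IsClosed (((Submodule.span ℝ (Set.range F.cf)).topologicalClosure :
      Submodule ℝ (StrongDual ℝ F.W)) : Set (StrongDual ℝ F.W)) :=
    Submodule.isClosed_topologicalClosure _
  have h1 : g ∈ closure (((Submodule.span ℝ (Set.range F.cf)).topologicalClosure :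
      Submodule ℝ (StrongDual ℝ F.W)) : Set (StrongDual ℝ F.W)) := by
    rw [Metric.mem_closure_iff]
    intro ε hε
    obtain ⟨n, hn⟩ := hE6 T F g hg ε hε
    refine ⟨g - g.comp (F.res (F.tail n)), hE7 T F g n, ?_⟩
    rw [dist_eq_norm, sub_sub_cancel]
    exact hn
  rw [hcl.closure_eq] at h1
  exact h1

end Pool.Agent.H191W
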