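import Pool.Agent.H191R4.WG.Stubs

set_option autoImplicit false
set_option maxSynthPendingDepth 3

open scoped ENNReal Topology
open Filter

namespace Pool.Agent.H191W

open Forest

theorem t_F1 (hA2 : A2) (hA3 : A3) : F1 := by
  intro T F ν
  set x : T → ℝ := fun t => ν (F.cf t) with hx
  -- the segment functional
  let sf : T × ℕ → StrongDual ℝ F.W := fun p =>
    ∑ i ∈ Finset.range (p.2 + 1), ((F.anc p.1 i).elim 0 F.cf)
  have h1 : ∀ p, ν (sf p) = F.ssum x p := by
    intro p
    show ν (∑ i ∈ Finset.range (p.2 + 1), ((F.anc p.1 i).elim 0 F.cf)) = _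
    rw [map_sum]
    unfold ssum
    refine Finset.sum_congr rfl fun i _ => ?_
    cases F.anc p.1 i <;> simp [hx]
  have h2 : ∀ p w, sf p w = F.ssum (F.coord w) p := by
    intro p w
    show (∑ i ∈ Finset.range (p.2 + 1), ((F.anc p.1 i).elim 0 F.cf) : StrongDual ℝ F.W) w = _
    rw [ContinuousLinearMap.sum_apply]
    unfold ssum
    refine Finset.sum_congr rfl fun i _ => ?_
    cases F.anc p.1 i <;> simp
  obtain ⟨w, hw, -⟩ := hA3 T F x ‖ν‖ (norm_nonneg _) (by
    intro S hS
    set R : ℝ := ∑ p ∈ S, (F.ssum x p) ^ 2 with hR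
    have hR0 : 0 ≤ R := Finset.sum_nonneg fun p _ => sq_nonneg _
    let f : StrongDual ℝ F.W := ∑ p ∈ S, F.ssum x p • sf p
    have hνf : ν f = R := by
      show ν (∑ p ∈ S, F.ssum x p • sf p) = R
      rw [map_sum]
      refine Finset.sum_congr rfl fun p _ => ?_
      rw [map_smul, h1, smul_eq_mul, sq]
    have hf : ‖f‖ ≤ Real.sqrt R := by
      refine ContinuousLinearMap.opNorm_le_bound _ (Real.sqrt_nonneg _) fun w => ?_
      have e1 : f w = ∑ p ∈ S, F.ssum x p * F.ssum (F.coord w) p := by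
        show (∑ p ∈ S, F.ssum x p • sf p : StrongDual ℝ F.W) w = _
        rw [ContinuousLinearMap.sum_apply]
        refine Finset.sum_congr rfl fun p _ => ?_
        rw [ContinuousLinearMap.smul_apply, h2, smul_eq_mul]
      rw [e1, Real.norm_eq_abs]
      have e2 := Finset.sum_mul_sq_le_sq_mul_sq S (fun p => F.ssum x p)
        (fun p => F.ssum (F.coord w) p)
      have e3 := hA2 T F w S hS
      apply abs_le_of_sq_le_sq _ (mul_nonneg (Real.sqrt_nonneg _) (norm_nonneg _))
      rw [mul_pow, Real.sq_sqrt hR0]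
      exact e2.trans (mul_le_mul_of_nonneg_left e3 hR0)
    have e4 : R ≤ ‖ν‖ * Real.sqrt R := by
      calc R = ν f := hνf.symm
        _ ≤ |ν f| := le_abs_self _
        _ = ‖ν f‖ := (Real.norm_eq_abs _).symm
        _ ≤ ‖ν‖ * ‖f‖ := ν.le_opNorm f
        _ ≤ ‖ν‖ * Real.sqrt R := mul_le_mul_of_nonneg_left hf (norm_nonneg _)
    have e5 : Real.sqrt R ^ 2 = R := Real.sq_sqrt hR0
    have e6 : Real.sqrt R ≤ ‖ν‖ := by
      by_contra hlt
      push Not at hlt
      have hpos : 0 < Real.sqrt R := lt_of_le_of_lt (norm_nonneg _) hlt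
      have := mul_lt_mul_of_pos_right hlt hpos
      nlinarith
    calc R = Real.sqrt R ^ 2 := e5.symm
      _ ≤ ‖ν‖ ^ 2 := pow_le_pow_left₀ (Real.sqrt_nonneg _) e6 2)
  exact ⟨w, hw⟩

end Pool.Agent.H191W
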