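import Pool.Agent.H191R4.WG.Stubs

set_option autoImplicit false
set_option maxSynthPendingDepth 3

open scoped ENNReal Topology
open Filter

namespace Pool.Agent.H191W

open Forest

theorem t_F2_sep {T : Type} (F : Forest T) (hD4 : D4) (J : Finset (ℕ → T))
    (hJ : ∀ b ∈ J, F.IsRBr b) :
    ∃ n, ∀ b ∈ J, ∀ b' ∈ J, b ≠ b' → ∀ i j, n ≤ i → b i ≠ b' j := by
  classical
  have h1 : ∀ q : (ℕ → T) × (ℕ → T), ∃ n, q ∈ J ×ˢ J → q.1 ≠ q.2 →
      ∀ i j, n ≤ i → q.1 i ≠ q.2 j := by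
    intro q
    by_cases hq : q ∈ J ×ˢ J ∧ q.1 ≠ q.2
    · have hq1 := Finset.mem_product.1 hq.1
      obtain ⟨n, -, hn⟩ := hD4 T F q.1 q.2 (hJ _ hq1.1) (hJ _ hq1.2) hq.2
      exact ⟨n, fun _ _ i j hi => hn i j hi⟩
    · exact ⟨0, fun h2 h3 => absurd ⟨h2, h3⟩ hq⟩
  choose N hN using h1
  refine ⟨(J ×ˢ J).sup N, fun b hb b' hb' hne i j hi => ?_⟩
  have hm : (b, b') ∈ J ×ˢ J := Finset.mem_product.2 ⟨hb, hb'⟩
  exact hN (b, b') hm hne i j (le_trans (Finset.le_sup (f := N) hm) hi)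

theorem t_F2 (hB2 : B2) (hB3 : B3) (hD4 : D4) : F2 := by
  intro T F ν hν J hJ
  obtain ⟨n, hn⟩ := t_F2_sep F hD4 J hJ
  -- shifted branches
  have hsh : ∀ b ∈ J, F.IsBr (fun i => b (i + n)) := by
    intro b hb i
    have := (hJ b hb).2 (i + n)
    rw [show i + n + 1 = i + 1 + n by ring] at this
    exact this
  have hdis : ∀ a ∈ J, ∀ c ∈ J, a ≠ c →
      Disjoint (Set.range (fun i => a (i + n))) (Set.range (fun i => c (i + n))) := by
    intro a ha c hc hac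
    rw [Set.disjoint_left]
    rintro x ⟨i, rfl⟩ ⟨j, hj⟩
    exact hn a ha c hc hac (i + n) (j + n) (by omega) hj.symm
  have hval : ∀ b ∈ J, ν (F.brL b) = ν (F.brL (fun i => b (i + n))) := by
    intro b hb
    have h1 : F.brL b = ∑ i ∈ Finset.range n, F.cf (b i) + F.brL (fun i => b (i + n)) := by
      ext w
      have h2 := (hB3 T F b (hJ b hb).2 w).1 n
      rw [h2]
      simp only [ContinuousLinearMap.add_apply, ContinuousLinearMap.sum_apply, cf_apply]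
    rw [h1, map_add, map_sum]
    simp [hν]
  set S := ∑ b ∈ J, (ν (F.brL b)) ^ 2 with hS
  have hS0 : 0 ≤ S := Finset.sum_nonneg fun b _ => sq_nonneg _
  set f : StrongDual ℝ F.W := ∑ b ∈ J, ν (F.brL b) • F.brL (fun i => b (i + n)) with hf
  have hνf : ν f = S := by
    rw [hf, map_sum, hS]
    refine Finset.sum_congr rfl fun b hb => ?_
    rw [map_smul, smul_eq_mul, ← hval b hb]
    ring
  have hfn : ‖f‖ ≤ Real.sqrt S := by
    refine ContinuousLinearMap.opNorm_le_bound _ (Real.sqrt_nonneg _) fun w => ?_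
    have h3 : f w = ∑ b ∈ J, ν (F.brL b) * F.brL (fun i => b (i + n)) w := by
      rw [hf]
      simp only [ContinuousLinearMap.sum_apply, ContinuousLinearMap.smul_apply, smul_eq_mul]
    rw [h3, Real.norm_eq_abs]
    refine abs_le_of_sq_le_sq ?_ (mul_nonneg (Real.sqrt_nonneg _) (norm_nonneg _))
    rw [mul_pow, Real.sq_sqrt hS0]
    refine le_trans (Finset.sum_mul_sq_le_sq_mul_sq _ _ _) ?_
    refine mul_le_mul_of_nonneg_left ?_ hS0
    exact hB2 T F (ℕ → T) J (fun b i => b (i + n)) hsh hdis w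
  have h4 : S ≤ ‖ν‖ * Real.sqrt S := by
    rw [← hνf]
    calc ν f ≤ ‖ν f‖ := Real.le_norm_self _
      _ ≤ ‖ν‖ * ‖f‖ := ν.le_opNorm f
      _ ≤ ‖ν‖ * Real.sqrt S := mul_le_mul_of_nonneg_left hfn (norm_nonneg _)
      _ = ‖ν‖ * Real.sqrt (ν f) := by rw [hνf]
  have h5 : Real.sqrt S ≤ ‖ν‖ := by
    by_contra h
    push Not at h
    have h6 : 0 < Real.sqrt S := lt_of_le_of_lt (norm_nonneg _) h
    have h7 : Real.sqrt S * Real.sqrt S = S := Real.mul_self_sqrt hS0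
    nlinarith
  calc S = Real.sqrt S ^ 2 := (Real.sq_sqrt hS0).symm
    _ ≤ ‖ν‖ ^ 2 := pow_le_pow_left₀ (Real.sqrt_nonneg _) h5 2

end Pool.Agent.H191W
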