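import Pool.Agent.H191R4.WG.Stubs

set_option autoImplicit false
set_option maxSynthPendingDepth 3

open scoped ENNReal Topology
open Filter

namespace Pool.Agent.H191W

open Forest

theorem t_F3 (hD2 : D2) (hD3 : D3) (hD4 : D4) : F3 := by
  classical
  intro T F φ C hC
  let B : Type := {b : ℕ → T // F.IsRBr b}
  have hsum : ∀ J : Finset B, ∑ b ∈ J, (φ b.1) ^ 2 ≤ C := by
    intro J
    have h1 := hC (J.map ⟨Subtype.val, Subtype.val_injective⟩) (by
      intro b hb
      rw [Finset.mem_map] at hb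
      obtain ⟨a, _, rfl⟩ := hb
      exact a.2)
    rw [Finset.sum_map] at h1
    exact h1
  have hφ : Summable (fun b : B => (φ b.1) ^ 2) :=
    summable_of_sum_le (fun b => sq_nonneg _) hsum
  have hnorm : ∀ J : Finset B, ‖∑ b ∈ J, φ b.1 • F.uu b.1‖ ^ 2 ≤ ∑ b ∈ J, (φ b.1) ^ 2 := by
    intro J
    refine (hD2 T F B J (fun b => b.1) ?_).2 (fun b => φ b.1)
    intro a _ c _ hac
    obtain ⟨n, hn, _⟩ := hD4 T F a.1 c.1 a.2 c.2 (fun h => hac (Subtype.ext h))
    filter_upwards [eventually_ge_atTop n] with i hi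
    exact hn i hi
  have hS : Summable (fun b : B => φ b.1 • F.uu b.1) := by
    rw [summable_iff_vanishing_norm]
    intro ε hε
    obtain ⟨s, hs⟩ := (summable_iff_vanishing_norm.1 hφ) (ε ^ 2) (by positivity)
    refine ⟨s, fun t ht => ?_⟩
    have h1 := hs t ht
    have h2 := hnorm t
    have h3 : ∑ b ∈ t, (φ b.1) ^ 2 < ε ^ 2 := lt_of_le_of_lt (le_abs_self _) h1
    exact lt_of_pow_lt_pow_left₀ 2 hε.le (lt_of_le_of_lt h2 h3)
  have hev : ∀ g : StrongDual ℝ F.W, (∑' b : B, φ b.1 • F.uu b.1) g =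
      ∑' b : B, φ b.1 * F.uu b.1 g := by
    intro g
    have h1 := (ContinuousLinearMap.apply ℝ ℝ g).map_tsum hS
    exact h1
  refine ⟨∑' b : B, φ b.1 • F.uu b.1, ?_, ?_, ?_⟩
  · refine (Submodule.isClosed_topologicalClosure _).mem_of_tendsto hS.hasSum ?_
    refine Filter.Eventually.of_forall fun J => ?_
    apply Submodule.le_topologicalClosure
    refine Submodule.sum_mem _ fun b _ => ?_
    exact Submodule.smul_mem _ _ (Submodule.subset_span ⟨b.1, b.2, rfl⟩)
  · intro t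
    rw [hev]
    have h1 : ∀ b : B, φ b.1 * F.uu b.1 (F.cf t) = 0 := by
      intro b
      rw [(hD3 T F b.1 b.2).1 t, mul_zero]
    simp only [h1, tsum_zero]
  · intro b hb
    rw [hev, tsum_eq_single (⟨b, hb⟩ : B)]
    · rw [(hD3 T F b hb).2 b hb, if_pos rfl, mul_one]
    · intro b' hb'
      rw [(hD3 T F b'.1 b'.2).2 b hb, if_neg (fun h => hb' (Subtype.ext h)), mul_zero]

end Pool.Agent.H191W
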