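import Pool.Agent.H191R4.WG.Stubs

set_option autoImplicit false
set_option maxSynthPendingDepth 3

/-! The bidual of `W` is generated by the unit vectors and the elements `uu b`. -/

open scoped ENNReal Topology
open Filter

namespace Pool.Agent.H191W

open Forest

theorem t_F4 (hA8 : A8) (hE11 : E11) (hF1 : F1) (hF2 : F2) (hF3 : F3) : F4 := by
  intro T F
  rw [eq_top_iff]
  rintro ν -
  obtain ⟨w, hw⟩ := hF1 T F ν
  set S : Submodule ℝ (StrongDual ℝ (StrongDual ℝ F.W)) :=
    (Submodule.span ℝ (Set.range (fun t => NormedSpace.inclusionInDoubleDual ℝ F.W (F.e t)) ∪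
      F.uu '' {b | F.IsRBr b})).topologicalClosure with hS
  have hSc : IsClosed (S : Set (StrongDual ℝ (StrongDual ℝ F.W))) :=
    Submodule.isClosed_topologicalClosure _
  have hwS : NormedSpace.inclusionInDoubleDual ℝ F.W w ∈ S := by
    have h1 : (Submodule.span ℝ (Set.range F.e)).topologicalClosure ≤
        S.comap (NormedSpace.inclusionInDoubleDual ℝ F.W : F.W →ₗ[ℝ]
          StrongDual ℝ (StrongDual ℝ F.W)) := by
      refine Submodule.topologicalClosure_minimal _ ?_ ?_
      · rw [Submodule.span_le]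
        rintro _ ⟨t, rfl⟩
        refine Submodule.le_topologicalClosure _ (Submodule.subset_span (Or.inl ⟨t, rfl⟩))
      · exact hSc.preimage (NormedSpace.inclusionInDoubleDual ℝ F.W).continuous
    rw [hA8 T F] at h1
    exact h1 (Submodule.mem_top : w ∈ ⊤)
  set ν1 : StrongDual ℝ (StrongDual ℝ F.W) := ν - NormedSpace.inclusionInDoubleDual ℝ F.W w
    with hν1
  have h0 : ∀ t, ν1 (F.cf t) = 0 := by
    intro t
    show ν (F.cf t) - F.cf t w = 0
    rw [← hw t, cf_apply, sub_self]
  obtain ⟨ν2, hν2, h2c, h2b⟩ := hF3 T F (fun b => ν1 (F.brL b)) (‖ν1‖ ^ 2)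
    (fun J hJ => hF2 T F ν1 h0 J hJ)
  have hν2S : ν2 ∈ S :=
    Submodule.topologicalClosure_mono (Submodule.span_mono Set.subset_union_right) hν2
  have h3 : ∀ g : StrongDual ℝ F.W, (ν1 - ν2) g = 0 := by
    have h4 : (Submodule.span ℝ (Set.range F.cf ∪ F.brL '' {b | F.IsRBr b})).topologicalClosure ≤
        LinearMap.ker ((ν1 - ν2 : StrongDual ℝ (StrongDual ℝ F.W)) :
          StrongDual ℝ F.W →ₗ[ℝ] ℝ) := by
      refine Submodule.topologicalClosure_minimal _ ?_ ?_
      · rw [Submodule.span_le]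
        rintro _ (⟨t, rfl⟩ | ⟨b, hb, rfl⟩)
        · show ν1 (F.cf t) - ν2 (F.cf t) = 0
          rw [h0, h2c, sub_zero]
        · show ν1 (F.brL b) - ν2 (F.brL b) = 0
          rw [h2b b hb, sub_self]
      · exact (ν1 - ν2).isClosed_ker
    rw [hE11 T F] at h4
    intro g
    exact h4 (Submodule.mem_top : g ∈ ⊤)
  have h5 : ν = NormedSpace.inclusionInDoubleDual ℝ F.W w + ν2 := by
    ext g
    have h6 := h3 g
    have h7 : (ν1 - ν2) g = ν g - NormedSpace.inclusionInDoubleDual ℝ F.W w g - ν2 g := rfl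
    rw [h7] at h6
    show ν g = NormedSpace.inclusionInDoubleDual ℝ F.W w g + ν2 g
    linarith
  rw [h5]
  exact S.add_mem hwS hν2S

end Pool.Agent.H191W
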