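import Pool.Agent.H191R4.WG.Stubs

/-! Task G1 (helper605). -/

set_option autoImplicit false
set_option maxSynthPendingDepth 3

namespace Pool.Agent.H191W

theorem t_G1 : G1 := by
  have h1 : Cardinal.mk (ℕ → ℕ) = Cardinal.continuum := by
    rw [← Cardinal.power_def, Cardinal.mk_nat, Cardinal.aleph0_power_aleph0]
  have h2 : Cardinal.mk ((ℕ → ℕ) × ℕ) = Cardinal.continuum := by
    rw [Cardinal.mk_prod, Cardinal.lift_id, Cardinal.lift_id, h1, Cardinal.mk_nat,
      Cardinal.continuum_mul_aleph0]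
  have h3 : Cardinal.mk (List ((ℕ → ℕ) × ℕ)) = Cardinal.continuum := by
    rw [Cardinal.mk_list_eq_mk, h2]
  have h4 : Cardinal.mk (ℕ → List ((ℕ → ℕ) × ℕ)) = Cardinal.continuum := by
    rw [← Cardinal.power_def, h3, Cardinal.mk_nat, Cardinal.continuum_power_aleph0]
  obtain ⟨e⟩ := Cardinal.eq.1 (h1.trans h4.symm)
  exact ⟨e, e.surjective⟩

end Pool.Agent.H191W
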