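import Pool.Agent.H191R4.WG.Stubs

/-! Task G2 (helper605). -/

set_option autoImplicit false
set_option maxSynthPendingDepth 3

namespace Pool.Agent.H191W

theorem t_G2 : G2 := by
  intro G Φ w
  unfold XX
  rw [Submodule.mem_iInf]
  constructor
  · intro h γ k
    have h1 := h (γ, k)
    rw [LinearMap.mem_ker] at h1
    have h2 : (mkForest Φ).brL (line γ k) w - (1 / 2 : ℝ) ^ k * (mkForest Φ).brL (line γ 0) w = 0 :=
      h1
    linarith
  · rintro h ⟨γ, k⟩
    rw [LinearMap.mem_ker]
    have h1 := h γ k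
    change (mkForest Φ).brL (line γ k) w - (1 / 2 : ℝ) ^ k * (mkForest Φ).brL (line γ 0) w = 0
    linarith

end Pool.Agent.H191W
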