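import Pool.Agent.H191R4.WG.Stubs

set_option autoImplicit false
set_option maxSynthPendingDepth 3

open scoped ENNReal Topology
open Filter

namespace Pool.Agent.H191W

open Forest

theorem g3_isBr {G : Type} (Φ : G → ℕ → List (G × ℕ)) (γ : G) (k : ℕ) :
    (mkForest Φ).IsBr (line γ k) := fun _ => rfl

theorem g3_anc_le {G : Type} (Φ : G → ℕ → List (G × ℕ)) (γ : G) (k i : ℕ) :
    ∀ m, m ≤ i → (mkForest Φ).anc (γ, k, i) m = some (γ, k, i - m) := by
  intro m
  induction m with
  | zero => intro _; rfl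
  | succ m ih =>
    intro hm
    have h1 := ih (by omega)
    show ((mkForest Φ).anc (γ, k, i) m).bind (mkForest Φ).par = _
    rw [h1]
    show (mkForest Φ).par (γ, k, i - m) = _
    obtain ⟨j, hj⟩ : ∃ j, i - m = j + 1 := ⟨i - m - 1, by omega⟩
    rw [hj]
    have : i - (m + 1) = j := by omega
    rw [this]
    rfl

theorem g3_anc_add {G : Type} (Φ : G → ℕ → List (G × ℕ)) (γ : G) (k i : ℕ) :
    ∀ r, (mkForest Φ).anc (γ, k, i) (i + r) = (mkForest Φ).anc (γ, k, 0) r := by
  intro r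
  induction r with
  | zero =>
    rw [add_zero, g3_anc_le Φ γ k i i le_rfl, Nat.sub_self]
    rfl
  | succ r ih =>
    show ((mkForest Φ).anc (γ, k, i) (i + r)).bind (mkForest Φ).par = _
    rw [ih]
    rfl

theorem t_G3 (hL1 : L1) : G3 := by
  intro G Φ γ γ' k k'
  refine ⟨g3_isBr Φ γ k, fun hne => ⟨?_, ?_⟩⟩
  · rw [Set.disjoint_left]
    rintro t ⟨i, rfl⟩ ⟨j, hj⟩
    simp only [line, Prod.mk.injEq] at hj
    exact hne (by rw [hj.1, hj.2.1])
  · filter_upwards [eventually_gt_atTop ((mkForest Φ).lev (γ', k', 0))] with i hi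
    rintro ⟨m, hm⟩
    simp only [line] at hm
    rcases le_or_gt m i with h | h
    · rw [g3_anc_le Φ γ' k' i m h] at hm
      simp only [Option.some.injEq, Prod.mk.injEq] at hm
      exact hne (by rw [hm.1, hm.2.1])
    · obtain ⟨r, rfl⟩ : ∃ r, m = i + r := ⟨m - i, by omega⟩
      rw [g3_anc_add] at hm
      have h1 := hL1 _ (mkForest Φ) _ _ _ hm
      have h2 : (mkForest Φ).lev (γ, k, i) =
        baseLev Φ k (Φ γ k).length γ + i := rfl
      omega

end Pool.Agent.H191W
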