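import Pool.Agent.H191R4.WG.Stubs

set_option autoImplicit false
set_option maxSynthPendingDepth 3

open scoped ENNReal Topology
open Filter

namespace Pool.Agent.H191W

open Forest

open Classical in
theorem t_G4_brL (hA5 : A5) (hB1 : B1) {G : Type} (Φ : G → ℕ → List (G × ℕ))
    (hbr : ∀ γ k, (mkForest Φ).IsBr (line γ k)) (γ' : G) (k' : ℕ) (γ : G) (k i : ℕ) :
    (mkForest Φ).brL (line γ' k') ((mkForest Φ).e (γ, k, i)) =
      if γ' = γ ∧ k' = k then 1 else 0 := by
  have h1 := hB1 _ (mkForest Φ) (line γ' k') (hbr γ' k') ((mkForest Φ).e (γ, k, i))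
  have h2 : ∀ᶠ n in atTop, ∑ j ∈ Finset.range n,
      (mkForest Φ).coord ((mkForest Φ).e (γ, k, i)) (line γ' k' j) =
        if γ' = γ ∧ k' = k then 1 else 0 := by
    filter_upwards [eventually_gt_atTop i] with n hn
    have h3 : ∀ j ∈ Finset.range n, (mkForest Φ).coord ((mkForest Φ).e (γ, k, i)) (line γ' k' j) =
        if j = i then (if γ' = γ ∧ k' = k then (1 : ℝ) else 0) else 0 := by
      intro j _
      rw [(hA5 _ (mkForest Φ) (γ, k, i)).1]
      unfold line
      simp only [Prod.mk.injEq]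
      by_cases h4 : j = i
      · simp [h4]
      · simp [h4]
    rw [Finset.sum_congr rfl h3, Finset.sum_ite_eq']
    simp [hn]
  exact tendsto_nhds_unique h1 (tendsto_const_nhds.congr' (h2.mono fun _ h => h.symm))

theorem t_G4 (hA4 : A4) (hA5 : A5) (hB1 : B1) (hG2 : G2) (hG3 : G3) : G4 := by
  classical
  intro G Φ γ
  have hbr : ∀ γ k, (mkForest Φ).IsBr (line γ k) := fun γ k => (hG3 G Φ γ γ k k).1
  have hv := t_G4_brL hA5 hB1 Φ hbr
  haveI : CompleteSpace (mkForest Φ).W := hA4 _ (mkForest Φ)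
  constructor
  · intro k i j
    rw [hG2]
    intro γ' k'
    rw [map_sub, map_sub, hv, hv, hv, hv]
    simp
  · have hsum : Summable (fun k : ℕ => (1 / 2 : ℝ) ^ k • (mkForest Φ).e (γ, k, 0)) := by
      refine Summable.of_norm_bounded (g := fun k : ℕ => (1 / 2 : ℝ) ^ k)
        (summable_geometric_of_lt_one (by norm_num) (by norm_num)) fun k => ?_
      rw [norm_smul, norm_pow]
      have := (hA5 _ (mkForest Φ) (γ, k, 0)).2
      calc ‖(1 / 2 : ℝ)‖ ^ k * ‖(mkForest Φ).e (γ, k, 0)‖ ≤ ‖(1 / 2 : ℝ)‖ ^ k * 1 :=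
            mul_le_mul_of_nonneg_left this (by positivity)
        _ = (1 / 2 : ℝ) ^ k := by
            rw [mul_one, Real.norm_of_nonneg (by norm_num)]
    have hb : ∀ γ' k, (mkForest Φ).brL (line γ' k)
        (∑' k : ℕ, (1 / 2 : ℝ) ^ k • (mkForest Φ).e (γ, k, 0)) =
        if γ' = γ then (1 / 2 : ℝ) ^ k else 0 := by
      intro γ' k
      have h1 := hsum.hasSum.mapL ((mkForest Φ).brL (line γ' k))
      have h2 : HasSum (fun j : ℕ => (mkForest Φ).brL (line γ' k)
          ((1 / 2 : ℝ) ^ j • (mkForest Φ).e (γ, j, 0))) (if γ' = γ then (1 / 2 : ℝ) ^ k else 0) := by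
        have h3 : (fun j : ℕ => (mkForest Φ).brL (line γ' k)
            ((1 / 2 : ℝ) ^ j • (mkForest Φ).e (γ, j, 0))) =
            fun j => if j = k then (if γ' = γ then (1 / 2 : ℝ) ^ k else 0) else 0 := by
          funext j
          rw [map_smul, hv, smul_eq_mul]
          by_cases h4 : j = k
          · subst h4; simp
          · simp [h4, Ne.symm h4, fun h : k = j => h4 h.symm]
        rw [h3]
        exact hasSum_ite_eq k _
      exact h1.unique h2
    refine ⟨_, ?_, hsum.hasSum, hb⟩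
    rw [hG2]
    intro γ' k
    rw [hb, hb]
    by_cases h : γ' = γ <;> simp [h]

end Pool.Agent.H191W
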