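import Pool.Agent.H191R4.WG.Stubs

set_option autoImplicit false
set_option maxSynthPendingDepth 3
set_option synthInstance.maxHeartbeats 400000

open scoped ENNReal Topology
open Filter

namespace Pool.Agent.H191W

open Forest

theorem t_G6 (hD2 : D2) (hG3 : G3) : G6 := by
  classical
  intro G Φ
  have hbd : ∀ (g : StrongDual ℝ (mkForest Φ).W) (J : Finset (G × ℕ)),
      ∑ a ∈ J, ‖(mkForest Φ).uu (line a.1 a.2) g‖ ^ (2 : ℝ≥0∞).toReal ≤
        ‖g‖ ^ (2 : ℝ≥0∞).toReal := by
    intro g J
    have h1 := (hD2 (G × ℕ × ℕ) (mkForest Φ) (G × ℕ) J (fun a => line a.1 a.2)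
      (fun a _ c _ hac => ((hG3 G Φ a.1 c.1 a.2 c.2).2 hac).2)).1 g
    have h2 : (2 : ℝ≥0∞).toReal = 2 := by simp
    rw [h2]
    simp only [Real.rpow_two, Real.norm_eq_abs, sq_abs]
    exact h1
  let f : StrongDual ℝ (mkForest Φ).W →ₗ[ℝ] lp (fun _ : G × ℕ => ℝ) 2 :=
    { toFun := fun g => ⟨fun a => (mkForest Φ).uu (line a.1 a.2) g, memℓp_gen' (hbd g)⟩
      map_add' := by
        intro v w
        apply lp.ext
        funext a
        exact map_add _ v w
      map_smul' := by
        intro c w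
        apply lp.ext
        funext a
        exact map_smul _ c w }
  refine ⟨f.mkContinuous 1 ?_, ?_⟩
  · intro w
    rw [one_mul]
    exact lp.norm_le_of_forall_sum_le (by simp) (norm_nonneg _) (hbd w)
  · intro w γ k
    rfl

end Pool.Agent.H191W
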