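import Pool.Agent.H191R4.WG.Stubs

set_option autoImplicit false
set_option maxSynthPendingDepth 3

open scoped ENNReal Topology
open Filter

namespace Pool.Agent.H191W

/-- The space of all `u` with `u (γ, k) = 2^(-k) u (γ, 0)`. -/
noncomputable def g7V (G : Type) : Submodule ℝ (lp (fun _ : G × ℕ => ℝ) 2) where
  carrier := {u | ∀ γ k, u (γ, k) = (1 / 2 : ℝ) ^ k * u (γ, 0)}
  add_mem' := by
    intro u v hu hv γ k
    show u (γ, k) + v (γ, k) = (1 / 2 : ℝ) ^ k * (u (γ, 0) + v (γ, 0))
    rw [hu γ k, hv γ k]; ring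
  zero_mem' := by
    intro γ k
    show (0 : ℝ) = (1 / 2 : ℝ) ^ k * 0
    ring
  smul_mem' := by
    intro c u hu γ k
    show c * u (γ, k) = (1 / 2 : ℝ) ^ k * (c * u (γ, 0))
    rw [hu γ k]; ring

theorem t_G7 : G7 := by
  intro G
  refine ⟨(g7V G)ᗮ.starProjection, ?_, ?_⟩
  · intro v u hu
    have hmem : (g7V G)ᗮ.starProjection v ∈ (g7V G)ᗮ := Submodule.starProjection_apply_mem _ _
    have hu' : u ∈ g7V G := hu
    rw [real_inner_comm]
    exact (Submodule.mem_orthogonal _ _).1 hmem u hu'
  · intro v hv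
    rw [Submodule.starProjection_eq_self_iff, Submodule.mem_orthogonal]
    intro u hu
    have h1 := lp.hasSum_inner (𝕜 := ℝ) u v
    have h2 : HasSum (fun _ : G => (0 : ℝ)) (inner ℝ u v) := by
      refine h1.prod_fiberwise fun γ => ?_
      have h3 := (hv γ).mul_left (u (γ, 0))
      rw [mul_zero] at h3
      refine h3.congr_fun ?_
      intro k
      have := hu γ k
      simp only [RCLike.inner_apply, conj_trivial]
      rw [this]
      ring
    exact h2.unique hasSum_zero

end Pool.Agent.H191W
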