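import Pool.Agent.H191R4.WG.Stubs

/-! Task G9: the bidual of `X` is WCG. -/

set_option autoImplicit false
set_option maxSynthPendingDepth 3

open scoped ENNReal Topology
open Filter

namespace Pool.Agent.H191W

open Forest

theorem G9_fin {ι : Type} (f : ι → ℝ) (P : Set ι) (C : ℝ)
    (h : ∀ J : Finset ι, (∀ i ∈ J, i ∈ P) → ∑ i ∈ J, (f i) ^ 2 ≤ C) (ε : ℝ) (hε : 0 < ε) :
    {i | i ∈ P ∧ ε ≤ |f i|}.Finite := by
  by_contra hinf
  obtain ⟨n, hn⟩ := exists_nat_gt (C / ε ^ 2)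
  obtain ⟨J, hJ, hc⟩ := Set.Infinite.exists_subset_card_eq hinf n
  have h1 := h J (fun i hi => (hJ hi).1)
  have h2 : ∑ i ∈ J, ε ^ 2 ≤ ∑ i ∈ J, (f i) ^ 2 := by
    refine Finset.sum_le_sum fun i hi => ?_
    have h3 := (hJ hi).2
    rw [← sq_abs (f i)]
    exact pow_le_pow_left₀ hε.le h3 2
  rw [Finset.sum_const, hc, nsmul_eq_mul] at h2
  rw [div_lt_iff₀ (by positivity)] at hn
  linarith

/-- Bessel type inequality for a functional -/
theorem G9_bessel {Z ι : Type} [NormedAddCommGroup Z] [NormedSpace ℝ Z] (J : Finset ι) (u : ι → Z)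
    (h : ∀ c : ι → ℝ, ‖∑ a ∈ J, c a • u a‖ ^ 2 ≤ ∑ a ∈ J, (c a) ^ 2) (ψ : StrongDual ℝ Z) :
    ∑ a ∈ J, (ψ (u a)) ^ 2 ≤ ‖ψ‖ ^ 2 := by
  set s := ∑ a ∈ J, (ψ (u a)) ^ 2 with hs
  have hs0 : 0 ≤ s := Finset.sum_nonneg fun _ _ => sq_nonneg _
  have h1 := h (fun a => ψ (u a))
  rw [← hs] at h1
  have h2 : ψ (∑ a ∈ J, ψ (u a) • u a) = s := by
    rw [map_sum, hs]
    refine Finset.sum_congr rfl fun a _ => ?_
    rw [map_smul, smul_eq_mul, sq]
  have h3 : s ≤ ‖ψ‖ * ‖∑ a ∈ J, ψ (u a) • u a‖ := by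
    rw [← h2]
    exact (le_abs_self _).trans (ψ.le_opNorm _)
  have h4 : s ^ 2 ≤ ‖ψ‖ ^ 2 * s := by
    calc s ^ 2 ≤ (‖ψ‖ * ‖∑ a ∈ J, ψ (u a) • u a‖) ^ 2 := pow_le_pow_left₀ hs0 h3 2
      _ = ‖ψ‖ ^ 2 * ‖∑ a ∈ J, ψ (u a) • u a‖ ^ 2 := by ring
      _ ≤ ‖ψ‖ ^ 2 * s := mul_le_mul_of_nonneg_left h1 (sq_nonneg _)
  rcases hs0.eq_or_lt with h0 | h0
  · rw [← h0]; positivity
  · by_contra hlt
    have : ‖ψ‖ ^ 2 < s := not_le.1 hlt
    nlinarith

theorem G9_tendsto {ι : Type} (f : ι → ℝ) (h : ∀ ε : ℝ, 0 < ε → {i | ε ≤ |f i|}.Finite) :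
    Tendsto f cofinite (𝓝 0) := by
  rw [Metric.tendsto_nhds]
  intro ε hε
  rw [Filter.eventually_cofinite]
  refine (h ε hε).subset ?_
  intro i hi
  simp only [Set.mem_setOf_eq, dist_zero_right, Real.norm_eq_abs, not_lt] at hi
  exact hi

/-- The general statement. -/
theorem G9_gen (hC4 : C4) (hD2 : D2) (hD4 : D4) (hF4 : F4) (hH1 : H1) (hL1 : L1)
    (T : Type) (F : Forest T) (Z : Type) [NormedAddCommGroup Z] [NormedSpace ℝ Z]
    (E : StrongDual ℝ (StrongDual ℝ F.W) →L[ℝ] Z) (hE : Function.Surjective E) : IsWCG Z := by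
  let z : T ⊕ {b : ℕ → T // F.IsRBr b} → Z := fun i =>
    Sum.elim (fun t => ((1 / 2 : ℝ) ^ F.lev t) •
      E (NormedSpace.inclusionInDoubleDual ℝ F.W (F.e t))) (fun b => E (F.uu b.1)) i
  refine hH1 Z (T ⊕ {b : ℕ → T // F.IsRBr b}) z ?_ ?_
  · intro φ
    have hinl : ∀ ε : ℝ, 0 < ε → {t : T | ε ≤ |φ (z (Sum.inl t))|}.Finite := by
      intro ε hε
      set g : F.W →L[ℝ] ℝ := (φ.comp E).comp (NormedSpace.inclusionInDoubleDual ℝ F.W) with hg
      have hz : ∀ t, φ (z (Sum.inl t)) = (1 / 2 : ℝ) ^ F.lev t * g (F.e t) := by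
        intro t
        show φ (((1 / 2 : ℝ) ^ F.lev t) • E (NormedSpace.inclusionInDoubleDual ℝ F.W (F.e t))) = _
        rw [map_smul, smul_eq_mul]
        rfl
      have hanti : ∀ n (J : Finset T), (∀ t ∈ J, t ∈ {t | F.lev t = n}) →
          ∑ t ∈ J, (g (F.e t)) ^ 2 ≤ ‖g‖ ^ 2 := by
        intro n J hJ
        refine hC4 T F J ?_ g
        rintro a ha b hb hab ⟨i, hi⟩
        have h1 := hL1 T F b a i hi
        have h2 : F.lev a = n := hJ a ha
        have h3 : F.lev b = n := hJ b hb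
        have h4 : i = 0 := by omega
        rw [h4] at hi
        simp only [Forest.anc, Option.some.injEq] at hi
        exact hab hi.symm
      have h1 : ∀ t, |g (F.e t)| ≤ ‖g‖ := by
        intro t
        have h2 := hanti (F.lev t) {t} (fun s hs => by
          rw [Finset.mem_singleton] at hs; rw [hs]; rfl)
        rw [Finset.sum_singleton] at h2
        exact abs_le_of_sq_le_sq h2 (norm_nonneg _)
      obtain ⟨N, hN⟩ := exists_pow_lt_of_lt_one (div_pos hε (by positivity : 0 < ‖g‖ + 1))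
        (by norm_num : (1 / 2 : ℝ) < 1)
      have hfin : (⋃ n ∈ Finset.range N, {t | t ∈ {t | F.lev t = n} ∧ ε ≤ |g (F.e t)|}).Finite := by
        refine Set.Finite.biUnion (Finset.finite_toSet _) fun n _ => ?_
        exact G9_fin (fun t => g (F.e t)) {t | F.lev t = n} (‖g‖ ^ 2) (hanti n) ε hε
      refine hfin.subset ?_
      intro t ht
      simp only [Set.mem_setOf_eq] at ht
      rw [hz, abs_mul, abs_of_pos (by positivity : (0 : ℝ) < (1 / 2 : ℝ) ^ F.lev t)] at ht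
      have hlev : F.lev t < N := by
        by_contra hge
        have h2 : (1 / 2 : ℝ) ^ F.lev t ≤ (1 / 2 : ℝ) ^ N :=
          pow_le_pow_of_le_one (by norm_num) (by norm_num) (not_lt.1 hge)
        have h3 : (1 / 2 : ℝ) ^ F.lev t * |g (F.e t)| ≤ (1 / 2 : ℝ) ^ N * (‖g‖ + 1) :=
          mul_le_mul h2 ((h1 t).trans (by linarith)) (abs_nonneg _) (by positivity)
        have h4 : (1 / 2 : ℝ) ^ N * (‖g‖ + 1) < ε := by
          rwa [lt_div_iff₀ (by positivity)] at hN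
        linarith
      simp only [Set.mem_iUnion]
      refine ⟨F.lev t, Finset.mem_range.2 hlev, rfl, ?_⟩
      have h2 : (1 / 2 : ℝ) ^ F.lev t ≤ 1 := pow_le_one₀ (by norm_num) (by norm_num)
      have h3 : (1 / 2 : ℝ) ^ F.lev t * |g (F.e t)| ≤ 1 * |g (F.e t)| :=
        mul_le_mul_of_nonneg_right h2 (abs_nonneg _)
      linarith
    have hinr : ∀ ε : ℝ, 0 < ε →
        {b : {b : ℕ → T // F.IsRBr b} | ε ≤ |φ (z (Sum.inr b))|}.Finite := by
      intro ε hε
      have h1 := G9_fin (fun b : {b : ℕ → T // F.IsRBr b} => φ (z (Sum.inr b))) Set.univ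
        (‖φ.comp E‖ ^ 2) (by
          intro J _
          have h2 := (hD2 T F {b : ℕ → T // F.IsRBr b} J (fun b => b.1) (by
            intro a _ c _ hac
            obtain ⟨n, hn, -⟩ := hD4 T F a.1 c.1 a.2 c.2 (fun h => hac (Subtype.ext h))
            exact eventually_atTop.2 ⟨n, hn⟩)).2
          exact G9_bessel J (fun b => F.uu b.1) h2 (φ.comp E)) ε hε
      refine h1.subset ?_
      intro b hb
      exact ⟨trivial, hb⟩
    apply G9_tendsto
    intro ε hε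
    have h1 : {i | ε ≤ |φ (z i)|} ⊆ Sum.inl '' {t : T | ε ≤ |φ (z (Sum.inl t))|} ∪
        Sum.inr '' {b : {b : ℕ → T // F.IsRBr b} | ε ≤ |φ (z (Sum.inr b))|} := by
      rintro (t | b) hi
      · exact Or.inl ⟨t, hi, rfl⟩
      · exact Or.inr ⟨b, hi, rfl⟩
    exact (((hinl ε hε).image _).union ((hinr ε hε).image _)).subset h1
  · have hd := hF4 T F
    set S : Set (StrongDual ℝ (StrongDual ℝ F.W)) :=
      Set.range (fun t => NormedSpace.inclusionInDoubleDual ℝ F.W (F.e t)) ∪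
        F.uu '' {b | F.IsRBr b} with hS
    have h1 : ∀ x ∈ Submodule.span ℝ S, E x ∈ Submodule.span ℝ (Set.range z) := by
      intro x hx
      induction hx using Submodule.span_induction with
      | mem x hx =>
        rcases hx with ⟨t, rfl⟩ | ⟨b, hb, rfl⟩
        · have h2 : E (NormedSpace.inclusionInDoubleDual ℝ F.W (F.e t)) =
              ((2 : ℝ) ^ F.lev t) • z (Sum.inl t) := by
            show _ = ((2 : ℝ) ^ F.lev t) • (((1 / 2 : ℝ) ^ F.lev t) •
              E (NormedSpace.inclusionInDoubleDual ℝ F.W (F.e t)))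
            rw [smul_smul, ← mul_pow]
            norm_num
          show E (NormedSpace.inclusionInDoubleDual ℝ F.W (F.e t)) ∈ _
          rw [h2]
          exact Submodule.smul_mem _ _ (Submodule.subset_span ⟨_, rfl⟩)
        · exact Submodule.subset_span ⟨Sum.inr ⟨b, hb⟩, rfl⟩
      | zero => rw [map_zero]; exact Submodule.zero_mem _
      | add x y _ _ hx hy => rw [map_add]; exact Submodule.add_mem _ hx hy
      | smul c x _ hx => rw [map_smul]; exact Submodule.smul_mem _ _ hx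
    rw [eq_top_iff]
    rintro y -
    obtain ⟨x, rfl⟩ := hE y
    have hx : x ∈ (Submodule.span ℝ S).topologicalClosure := by rw [hd]; trivial
    have hx' : x ∈ closure (Submodule.span ℝ S : Set (StrongDual ℝ (StrongDual ℝ F.W))) := hx
    show E x ∈ closure (Submodule.span ℝ (Set.range z) : Set Z)
    exact map_mem_closure E.continuous hx' h1

theorem G9_dual {A B : Type} [NormedAddCommGroup A] [NormedSpace ℝ A] [NormedAddCommGroup B]
    [NormedSpace ℝ B] (i : B →L[ℝ] A) (D : StrongDual ℝ B →L[ℝ] StrongDual ℝ A)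
    (hD : ∀ f x, D f (i x) = f x) :
    ∃ E : StrongDual ℝ (StrongDual ℝ A) →L[ℝ] StrongDual ℝ (StrongDual ℝ B),
      Function.Surjective E := by
  let E : StrongDual ℝ (StrongDual ℝ A) →L[ℝ] StrongDual ℝ (StrongDual ℝ B) :=
    (ContinuousLinearMap.compL ℝ (StrongDual ℝ B) (StrongDual ℝ A) ℝ).flip D
  let ρ : StrongDual ℝ A →L[ℝ] StrongDual ℝ B :=
    (ContinuousLinearMap.compL ℝ B A ℝ).flip i
  refine ⟨E, fun ξ => ⟨ξ.comp ρ, ?_⟩⟩
  apply ContinuousLinearMap.ext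
  intro f
  have h1 : ρ (D f) = f := by
    apply ContinuousLinearMap.ext
    intro x
    exact hD f x
  have h2 : E (ξ.comp ρ) f = ξ (ρ (D f)) := rfl
  rw [h2, h1]

theorem t_G9 (hC4 : C4) (hD2 : D2) (hD4 : D4) (hF4 : F4) (hG8 : G8) (hH1 : H1) (hL1 : L1) :
    G9 := by
  intro G Φ
  obtain ⟨D, hD⟩ := hG8 G Φ
  obtain ⟨E, hE⟩ := G9_dual (XX Φ).subtypeL D hD
  exact G9_gen hC4 hD2 hD4 hF4 hH1 hL1 _ (mkForest Φ) _ E hE

end Pool.Agent.H191W
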