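import Pool.Agent.H191R4.WG.Stubs

set_option autoImplicit false
set_option maxSynthPendingDepth 3

open scoped ENNReal Topology
open Filter

namespace Pool.Agent.H191W

theorem t_H1 : H1 := by
  intro Z _ _ ι z hz hspan
  refine ⟨insert 0 (Set.range z), ?_, ?_⟩
  · have h1 : toWeakSpace ℝ Z '' (insert 0 (Set.range z)) =
        insert (toWeakSpace ℝ Z 0) (Set.range fun i => toWeakSpace ℝ Z (z i)) := by
      rw [Set.image_insert_eq]
      congr 1
      ext x
      simp
    rw [h1]
    refine Filter.Tendsto.isCompact_insert_range_of_cofinite ?_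
    have hind : Topology.IsInducing fun (x : WeakSpace ℝ Z) (f : StrongDual ℝ Z) =>
        f ((toWeakSpace ℝ Z).symm x) := ⟨rfl⟩
    rw [hind.tendsto_nhds_iff, tendsto_pi_nhds]
    intro f
    show Filter.Tendsto (fun i => f (z i)) Filter.cofinite (nhds (f 0))
    rw [map_zero]
    exact hz f
  · refine top_unique ?_
    rw [← hspan]
    exact Submodule.topologicalClosure_mono (Submodule.span_mono (Set.subset_insert _ _))

end Pool.Agent.H191W
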