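import Pool.Agent.H191R4.WG.Stubs

set_option autoImplicit false
set_option maxSynthPendingDepth 3

open scoped ENNReal Topology
open Filter

namespace Pool.Agent.H191W

open Forest

theorem t_H2 : H2 := by
  intro Z _ _ hZ
  obtain ⟨K, hK, hcl⟩ := hZ
  let P : ℕ → ℕ → Set Z := fun n m =>
    {x | ∃ c : Fin n → ℝ, (∀ i, c i ∈ Set.Icc (-(m : ℝ)) m) ∧
      ∃ k : Fin n → Z, (∀ i, k i ∈ K) ∧ ∑ i, c i • k i = x}
  have hP : ∀ n m, IsCompact (toWeakSpace ℝ Z '' P n m) := by
    intro n m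
    have hc1 : IsCompact (Set.pi Set.univ (fun _ : Fin n => Set.Icc (-(m : ℝ)) m)) :=
      isCompact_univ_pi fun _ => isCompact_Icc
    have hc2 : IsCompact (Set.pi Set.univ (fun _ : Fin n => toWeakSpace ℝ Z '' K)) :=
      isCompact_univ_pi fun _ => hK
    have hcont : Continuous (fun q : (Fin n → ℝ) × (Fin n → WeakSpace ℝ Z) =>
        ∑ i, q.1 i • q.2 i) := by
      refine continuous_finsetSum _ fun i _ => ?_
      exact ((continuous_apply i).comp continuous_fst).smul
        ((continuous_apply i).comp continuous_snd)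
    have himg := (hc1.prod hc2).image hcont
    convert himg using 1
    ext y
    constructor
    · rintro ⟨x, ⟨c, hc, k, hk, rfl⟩, rfl⟩
      refine ⟨(c, fun i => toWeakSpace ℝ Z (k i)), ⟨?_, ?_⟩, ?_⟩
      · intro i _
        exact hc i
      · intro i _
        exact ⟨k i, hk i, rfl⟩
      · show ∑ i, c i • toWeakSpace ℝ Z (k i) = toWeakSpace ℝ Z (∑ i, c i • k i)
        rw [map_sum]
        simp only [map_smul]
    · rintro ⟨⟨c, k⟩, ⟨hc, hk⟩, rfl⟩
      choose k' hk' hk'' using fun i => hk i (Set.mem_univ i)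
      refine ⟨∑ i, c i • k' i, ⟨c, fun i => hc i (Set.mem_univ i), k', hk', rfl⟩, ?_⟩
      rw [map_sum]
      refine Finset.sum_congr rfl fun i _ => ?_
      rw [map_smul, hk'']
  refine ⟨fun k => P (Nat.unpair k).1 (Nat.unpair k).2, fun k => hP _ _, ?_⟩
  intro x ε hε
  have hx : x ∈ closure ((Submodule.span ℝ K : Submodule ℝ Z) : Set Z) := by
    have : x ∈ (Submodule.span ℝ K).topologicalClosure := by
      rw [hcl]
      trivial
    exact this
  obtain ⟨y, hy, hxy⟩ := Metric.mem_closure_iff.1 hx ε hε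
  obtain ⟨n, f, g, hfg⟩ := Submodule.mem_span_set'.1 hy
  obtain ⟨m, hm⟩ := exists_nat_ge (∑ i, |f i|)
  refine ⟨Nat.pair n m, y, ?_, ?_⟩
  · show y ∈ P (Nat.unpair (Nat.pair n m)).1 (Nat.unpair (Nat.pair n m)).2
    rw [Nat.unpair_pair]
    refine ⟨f, ?_, fun i => (g i : Z), fun i => (g i).2, hfg⟩
    intro i
    have h1 : |f i| ≤ ∑ i, |f i| :=
      Finset.single_le_sum (f := fun i => |f i|) (fun i _ => abs_nonneg (f i)) (Finset.mem_univ i)
    exact abs_le.1 (h1.trans hm)
  · rw [← dist_eq_norm]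
    exact hxy

end Pool.Agent.H191W
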