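import Pool.Agent.H191R4.WG.Stubs

set_option autoImplicit false
set_option maxSynthPendingDepth 3

open scoped ENNReal Topology
open Filter

namespace Pool.Agent.H191W

theorem t_H3 : H3 := by
  intro Z _ _ K hK
  have h1 : ∀ f : StrongDual ℝ Z, ∃ C : ℝ, ∀ x : K,
      ‖(NormedSpace.inclusionInDoubleDual ℝ Z (x : Z)) f‖ ≤ C := by
    intro f
    have hcont : Continuous fun x : WeakSpace ℝ Z => (topDualPairing ℝ Z).flip x f :=
      WeakBilin.eval_continuous _ f
    have h2 := hK.image hcont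
    obtain ⟨C, hC⟩ := h2.isBounded.exists_norm_le
    refine ⟨C, fun x => ?_⟩
    apply hC
    exact ⟨toWeakSpace ℝ Z x, ⟨x, x.2, rfl⟩, rfl⟩
  obtain ⟨C, hC⟩ := banach_steinhaus h1
  refine ⟨C, fun x hx => ?_⟩
  have h3 := hC ⟨x, hx⟩
  have h4 : ‖NormedSpace.inclusionInDoubleDual ℝ Z x‖ = ‖x‖ :=
    (NormedSpace.inclusionInDoubleDualLi ℝ (E := Z)).norm_map x
  rw [h4] at h3
  exact h3

end Pool.Agent.H191W
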