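import Pool.Agent.H191R4.WG.Stubs

set_option autoImplicit false
set_option maxSynthPendingDepth 3

open scoped ENNReal Topology
open Filter

namespace Pool.Agent.H191W

theorem t_H4 : H4 := by
  intro Z _ _ K hK x y hx hy
  have hK2 := hK.prod hK
  set u : ℕ → WeakSpace ℝ Z × WeakSpace ℝ Z := fun n => (toWeakSpace ℝ Z (x n), toWeakSpace ℝ Z (y n)) with hu
  have hle : Filter.map u atTop ≤ 𝓟 ((toWeakSpace ℝ Z '' K) ×ˢ (toWeakSpace ℝ Z '' K)) := by
    rw [Filter.le_principal_iff]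
    refine Filter.mem_map.mpr (Filter.Eventually.of_forall fun n => ?_)
    exact ⟨⟨x n, hx n, rfl⟩, ⟨y n, hy n, rfl⟩⟩
  obtain ⟨p, hp, hc⟩ := hK2 hle
  refine ⟨(toWeakSpace ℝ Z).symm p.1 - (toWeakSpace ℝ Z).symm p.2, ?_⟩
  intro f c ⟨n0, hn0⟩
  have hcont : Continuous fun w : WeakSpace ℝ Z => f ((toWeakSpace ℝ Z).symm w) :=
    WeakBilin.eval_continuous (topDualPairing ℝ Z).flip f
  have hC : IsClosed {q : WeakSpace ℝ Z × WeakSpace ℝ Z |
      c ≤ f ((toWeakSpace ℝ Z).symm q.1) - f ((toWeakSpace ℝ Z).symm q.2)} :=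
    isClosed_le continuous_const ((hcont.comp continuous_fst).sub (hcont.comp continuous_snd))
  have hle2 : Filter.map u atTop ≤ 𝓟 {q : WeakSpace ℝ Z × WeakSpace ℝ Z |
      c ≤ f ((toWeakSpace ℝ Z).symm q.1) - f ((toWeakSpace ℝ Z).symm q.2)} := by
    rw [Filter.le_principal_iff]
    refine Filter.mem_map.mpr ?_
    filter_upwards [eventually_ge_atTop n0] with n hn
    have := hn0 n hn
    rw [map_sub] at this
    simpa [hu] using this
  have hmem := isClosed_iff_clusterPt.mp hC p (hc.mono hle2)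
  rw [map_sub]
  exact hmem

end Pool.Agent.H191W
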