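import Pool.Agent.H191R4.WG.Stubs

set_option autoImplicit false
set_option maxSynthPendingDepth 3

open scoped ENNReal Topology
open Filter

namespace Pool.Agent.H191W

open Forest

theorem t_I1 : I1 := by
  intro G _ Φ hΦ n
  by_contra hcon
  push Not at hcon
  -- for all N k there is F with a finite set
  have h1 : ∀ N k, ∃ F : List (G × ℕ), {γ | n γ = N ∧ Φ γ k = F}.Finite := by
    intro N k
    obtain ⟨F, hF⟩ := hcon N k
    exact ⟨F, hF⟩
  choose F hF using h1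
  have h2 : ∀ N, ∃ L : List (G × ℕ), ∀ γ, n γ = N → Φ γ (2 * N) = F N (2 * N) →
      Φ γ (2 * N + 1) ≠ L := by
    intro N
    have hfin : ((fun γ => Φ γ (2 * N + 1)) '' {γ | n γ = N ∧ Φ γ (2 * N) = F N (2 * N)}).Finite :=
      (hF N (2 * N)).image _
    obtain ⟨L, hL⟩ := hfin.exists_notMem
    exact ⟨L, fun γ h3 h4 h5 => hL ⟨γ, ⟨h3, h4⟩, h5⟩⟩
  choose L hL using h2
  obtain ⟨γ, hγ⟩ := hΦ (fun k => if k % 2 = 0 then F (k / 2) k else L (k / 2))
  have h3 : Φ γ (2 * n γ) = F (n γ) (2 * n γ) := by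
    rw [hγ]
    simp
  have h4 : Φ γ (2 * n γ + 1) = L (n γ) := by
    rw [hγ]
    simp only
    rw [if_neg (by omega), show (2 * n γ + 1) / 2 = n γ by omega]
  exact hL (n γ) γ rfl h3 h4

end Pool.Agent.H191W
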