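import Pool.Agent.H191R4.WG.Stubs

set_option autoImplicit false
set_option maxSynthPendingDepth 3

open scoped ENNReal Topology
open Filter

namespace Pool.Agent.H191W

open Forest

theorem t_I2 (hB2 : B2) (_hL2 : L2) (hL4 : L4) (hL5 : L5) : I2 := by
  intro T F w ε hε B hB
  by_contra hinf
  have hinf' : Set.Infinite {t ∈ B | ∃ b, F.IsBr b ∧ b 0 = t ∧ ε < |F.brL b w|} := hinf
  obtain ⟨n, hn⟩ := exists_nat_gt (‖w‖ ^ 2 / ε ^ 2)
  obtain ⟨J, hJs, hJc⟩ := hinf'.exists_subset_card_eq n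
  have hex : ∀ t : T, ∃ b : ℕ → T, t ∈ J → (F.IsBr b ∧ b 0 = t ∧ ε < |F.brL b w|) := by
    intro t
    by_cases ht : t ∈ J
    · obtain ⟨b, hb⟩ := (hJs ht).2
      exact ⟨b, fun _ => hb⟩
    · exact ⟨fun _ => t, fun h => absurd h ht⟩
  choose b hb using hex
  have hdis : ∀ a ∈ J, ∀ c ∈ J, a ≠ c → Disjoint (Set.range (b a)) (Set.range (b c)) := by
    intro a ha c hc hac
    have haB := (hJs ha).1
    have hcB := (hJs hc).1
    have hd := (hL4 T F).2.2.2.1 a c (hB a haB c hcB hac) (hB c hcB a haB (Ne.symm hac))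
    rw [Set.disjoint_left]
    rintro x ⟨i, rfl⟩ ⟨j, hj⟩
    have h1 : F.le a (b a i) := by
      have := (hL5 T F (b a) (hb a ha).1).2.2.1 0 i (Nat.zero_le i)
      rwa [(hb a ha).2.1] at this
    have h2 : F.le c (b a i) := by
      have := (hL5 T F (b c) (hb c hc).1).2.2.1 0 j (Nat.zero_le j)
      rw [(hb c hc).2.1] at this
      rwa [← hj]
    exact (Set.disjoint_left.mp hd) (show b a i ∈ F.cone a from h1) h2
  have hsum := hB2 T F T J b (fun a ha => (hb a ha).1) hdis w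
  have hlow : (n : ℝ) * ε ^ 2 ≤ ∑ a ∈ J, (F.brL (b a) w) ^ 2 := by
    rw [← hJc, ← nsmul_eq_mul]
    apply Finset.card_nsmul_le_sum
    intro a ha
    rw [← sq_abs (F.brL (b a) w)]
    have := (hb a ha).2.2
    exact pow_le_pow_left₀ hε.le this.le 2
  have hε2 : 0 < ε ^ 2 := by positivity
  rw [div_lt_iff₀ hε2] at hn
  linarith

end Pool.Agent.H191W
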