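import Pool.Agent.H191R4.WG.Stubs

set_option autoImplicit false
set_option maxSynthPendingDepth 3

namespace Pool.Agent.H191W

theorem t_I3 : I3 := by
  classical
  intro G A hA L v M ε hε hM
  let f : G → (Fin L → ℤ) := fun γ l => ⌊v γ l / ε⌋
  have hmaps : Set.MapsTo f A (Set.pi Set.univ fun _ : Fin L => Set.Icc ⌊-M / ε⌋ ⌊M / ε⌋) := by
    intro γ hγ l _
    have h := abs_le.1 (hM γ hγ l)
    exact ⟨Int.floor_le_floor (div_le_div_of_nonneg_right h.1 hε.le),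
      Int.floor_le_floor (div_le_div_of_nonneg_right h.2 hε.le)⟩
  have hfin : (Set.pi Set.univ fun _ : Fin L => Set.Icc ⌊-M / ε⌋ ⌊M / ε⌋).Finite :=
    Set.Finite.pi fun _ => Set.finite_Icc _ _
  obtain ⟨z, hz⟩ : ∃ z, {γ ∈ A | f γ = z}.Infinite := by
    by_contra hcon
    push Not at hcon
    apply hA
    have : A ⊆ ⋃ z ∈ (Set.pi Set.univ fun _ : Fin L => Set.Icc ⌊-M / ε⌋ ⌊M / ε⌋),
        {γ ∈ A | f γ = z} := by
      intro γ hγ
      simp only [Set.mem_iUnion]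
      exact ⟨f γ, hmaps hγ, hγ, rfl⟩
    exact (hfin.biUnion fun z _ => hcon z).subset this
  refine ⟨{γ ∈ A | f γ = z}, fun γ hγ => hγ.1, hz, ?_⟩
  intro γ hγ δ hδ l
  have h1 : ⌊v γ l / ε⌋ = ⌊v δ l / ε⌋ := by
    have := congrFun (hγ.2.trans hδ.2.symm) l
    exact this
  have h2 : |v γ l / ε - v δ l / ε| < 1 := Int.abs_sub_lt_one_of_floor_eq_floor h1
  rw [← sub_div, abs_div, abs_of_pos hε, div_lt_one hε] at h2
  exact h2.le

end Pool.Agent.H191W
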