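import Pool.Agent.H191R4.WG.Stubs

set_option autoImplicit false
set_option maxSynthPendingDepth 3

open scoped ENNReal Topology
open Filter

namespace Pool.Agent.H191W

open Forest

namespace I4aux

theorem ssum_stab (hL1 : L1) {T : Type} (F : Forest T) (x : T → ℝ) (t : T) (n : ℕ)
    (hn : F.lev t ≤ n) : F.ssum x (t, n) = F.ssum x (t, F.lev t) := by
  unfold Forest.ssum
  simp only
  symm
  apply Finset.sum_subset
  · intro i hi
    simp only [Finset.mem_range] at hi ⊢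
    omega
  · intro i hi hi'
    simp only [Finset.mem_range] at hi hi'
    cases h : F.anc t i with
    | none => simp
    | some s =>
      have := hL1 T F t s i h
      omega

theorem abs_ssum_le (hA2 : A2) {T : Type} (F : Forest T) (w : F.W) (p : T × ℕ) :
    |F.ssum (F.coord w) p| ≤ ‖w‖ := by
  have h := hA2 T F w {p} (by unfold Forest.Disj; simp)
  simp only [Finset.sum_singleton] at h
  exact abs_le_of_sq_le_sq h (norm_nonneg _)

variable {G : Type}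

/-- choice of `m` -/
theorem exists_m (hB1 : B1) (hG3 : G3) (Φ : G → ℕ → List (G × ℕ)) (k : ℕ)
    (w : (mkForest Φ).W) (c : ℝ) (hc : 0 < c) (γ : G)
    (h : c ≤ (mkForest Φ).brL (line γ k) w) :
    ∃ m : ℕ, 3 * c / 4 ≤ ∑ l ∈ Finset.range (m + 1), (mkForest Φ).coord w (γ, k, l) := by
  have hbr := (hG3 G Φ γ γ k k).1
  have ht := hB1 _ (mkForest Φ) (line γ k) hbr w
  have h1 : ∀ᶠ n in atTop, 3 * c / 4 < ∑ i ∈ Finset.range n, (mkForest Φ).coord w (line γ k i) :=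
    ht.eventually (lt_mem_nhds (by linarith))
  obtain ⟨n, hn1, hn2⟩ := (h1.and (eventually_ge_atTop 1)).exists
  refine ⟨n - 1, ?_⟩
  rw [Nat.sub_add_cancel hn2]
  exact hn1.le

theorem par_eq (Φ : G → ℕ → List (G × ℕ)) (k : ℕ) (γ g : G) (m : ℕ)
    (h : Φ g k = (γ, m) :: Φ γ k) : (mkForest Φ).par (g, k, 0) = some (γ, k, m) := by
  show fpar Φ (g, k, 0) = _
  unfold fpar
  simp only
  rw [h]
  simp

theorem step (hA2 : A2) (hB1 : B1) (hG3 : G3) (hI2 : I2) (hI3 : I3) (hL1 : L1)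
    (Φ : G → ℕ → List (G × ℕ)) (k : ℕ) (A : Set G)
    (κ : G → (mkForest Φ).W) (M c : ℝ) (hc : 0 < c) (hM : ∀ γ ∈ A, ‖κ γ‖ ≤ M)
    (hbr : ∀ γ ∈ A, c ≤ (mkForest Φ).brL (line γ k) (κ γ))
    (hinf : ∀ F : List (G × ℕ), {γ | γ ∈ A ∧ Φ γ k = F}.Infinite)
    (γ : G) (m : ℕ) :
    ∃ (q : (G × ℕ) × G), q.1.1 ∈ A ∧ q.2 ∈ A ∧ Φ q.1.1 k = (γ, m) :: Φ γ k ∧
      3 * c / 4 ≤ ∑ l ∈ Finset.range (q.1.2 + 1),
        (mkForest Φ).coord (κ q.1.1) (q.1.1, k, l) ∧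
      (∀ b, (mkForest Φ).IsBr b → b 0 = (q.1.1, k, 0) →
        |(mkForest Φ).brL b (κ γ)| ≤ c / 8 ∧ |(mkForest Φ).brL b (κ q.2)| ≤ c / 8) ∧
      ∀ n, |(mkForest Φ).ssum ((mkForest Φ).coord (κ q.1.1)) ((γ, k, m), n) -
        (mkForest Φ).ssum ((mkForest Φ).coord (κ q.2)) ((γ, k, m), n)| ≤ c / 8 := by
  classical
  set t : G × ℕ × ℕ := (γ, k, m) with ht
  obtain ⟨A', hA'B, hA'inf, hA'd⟩ := hI3 G {g | g ∈ A ∧ Φ g k = (γ, m) :: Φ γ k}
    (hinf _) ((mkForest Φ).lev t + 1) (fun g l => (mkForest Φ).ssum ((mkForest Φ).coord (κ g)) (t, (l : ℕ))) M (c / 8)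
    (by linarith) (fun g hg l => (abs_ssum_le hA2 (mkForest Φ) (κ g) _).trans (hM g hg.1))
  obtain ⟨δ, hδ⟩ := hA'inf.nonempty
  have hlev : ∀ g ∈ A', (mkForest Φ).lev (g, k, 0) = (mkForest Φ).lev t + 1 := fun g hg =>
    (mkForest Φ).lev_par _ _ (par_eq Φ k γ g m (hA'B hg).2)
  set B2 : Set (G × ℕ × ℕ) := (fun g => (g, k, 0)) '' A' with hB2
  have hB2i : ∀ a ∈ B2, ∀ b ∈ B2, a ≠ b → ¬ (mkForest Φ).le a b := by
    rintro a ⟨g, hg, rfl⟩ b ⟨g', hg', rfl⟩ hne ⟨i, hi⟩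
    have h1 := hL1 _ (mkForest Φ) _ _ _ hi
    rw [hlev g hg, hlev g' hg'] at h1
    have h2 : i = 0 := by omega
    subst h2
    simp only [Forest.anc, Option.some.injEq] at hi
    exact hne hi.symm
  have f1 := hI2 _ (mkForest Φ) (κ γ) (c / 8) (by linarith) B2 hB2i
  have f2 := hI2 _ (mkForest Φ) (κ δ) (c / 8) (by linarith) B2 hB2i
  have hinj : Function.Injective (fun g : G => (g, k, (0 : ℕ))) := by
    intro a b hab
    simpa using hab
  have f3 := (f1.union f2).preimage (f := fun g : G => (g, k, (0 : ℕ))) hinj.injOn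
  obtain ⟨γ', hγ'1, hγ'2⟩ := (hA'inf.sdiff f3).nonempty
  have hγ'A := (hA'B hγ'1)
  obtain ⟨m', hm'⟩ := exists_m hB1 hG3 Φ k (κ γ') c hc γ' (hbr γ' hγ'A.1)
  refine ⟨((γ', m'), δ), hγ'A.1, (hA'B hδ).1, hγ'A.2, hm', ?_, ?_⟩
  · intro b hb hb0
    simp only [Set.mem_preimage, Set.mem_union, Set.mem_ofPred_eq, not_or] at hγ'2
    have hmem : (γ', k, 0) ∈ B2 := ⟨γ', hγ'1, rfl⟩
    refine ⟨?_, ?_⟩
    · by_contra hcon
      exact hγ'2.1 ⟨hmem, b, hb, hb0, not_le.1 hcon⟩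
    · by_contra hcon
      exact hγ'2.2 ⟨hmem, b, hb, hb0, not_le.1 hcon⟩
  · intro n
    by_cases hn : n < (mkForest Φ).lev t + 1
    · exact hA'd γ' hγ'1 δ hδ ⟨n, hn⟩
    · rw [ssum_stab hL1 (mkForest Φ) _ t n (by omega), ssum_stab hL1 (mkForest Φ) _ t n (by omega)]
      exact hA'd γ' hγ'1 δ hδ ⟨(mkForest Φ).lev t, by omega⟩

end I4aux

open I4aux in
theorem t_I4 (hA2 : A2) (hB1 : B1) (hG3 : G3) (hI2 : I2) (hI3 : I3) (hL1 : L1) : I4 := by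
  classical
  intro G Φ k A κ M c hc hM hbr hinf
  obtain ⟨γ0, hγ0A, hγ0⟩ := (hinf []).nonempty
  obtain ⟨m0, hm0⟩ := exists_m hB1 hG3 Φ k (κ γ0) c hc γ0 (hbr γ0 hγ0A)
  have hst := step hA2 hB1 hG3 hI2 hI3 hL1 Φ k A κ M c hc hM hbr hinf
  choose q hq using hst
  let st : ℕ → G × ℕ := fun n => Nat.rec (γ0, m0) (fun _ p => (q p.1 p.2).1) n
  have hst0 : st 0 = (γ0, m0) := rfl
  have hsts : ∀ n, st (n + 1) = (q (st n).1 (st n).2).1 := fun _ => rfl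
  refine ⟨fun j => (st j).1, fun j => (q (st j).1 (st j).2).2, fun j => (st j).2,
    ?_, ?_, ?_, ?_, ?_, ?_⟩
  · intro j
    refine ⟨?_, (hq _ _).2.1⟩
    cases j with
    | zero => exact hγ0A
    | succ j => exact (hq (st j).1 (st j).2).1
  · exact hγ0
  · intro j
    exact (hq (st j).1 (st j).2).2.2.1
  · intro j
    cases j with
    | zero => exact hm0
    | succ j => exact (hq (st j).1 (st j).2).2.2.2.1
  · intro j b hb hb0
    exact (hq (st j).1 (st j).2).2.2.2.2.1 b hb hb0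
  · intro j n
    exact (hq (st j).1 (st j).2).2.2.2.2.2 n

end Pool.Agent.H191W
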