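import Pool.Agent.H191R4.WG.Stubs

set_option autoImplicit false
set_option maxSynthPendingDepth 3

open scoped ENNReal Topology
open Filter

namespace Pool.Agent.H191W

open Forest

theorem t_I5 : I5 := by
  classical
  intro G Φ k γ m h0 hs
  -- the partial sums
  let L : ℕ → ℕ := fun j => Nat.rec 0 (fun j r => r + m j + 1) j
  have hL0 : L 0 = 0 := rfl
  have hLs : ∀ j, L (j + 1) = L j + m j + 1 := fun j => rfl
  have hmono : Monotone L := monotone_nat_of_le_succ fun j => by rw [hLs]; omega
  have hge : ∀ j, j ≤ L j := by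
    intro j
    induction j with
    | zero => exact Nat.zero_le _
    | succ j ih => rw [hLs]; omega
  have hex : ∀ i, ∃ j, i < L (j + 1) := fun i => ⟨i, by have := hge (i + 1); omega⟩
  let S : ℕ → G × ℕ × ℕ := fun i => (γ (Nat.find (hex i)), k, i - L (Nat.find (hex i)))
  have hS : ∀ j l, l ≤ m j → S (L j + l) = (γ j, k, l) := by
    intro j l hl
    have hfind : Nat.find (hex (L j + l)) = j := by
      rw [Nat.find_eq_iff]
      refine ⟨by rw [hLs]; omega, ?_⟩
      intro n hn
      have := hmono (show n + 1 ≤ j by omega)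
      omega
    show (γ (Nat.find (hex (L j + l))), k, L j + l - L (Nat.find (hex (L j + l)))) = _
    rw [hfind]
    simp
  refine ⟨S, L, ?_, hL0, hLs, hS⟩
  intro i
  -- write `i = L j + l`
  obtain ⟨j, l, hl, hi⟩ : ∃ j l, l ≤ m j ∧ i = L j + l := by
    have h1 := Nat.find_spec (hex i)
    have h2 : L (Nat.find (hex i)) ≤ i := by
      rcases Nat.eq_zero_or_pos (Nat.find (hex i)) with h | h
      · rw [h, hL0]; exact Nat.zero_le _
      · have h3 := Nat.find_min (hex i) (m := Nat.find (hex i) - 1) (by omega)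
        rw [Nat.sub_add_cancel h] at h3
        omega
    rw [hLs] at h1
    exact ⟨Nat.find (hex i), i - L (Nat.find (hex i)), by omega, by omega⟩
  subst hi
  rw [hS j l hl]
  by_cases hlm : l + 1 ≤ m j
  · rw [add_assoc, hS j (l + 1) hlm]
    rfl
  · have hlm' : l = m j := by omega
    subst hlm'
    have h4 : L j + m j + 1 = L (j + 1) + 0 := by rw [hLs]
    rw [h4, hS (j + 1) 0 (Nat.zero_le _)]
    show fpar Φ (γ (j + 1), k, 0) = some (γ j, k, m j)
    simp only [fpar, hs j, if_true]

end Pool.Agent.H191W
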