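import Pool.Agent.H191R4.WG.Stubs

set_option autoImplicit false
set_option maxSynthPendingDepth 3

open scoped ENNReal Topology
open Filter

namespace Pool.Agent.H191W

open Forest

theorem i6_shift {T : Type} {F : Forest T} {b : ℕ → T} (hb : F.IsBr b) (s : ℕ) :
    F.IsBr (fun i => b (i + s)) := by
  intro i
  have := hb (i + s)
  rwa [show i + s + 1 = i + 1 + s by ring] at this

/-- a piece of a branch is a segment -/
theorem i6_seg (hL5 : L5) {T : Type} {F : Forest T} {b : ℕ → T} (hb : F.IsBr b) (x : T → ℝ)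
    (s n : ℕ) : ∑ i ∈ Finset.range (n + 1), x (b (i + s)) = F.ssum x (b (n + s), n) := by
  obtain ⟨-, h2, -, -, -⟩ := hL5 T F b hb
  unfold ssum
  rw [← Finset.sum_range_reflect]
  apply Finset.sum_congr rfl
  intro i hi
  rw [Finset.mem_range] at hi
  have h3 := h2 (n + s - i) (n + s) (by omega)
  rw [show n + s - (n + s - i) = i by omega] at h3
  show _ = (F.anc (b (n + s)) i).elim 0 x
  rw [h3]
  show _ = x (b (n + s - i))
  congr 2
  omega

theorem i6_ssum_sub {T : Type} {F : Forest T} (v w : F.W) (p : T × ℕ) :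
    F.ssum (F.coord (v - w)) p = F.ssum (F.coord v) p - F.ssum (F.coord w) p := by
  unfold ssum
  rw [← Finset.sum_sub_distrib]
  refine Finset.sum_congr rfl fun i _ => ?_
  cases F.anc p.1 i with
  | none => simp
  | some t => exact F.coord_sub v w t

theorem t_I6 (hB3 : B3) (hI4 : I4) (hI5 : I5) (hL5 : L5) : I6 := by
  intro G Φ k A κ M c hc hM hκ hinf
  obtain ⟨γ, δ, m, h1, h2, h3, h4, h5, h6⟩ := hI4 G Φ k A κ M c hc hM hκ hinf
  obtain ⟨S, L, hS, hL0, hL, hSL⟩ := hI5 G Φ k γ m h2 h3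
  refine ⟨S, fun j => γ (j + 1), δ, hS, fun j => ⟨(h1 (j + 1)).1, (h1 j).2⟩, ?_⟩
  have hLj : ∀ j, j ≤ L j := by
    intro j
    induction j with
    | zero => exact Nat.zero_le _
    | succ j ih =>
      rw [hL]
      omega
  intro s
  refine ⟨s, fun j hj => ?_⟩
  have ha : s + 1 ≤ L (j + 1) := (by omega : s + 1 ≤ j + 1).trans (hLj (j + 1))
  obtain ⟨n, hn⟩ : ∃ n, L (j + 1) = n + 1 + s := ⟨L (j + 1) - 1 - s, by omega⟩
  have hS0 : ∀ i, S (0 + L i) = (γ i, k, 0) := by
    intro i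
    have := hSL i 0 (Nat.zero_le _)
    rwa [add_comm] at this
  have hsub : ∀ (b : ℕ → G × ℕ × ℕ) (v w : (mkForest Φ).W),
      (mkForest Φ).brL b (v - w) = (mkForest Φ).brL b v - (mkForest Φ).brL b w :=
    fun b v w => ContinuousLinearMap.map_sub _ _ _
  have e1 := (hB3 _ _ _ (i6_shift hS s) (κ (γ (j + 1)) - κ (δ j))).1 (n + 1)
  have e2 : (fun i => S (i + (n + 1) + s)) = fun i => S (i + L (j + 1)) := by
    funext i
    rw [hn]
    congr 1
    ring
  rw [e2, i6_seg hL5 hS (((mkForest Φ).coord (κ (γ (j + 1)) - κ (δ j)))) s n, i6_ssum_sub] at e1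
  have e3 : S (n + s) = (γ j, k, m j) := by
    have := hSL j (m j) le_rfl
    rw [← this]
    congr 1
    have := hL j
    omega
  rw [e3] at e1
  have e4 := (hB3 _ _ _ (i6_shift hS (L (j + 1))) (κ (γ (j + 1)))).1 (m (j + 1) + 1)
  have e5 : (fun i => S (i + (m (j + 1) + 1) + L (j + 1))) = fun i => S (i + L (j + 1 + 1)) := by
    funext i
    rw [hL (j + 1)]
    congr 1
    ring
  rw [e5] at e4
  have e6 : ∑ i ∈ Finset.range (m (j + 1) + 1), (mkForest Φ).coord (κ (γ (j + 1)))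
      (S (i + L (j + 1))) = ∑ i ∈ Finset.range (m (j + 1) + 1),
        (mkForest Φ).coord (κ (γ (j + 1))) (γ (j + 1), k, i) := by
    apply Finset.sum_congr rfl
    intro i hi
    rw [Finset.mem_range] at hi
    rw [add_comm i, hSL (j + 1) i (by omega)]
  rw [e6] at e4
  have f1 := h4 (j + 1)
  have f2 := (h5 (j + 1) (fun i => S (i + L (j + 1 + 1))) (i6_shift hS _) (hS0 _)).1
  have f3 := (h5 j (fun i => S (i + L (j + 1))) (i6_shift hS _) (hS0 _)).2
  have f4 := h6 j n
  rw [abs_le] at f2 f3 f4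
  show c / 4 ≤ (mkForest Φ).brL (fun i => S (i + s)) (κ (γ (j + 1)) - κ (δ j))
  have g1 := hsub (fun i => S (i + L (j + 1))) (κ (γ (j + 1))) (κ (δ j))
  rw [e1, g1, e4]
  linarith [f2.1, f3.2, f4.1]

end Pool.Agent.H191W
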