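import Pool.Agent.H191R4.WG.Stubs

set_option autoImplicit false
set_option maxSynthPendingDepth 3

open scoped ENNReal Topology
open Filter

namespace Pool.Agent.H191W

open Forest

theorem t_I7 (hB2 : B2) (hB3 : B3) (hG2 : G2) (hG3 : G3) (hG4 : G4) (hH2 : H2) (hH3 : H3)
    (hH4 : H4) (hI1 : I1) (hI6 : I6) : I7 := by
  classical
  intro G _ Φ hΦ hW
  obtain ⟨C, hC, hCd⟩ := hH2 (XX Φ) hW
  -- the vectors `x γ`
  have hx : ∀ γ : G, ∃ x ∈ XX Φ, ∀ γ' k, (mkForest Φ).brL (line γ' k) x =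
      if γ' = γ then (1 / 2 : ℝ) ^ k else 0 := by
    intro γ
    obtain ⟨x, hx, -, hx2⟩ := (hG4 G Φ γ).2
    exact ⟨x, hx, hx2⟩
  choose x hxX hxb using hx
  -- approximations
  have hy : ∀ γ : G, ∃ n, ∃ y ∈ C n, ‖(⟨x γ, hxX γ⟩ : XX Φ) - y‖ < 1 / 2 := fun γ =>
    hCd ⟨x γ, hxX γ⟩ (1 / 2) (by norm_num)
  choose n κ hκC hκ using hy
  obtain ⟨N, k, hNk⟩ := hI1 G Φ hΦ n
  obtain ⟨M, hM⟩ := hH3 (XX Φ) (C N) (hC N)
  set c : ℝ := (1 / 2 : ℝ) ^ k * (1 / 2) with hc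
  have hcpos : 0 < c := by positivity
  -- one functional is bounded by the norm
  have hle : ∀ (γ : G) (w : (mkForest Φ).W), |(mkForest Φ).brL (line γ 0) w| ≤ ‖w‖ := by
    intro γ w
    have h1 := hB2 (G × ℕ × ℕ) (mkForest Φ) Unit {()} (fun _ => line γ 0)
      (fun _ _ => (hG3 G Φ γ γ 0 0).1) (fun a _ c _ hac => absurd (Subsingleton.elim a c) hac) w
    rw [Finset.sum_singleton] at h1
    exact abs_le_of_sq_le_sq h1 (norm_nonneg _)
  have hκ0 : ∀ γ : G, 1 / 2 ≤ (mkForest Φ).brL (line γ 0) (κ γ : (mkForest Φ).W) := by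
    intro γ
    have h1 := hle γ ((((⟨x γ, hxX γ⟩ : XX Φ) - κ γ : XX Φ)) : (mkForest Φ).W)
    have h2 : ‖((((⟨x γ, hxX γ⟩ : XX Φ) - κ γ : XX Φ)) : (mkForest Φ).W)‖ < 1 / 2 := hκ γ
    have h3 : ((((⟨x γ, hxX γ⟩ : XX Φ) - κ γ : XX Φ)) : (mkForest Φ).W) = x γ - κ γ := rfl
    rw [h3, map_sub, hxb γ γ 0, if_pos rfl, pow_zero] at h1
    rw [h3] at h2
    have h4 := (abs_le.1 (h1.trans h2.le)).2
    linarith
  have hκk : ∀ γ : G, c ≤ (mkForest Φ).brL (line γ k) (κ γ : (mkForest Φ).W) := by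
    intro γ
    rw [(hG2 G Φ (κ γ)).1 (κ γ).2 γ k, hc]
    exact mul_le_mul_of_nonneg_left (hκ0 γ) (by positivity)
  obtain ⟨S, γ, δ, hS, hA, hj⟩ := hI6 G Φ k {γ | n γ = N} (fun γ => (κ γ : (mkForest Φ).W)) M c
    hcpos (by
      intro γ hγ
      have h1 : κ γ ∈ C N := by
        have := hκC γ
        rwa [show n γ = N from hγ] at this
      exact hM _ h1) (fun γ _ => hκk γ) (fun F => hNk F)
  have hmem : ∀ g : G, n g = N → κ g ∈ C N := by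
    intro g hg
    have := hκC g
    rwa [hg] at this
  obtain ⟨z, hz⟩ := hH4 (XX Φ) (C N) (hC N) (fun j => κ (γ j)) (fun j => κ (δ j))
    (fun j => hmem _ (hA j).1) (fun j => hmem _ (hA j).2)
  have h5 : ∀ s, c / 4 ≤ (mkForest Φ).brL (fun i => S (i + s)) (z : (mkForest Φ).W) := by
    intro s
    obtain ⟨j0, hj0⟩ := hj s
    exact hz (((mkForest Φ).brL (fun i => S (i + s))).comp (XX Φ).subtypeL) (c / 4)
      ⟨j0, fun j hjj => hj0 j hjj⟩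
  have h6 := (hB3 (G × ℕ × ℕ) (mkForest Φ) S hS (z : (mkForest Φ).W)).2
  have h7 : c / 4 ≤ 0 := ge_of_tendsto' h6 h5
  linarith

end Pool.Agent.H191W
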