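import Pool.Agent.H191R4.WG.Stubs

/-! L1: level of the i-th ancestor (helper99) -/

set_option autoImplicit false
set_option maxSynthPendingDepth 3

namespace Pool.Agent.H191W

open Forest

theorem t_L1 : L1 := by
  intro T F t s i
  induction i generalizing s with
  | zero =>
    intro h
    have h' : some t = some s := h
    rw [Option.some.inj h', Nat.add_zero]
  | succ i ih =>
    intro h
    have h' : (F.anc t i).bind F.par = some s := h
    obtain ⟨u, hu1, hu2⟩ := Option.bind_eq_some_iff.1 h'
    have h1 := ih u hu1
    have h2 := F.lev_par u s hu2
    omega

end Pool.Agent.H191W
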