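import Pool.Agent.H191R4.WG.Stubs

/-! L2: the ancestor order (helper99) -/

set_option autoImplicit false
set_option maxSynthPendingDepth 3

namespace Pool.Agent.H191W

open Forest

theorem L2_anc_add {T : Type} (F : Forest T) (t : T) (i j : ℕ) :
    F.anc t (i + j) = (F.anc t i).bind (fun s => F.anc s j) := by
  induction j with
  | zero =>
    rw [Nat.add_zero]
    cases h : F.anc t i with
    | none => rfl
    | some s => rfl
  | succ j ih =>
    have h1 : F.anc t (i + (j + 1)) = (F.anc t (i + j)).bind F.par := rfl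
    rw [h1, ih]
    cases h : F.anc t i with
    | none => rfl
    | some s => rfl

theorem t_L2 (hL1 : L1) : L2 := by
  intro T F
  refine ⟨fun a => ⟨0, rfl⟩, ?_, ?_, ?_⟩
  · rintro a b c ⟨i, hi⟩ ⟨j, hj⟩
    refine ⟨j + i, ?_⟩
    rw [L2_anc_add, hj]
    exact hi
  · rintro a b ⟨i, hi⟩ ⟨j, hj⟩
    have h1 := hL1 T F b a i hi
    have h2 := hL1 T F a b j hj
    have h3 : i = 0 := by omega
    subst h3
    have h4 : some b = some a := hi
    exact (Option.some.inj h4).symm
  · rintro a b t ⟨i, hi⟩ ⟨j, hj⟩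
    rcases le_total i j with h | h
    · obtain ⟨d, rfl⟩ := Nat.exists_eq_add_of_le h
      right
      refine ⟨d, ?_⟩
      rw [L2_anc_add, hi] at hj
      exact hj
    · obtain ⟨d, rfl⟩ := Nat.exists_eq_add_of_le h
      left
      refine ⟨d, ?_⟩
      rw [L2_anc_add, hj] at hi
      exact hi

end Pool.Agent.H191W
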