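import Pool.Agent.H191R4.WG.Stubs

/-! L3: ancestor at a given level (helper99) -/

set_option autoImplicit false
set_option maxSynthPendingDepth 3

namespace Pool.Agent.H191W

open Forest

theorem L3_anc_par {T : Type} (F : Forest T) {t u : T} (h : F.par t = some u) (i : ℕ) :
    F.anc t (i + 1) = F.anc u i := by
  induction i with
  | zero =>
    have h1 : F.anc t (0 + 1) = (some t).bind F.par := rfl
    rw [h1]
    exact h
  | succ i ih =>
    have h1 : F.anc t (i + 1 + 1) = (F.anc t (i + 1)).bind F.par := rfl
    rw [h1, ih]
    rfl

theorem t_L3 : L3 := by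
  intro T F t n hn
  obtain ⟨d, hd⟩ := Nat.exists_eq_add_of_le hn
  induction d generalizing t with
  | zero => exact ⟨t, hd, 0, rfl⟩
  | succ d ih =>
    cases hp : F.par t with
    | none =>
      have := F.lev_root t hp
      omega
    | some u =>
      have h1 := F.lev_par t u hp
      obtain ⟨s, hs, i, hi⟩ := ih u (by omega) (by omega)
      refine ⟨s, hs, i + 1, ?_⟩
      rw [L3_anc_par F hp]
      exact hi

end Pool.Agent.H191W
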