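import Pool.Agent.H191R4.WG.Stubs

set_option autoImplicit false
set_option maxSynthPendingDepth 3

open scoped ENNReal Topology
open Filter

namespace Pool.Agent.H191W

open Forest

theorem L4_up (T : Type) (F : Forest T) (A : Set T) (hA : F.IsUp A) (b : T) (i : ℕ) :
    ∀ a, F.anc b i = some a → a ∈ A → b ∈ A := by
  induction i with
  | zero =>
    intro a h ha
    have h1 : b = a := by
      change some b = some a at h
      exact Option.some.inj h
    rw [h1]
    exact ha
  | succ i ih =>
    intro a h ha
    change (F.anc b i).bind F.par = some a at h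
    rw [Option.bind_eq_some_iff] at h
    obtain ⟨c, hc, hca⟩ := h
    exact ih c hc (hA c a hca ha)

/-- L4: cones and tails are up-sets, cones of incomparable nodes are disjoint -/
theorem t_L4 (hL2 : L2) : L4 := by
  intro T F
  obtain ⟨_, h2, _, h4⟩ := hL2 T F
  have hle : ∀ A, F.IsUp A → ∀ a b, F.le a b → a ∈ A → b ∈ A := by
    rintro A hA a b ⟨i, hi⟩ ha
    exact L4_up T F A hA b i a hi ha
  refine ⟨?_, ?_, ?_, ?_, hle, ?_⟩
  · intro t t' s hs hts
    exact h2 t s t' hts ⟨1, hs⟩
  · intro n t s hs hn
    have := F.lev_par t s hs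
    change n ≤ F.lev s at hn
    change n ≤ F.lev t
    omega
  · intro A B hA hB t s hs h
    exact ⟨hA t s hs h.1, hB t s hs h.2⟩
  · intro a b hab hba
    rw [Set.disjoint_left]
    intro t ha hb
    rcases h4 a b t ha hb with h | h
    · exact hab h
    · exact hba h
  · rintro A hA p s ⟨i, _, hi⟩ hs
    exact hle A hA s p.1 ⟨i, hi⟩ hs

end Pool.Agent.H191W
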