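import Pool.Agent.H191R4.WG.T_A4
import Pool.Agent.H191R4.WG.T_G1
import Pool.Agent.H191R4.WG.T_A3
import Pool.Agent.H191R4.WG.T_L1
import Pool.Agent.H191R4.WG.T_A5
import Pool.Agent.H191R4.WG.T_A2
import Pool.Agent.H191R4.WG.T_L2
import Pool.Agent.H191R4.WG.T_L4
import Pool.Agent.H191R4.WG.T_C2
import Pool.Agent.H191R4.WG.T_C4
import Pool.Agent.H191R4.WG.T_D1
import Pool.Agent.H191R4.WG.T_D2
import Pool.Agent.H191R4.WG.T_L5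
import Pool.Agent.H191R4.WG.T_D4
import Pool.Agent.H191R4.WG.T_A6
import Pool.Agent.H191R4.WG.T_A7
import Pool.Agent.H191R4.WG.T_A8
import Pool.Agent.H191R4.WG.T_C1
import Pool.Agent.H191R4.WG.T_C3
import Pool.Agent.H191R4.WG.T_C6
import Pool.Agent.H191R4.WG.T_L3
import Pool.Agent.H191R4.WG.T_E1
import Pool.Agent.H191R4.WG.T_C5
import Pool.Agent.H191R4.WG.T_C7
import Pool.Agent.H191R4.WG.T_E2
import Pool.Agent.H191R4.WG.T_E3a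
import Pool.Agent.H191R4.WG.T_E3
import Pool.Agent.H191R4.WG.T_B1
import Pool.Agent.H191R4.WG.T_B2
import Pool.Agent.H191R4.WG.T_E4a
import Pool.Agent.H191R4.WG.T_E4
import Pool.Agent.H191R4.WG.T_B3
import Pool.Agent.H191R4.WG.T_E5a
import Pool.Agent.H191R4.WG.T_E5
import Pool.Agent.H191R4.WG.T_E6
import Pool.Agent.H191R4.WG.T_E7
import Pool.Agent.H191R4.WG.T_E8
import Pool.Agent.H191R4.WG.T_D3
import Pool.Agent.H191R4.WG.T_E9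
import Pool.Agent.H191R4.WG.T_E10
import Pool.Agent.H191R4.WG.T_E11
import Pool.Agent.H191R4.WG.T_F1
import Pool.Agent.H191R4.WG.T_F2
import Pool.Agent.H191R4.WG.T_F3
import Pool.Agent.H191R4.WG.T_F4
import Pool.Agent.H191R4.WG.T_G2
import Pool.Agent.H191R4.WG.T_G3
import Pool.Agent.H191R4.WG.T_G4
import Pool.Agent.H191R4.WG.T_G5
import Pool.Agent.H191R4.WG.T_G6
import Pool.Agent.H191R4.WG.T_G7
import Pool.Agent.H191R4.WG.T_G8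
import Pool.Agent.H191R4.WG.T_H1
import Pool.Agent.H191R4.WG.T_G9
import Pool.Agent.H191R4.WG.T_H2
import Pool.Agent.H191R4.WG.T_H3
import Pool.Agent.H191R4.WG.T_H4
import Pool.Agent.H191R4.WG.T_I1
import Pool.Agent.H191R4.WG.T_I2
import Pool.Agent.H191R4.WG.T_I3
import Pool.Agent.H191R4.WG.T_I4
import Pool.Agent.H191R4.WG.T_I5
import Pool.Agent.H191R4.WG.T_I6
import Pool.Agent.H191R4.WG.T_I7
import Pool.Agent.H191R4.WG.T_ZZ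

set_option autoImplicit false
set_option maxSynthPendingDepth 3

namespace Pool.Agent.H191W

theorem final : Final := by
  have hA4 : A4 := t_A4 
  have hG1 : G1 := t_G1 
  have hA3 : A3 := t_A3 
  have hL1 : L1 := t_L1 
  have hA5 : A5 := t_A5 hA3 hL1
  have hA2 : A2 := t_A2 
  have hL2 : L2 := t_L2 hL1
  have hL4 : L4 := t_L4 hL2
  have hC2 : C2 := t_C2 hA2 hA3 hL4
  have hC4 : C4 := t_C4 hA5 hC2 hL2 hL4
  have hD1 : D1 := t_D1 hA5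
  have hD2 : D2 := t_D2 hC4 hD1 hL2
  have hL5 : L5 := t_L5 hL1
  have hD4 : D4 := t_D4 hL1 hL5
  have hA6 : A6 := t_A6 hA2 hA3 hL1
  have hA7 : A7 := t_A7 hA5
  have hA8 : A8 := t_A8 hA6 hA7
  have hC1 : C1 := t_C1 hA2 hA3
  have hC3 : C3 := t_C3 hC1 hC2
  have hC6 : C6 := t_C6 hC1
  have hL3 : L3 := t_L3 
  have hE1 : E1 := t_E1 hC3 hC6 hL1 hL2 hL3 hL4
  have hC5 : C5 := t_C5 hA2 hA3 hC1
  have hC7 : C7 := t_C7 hA6 hC1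
  have hE2 : E2 := t_E2 hA2 hC1 hC2 hC3 hC5 hC6 hC7 hL1 hL3 hL4
  have hE3a : E3a := t_E3a hA2 hA3
  have hE3 : E3 := t_E3 hE3a
  have hB1 : B1 := t_B1 hA2 hL5
  have hB2 : B2 := t_B2 hA2 hB1 hL5
  have hE4a : E4a := t_E4a hC1 hC3 hC5 hC7 hL1 hL2 hL4 hL5
  have hE4 : E4 := t_E4 hA5 hB1 hB2 hC1 hC7 hD1 hE4a hL4 hL5
  have hB3 : B3 := t_B3 hB1
  have hE5a : E5a := t_E5a hA2 hA3 hB1 hL1 hL5
  have hE5 : E5 := t_E5 hB1 hB2 hB3 hE5a hL5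
  have hE6 : E6 := t_E6 hE1 hE2 hE3 hE4 hE5
  have hE7 : E7 := t_E7 hA2 hA5 hA8 hC1 hC4 hL1 hL4
  have hE8 : E8 := t_E8 hE6 hE7
  have hD3 : D3 := t_D3 hA5 hB1 hD1 hD4 hL5
  have hE9 : E9 := t_E9 hB2 hB3 hD3 hD4
  have hE10 : E10 := t_E10 hD2 hD4 hE9
  have hE11 : E11 := t_E11 hE8 hE10
  have hF1 : F1 := t_F1 hA2 hA3
  have hF2 : F2 := t_F2 hB2 hB3 hD4
  have hF3 : F3 := t_F3 hD2 hD3 hD4
  have hF4 : F4 := t_F4 hA8 hE11 hF1 hF2 hF3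
  have hG2 : G2 := t_G2 
  have hG3 : G3 := t_G3 hL1
  have hG4 : G4 := t_G4 hA4 hA5 hB1 hG2 hG3
  have hG5 : G5 := t_G5 hB2 hG3
  have hG6 : G6 := t_G6 hD2 hG3
  have hG7 : G7 := t_G7 
  have hG8 : G8 := t_G8 hA5 hA8 hB1 hD1 hG2 hG3 hG4 hG5 hG6 hG7
  have hH1 : H1 := t_H1 
  have hG9 : G9 := t_G9 hC4 hD2 hD4 hF4 hG8 hH1 hL1
  have hH2 : H2 := t_H2 
  have hH3 : H3 := t_H3 
  have hH4 : H4 := t_H4 
  have hI1 : I1 := t_I1 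
  have hI2 : I2 := t_I2 hB2 hL2 hL4 hL5
  have hI3 : I3 := t_I3 
  have hI4 : I4 := t_I4 hA2 hB1 hG3 hI2 hI3 hL1
  have hI5 : I5 := t_I5 
  have hI6 : I6 := t_I6 hB3 hI4 hI5 hL5
  have hI7 : I7 := t_I7 hB2 hB3 hG2 hG3 hG4 hH2 hH3 hH4 hI1 hI6
  exact t_ZZ hA4 hG1 hG9 hI7

end Pool.Agent.H191W
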