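import Pool.Agent.H191R4.WG.Defs

set_option autoImplicit false
set_option maxSynthPendingDepth 3

open scoped ENNReal Topology
open Filter

namespace Pool.Agent.H191W

open Forest

/-! ## L. Combinatorics of the forest -/

def L1 : Prop := ∀ (T : Type) (F : Forest T) (t s : T) (i : ℕ), F.anc t i = some s →
  F.lev t = F.lev s + i

def L2 : Prop := ∀ (T : Type) (F : Forest T), (∀ a, F.le a a) ∧
  (∀ a b c, F.le a b → F.le b c → F.le a c) ∧ (∀ a b, F.le a b → F.le b a → a = b) ∧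
  (∀ a b t, F.le a t → F.le b t → F.le a b ∨ F.le b a)

def L3 : Prop := ∀ (T : Type) (F : Forest T) (t : T) (n : ℕ), n ≤ F.lev t →
  ∃ s, F.lev s = n ∧ F.le s t

def L4 : Prop := ∀ (T : Type) (F : Forest T), (∀ t, F.IsUp (F.cone t)) ∧ (∀ n, F.IsUp (F.tail n)) ∧
  (∀ A B, F.IsUp A → F.IsUp B → F.IsUp (A ∩ B)) ∧
  (∀ a b, ¬ F.le a b → ¬ F.le b a → Disjoint (F.cone a) (F.cone b)) ∧
  (∀ A, F.IsUp A → ∀ a b, F.le a b → a ∈ A → b ∈ A) ∧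
  (∀ A, F.IsUp A → ∀ p s, s ∈ F.seg p → s ∈ A → p.1 ∈ A)

def L5 : Prop := ∀ (T : Type) (F : Forest T) (b : ℕ → T), F.IsBr b →
  (∀ i j, F.lev (b (i + j)) = F.lev (b i) + j) ∧ (∀ i j, i ≤ j → F.anc (b j) (j - i) = some (b i)) ∧
  (∀ i j, i ≤ j → F.le (b i) (b j)) ∧ Function.Injective b ∧
  (F.IsRBr b → (∀ i, F.lev (b i) = i) ∧ ∀ i s, F.le s (b i) → ∃ j ≤ i, s = b j)

/-! ## A. The space `W` -/

def A2 : Prop := ∀ (T : Type) (F : Forest T) (w : F.W) (S : Finset (T × ℕ)), F.Disj S →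
  ∑ p ∈ S, (F.ssum (F.coord w) p) ^ 2 ≤ ‖w‖ ^ 2

def A3 : Prop := ∀ (T : Type) (F : Forest T) (x : T → ℝ) (C : ℝ), 0 ≤ C →
  (∀ S : Finset (T × ℕ), F.Disj S → ∑ p ∈ S, (F.ssum x p) ^ 2 ≤ C ^ 2) →
  ∃ w : F.W, (∀ t, F.coord w t = x t) ∧ ‖w‖ ≤ C

def A4 : Prop := ∀ (T : Type) (F : Forest T), CompleteSpace F.W

open Classical in
def A5 : Prop := ∀ (T : Type) (F : Forest T) (t : T),
  (∀ s, F.coord (F.e t) s = if s = t then 1 else 0) ∧ ‖F.e t‖ ≤ 1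

def A6 : Prop := ∀ (T : Type) (F : Forest T) (w : F.W) (ε : ℝ), 0 < ε →
  ∃ v : F.W, F.FS v ∧ (∀ t, F.coord v t = F.coord w t ∨ F.coord v t = 0) ∧ ‖w - v‖ < ε

def A7 : Prop := ∀ (T : Type) (F : Forest T) (v : F.W) (h : F.FS v),
  v = ∑ t ∈ h.toFinset, F.coord v t • F.e t

def A8 : Prop := ∀ (T : Type) (F : Forest T),
  (Submodule.span ℝ (Set.range F.e)).topologicalClosure = ⊤

/-! ## B. Sums over infinite branches -/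

def B1 : Prop := ∀ (T : Type) (F : Forest T) (b : ℕ → T), F.IsBr b → ∀ w : F.W,
  Tendsto (fun n => ∑ i ∈ Finset.range n, F.coord w (b i)) atTop (𝓝 (F.brL b w))

def B2 : Prop := ∀ (T : Type) (F : Forest T) (ι : Type) (J : Finset ι) (b : ι → ℕ → T),
  (∀ a ∈ J, F.IsBr (b a)) →
  (∀ a ∈ J, ∀ c ∈ J, a ≠ c → Disjoint (Set.range (b a)) (Set.range (b c))) →
  ∀ w : F.W, ∑ a ∈ J, (F.brL (b a) w) ^ 2 ≤ ‖w‖ ^ 2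

def B3 : Prop := ∀ (T : Type) (F : Forest T) (b : ℕ → T), F.IsBr b → ∀ w : F.W,
  (∀ s, F.brL b w = ∑ i ∈ Finset.range s, F.coord w (b i) + F.brL (fun i => b (i + s)) w) ∧
  Tendsto (fun s => F.brL (fun i => b (i + s)) w) atTop (𝓝 0)

/-! ## C. Restrictions and orthogonal sums -/

open Classical in
def C1 : Prop := ∀ (T : Type) (F : Forest T) (A : Set T), F.IsUp A →
  (∀ w t, F.coord (F.res A w) t = if t ∈ A then F.coord w t else 0) ∧ ∀ w, ‖F.res A w‖ ≤ ‖w‖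

def C2 : Prop := ∀ (T : Type) (F : Forest T) (ι : Type) (J : Finset ι) (A : ι → Set T)
  (w : ι → F.W), (∀ a ∈ J, F.IsUp (A a)) →
  (∀ a ∈ J, ∀ c ∈ J, a ≠ c → Disjoint (A a) (A c)) → (∀ a ∈ J, F.SuppIn (w a) (A a)) →
  ‖∑ a ∈ J, w a‖ ^ 2 ≤ ∑ a ∈ J, ‖w a‖ ^ 2

def C3 : Prop := ∀ (T : Type) (F : Forest T) (ι : Type) (J : Finset ι) (A : ι → Set T),
  (∀ a ∈ J, F.IsUp (A a)) → (∀ a ∈ J, ∀ c ∈ J, a ≠ c → Disjoint (A a) (A c)) →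
  ∀ g : F.W →L[ℝ] ℝ, ∑ a ∈ J, ‖g.comp (F.res (A a))‖ ^ 2 ≤ ‖g‖ ^ 2

def C4 : Prop := ∀ (T : Type) (F : Forest T) (J : Finset T),
  (∀ a ∈ J, ∀ b ∈ J, a ≠ b → ¬ F.le a b) →
  ∀ g : F.W →L[ℝ] ℝ, ∑ t ∈ J, (g (F.e t)) ^ 2 ≤ ‖g‖ ^ 2

def C5 : Prop := ∀ (T : Type) (F : Forest T) (ι : Type) (J : Finset ι) (A : ι → Set T),
  (∀ a ∈ J, F.IsUp (A a)) → (∀ a ∈ J, ∀ c ∈ J, a ≠ c → Disjoint (A a) (A c)) →
  ∀ w : F.W, ∑ a ∈ J, ‖F.res (A a) w‖ ^ 2 ≤ ‖w‖ ^ 2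

def C6 : Prop := ∀ (T : Type) (F : Forest T) (A B : Set T), F.IsUp A → F.IsUp B → A ⊆ B →
  ∀ g : F.W →L[ℝ] ℝ, ‖g.comp (F.res A)‖ ≤ ‖g.comp (F.res B)‖ ∧ ‖g.comp (F.res B)‖ ≤ ‖g‖

/-- norming vectors with finite support -/
def C7 : Prop := ∀ (T : Type) (F : Forest T) (A : Set T), F.IsUp A → ∀ (g : F.W →L[ℝ] ℝ) (q : ℝ),
  q < ‖g.comp (F.res A)‖ → ∃ x : F.W, F.FS x ∧ F.SuppIn x A ∧ ‖x‖ ≤ 1 ∧ q < g x

/-! ## D. The elements `uu b` of the bidual -/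

def D1 : Prop := ∀ (T : Type) (F : Forest T) (b : ℕ → T) (g : StrongDual ℝ F.W),
  Tendsto (fun i => g (F.e (b i))) (hyperfilter ℕ : Filter ℕ) (𝓝 (F.uu b g))

def D2 : Prop := ∀ (T : Type) (F : Forest T) (ι : Type) (J : Finset ι) (b : ι → ℕ → T),
  (∀ a ∈ J, ∀ c ∈ J, a ≠ c → ∀ᶠ i in atTop, ¬ F.le (b a i) (b c i)) →
  (∀ g : StrongDual ℝ F.W, ∑ a ∈ J, (F.uu (b a) g) ^ 2 ≤ ‖g‖ ^ 2) ∧
  ∀ c : ι → ℝ, ‖∑ a ∈ J, c a • F.uu (b a)‖ ^ 2 ≤ ∑ a ∈ J, (c a) ^ 2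

open Classical in
def D3 : Prop := ∀ (T : Type) (F : Forest T) (b : ℕ → T), F.IsRBr b →
  (∀ t, F.uu b (F.cf t) = 0) ∧
  ∀ b', F.IsRBr b' → F.uu b (F.brL b') = if b = b' then 1 else 0

/-- different root branches are eventually incomparable, and have disjoint tails -/
def D4 : Prop := ∀ (T : Type) (F : Forest T) (b b' : ℕ → T), F.IsRBr b → F.IsRBr b' → b ≠ b' →
  ∃ n, (∀ i, n ≤ i → ¬ F.le (b i) (b' i)) ∧ ∀ i j, n ≤ i → b i ≠ b' j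

/-! ## E. The dual of `W` is generated by the coordinates and the branches -/

def Big (T : Type) (F : Forest T) (g : StrongDual ℝ F.W) (ε : ℝ) (t : T) : Prop :=
  ∀ n, ε ≤ ‖g.comp (F.res (F.cone t ∩ F.tail n))‖

def E1 : Prop := ∀ (T : Type) (F : Forest T) (g : StrongDual ℝ F.W) (ε : ℝ), 0 < ε →
  (∀ n, ∃ t, F.lev t = n ∧ Big T F g ε t) →
  ∃ b, F.IsRBr b ∧ ∀ i, Big T F g ε (b i)

def E2 : Prop := ∀ (T : Type) (F : Forest T) (g : StrongDual ℝ F.W) (q ε : ℝ) (n : ℕ),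
  0 < q → 0 < ε → (∀ N, q ≤ ‖g.comp (F.res (F.tail N))‖) →
  (∀ t, F.lev t = n → ¬ Big T F g ε t) →
  ∀ N, ∃ y : F.W, F.FS y ∧ F.SuppIn y (F.tail N) ∧ ‖y‖ ≤ ‖g‖ ∧ q ^ 2 / 8 ≤ g y ∧
    ∀ p, |F.ssum (F.coord y) p| ≤ ε

/-- adding a far block with small segment sums -/
def E3a : Prop := ∀ (T : Type) (F : Forest T) (Y y : F.W) (N : ℕ) (ε : ℝ) (hY : F.FS Y), 0 ≤ ε →
  (∀ t, F.coord Y t ≠ 0 → F.lev t < N) → F.SuppIn y (F.tail N) →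
  (∀ p, |F.ssum (F.coord y) p| ≤ ε) →
  ‖Y + y‖ ^ 2 ≤ ‖Y‖ ^ 2 + ‖y‖ ^ 2 + 2 * ε * hY.toFinset.card * ‖Y‖

def E3 : Prop := ∀ (T : Type) (F : Forest T) (g : StrongDual ℝ F.W) (M c : ℝ), 0 < c →
  (∀ ε : ℝ, 0 < ε → ∀ N, ∃ y : F.W, F.FS y ∧ F.SuppIn y (F.tail N) ∧ ‖y‖ ≤ M ∧ c ≤ g y ∧
    ∀ p, |F.ssum (F.coord y) p| ≤ ε) → False

/-- the part of the cone of `b n` off the branch `b` carries little of `g` -/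
def E4a : Prop := ∀ (T : Type) (F : Forest T) (g : StrongDual ℝ F.W) (b : ℕ → T), F.IsRBr b →
  (∀ n, F.IsUp (F.cone (b n) \ Set.range b)) ∧
  ∀ ε : ℝ, 0 < ε → ∀ n0, ∃ n, n0 ≤ n ∧ ‖g.comp (F.res (F.cone (b n) \ Set.range b))‖ ≤ ε

def E4 : Prop := ∀ (T : Type) (F : Forest T) (g : StrongDual ℝ F.W) (b : ℕ → T) (ε : ℝ), 0 < ε →
  F.IsRBr b → (∀ i, Big T F g ε (b i)) → F.uu b g = 0 →
  ∀ N, ∃ y : F.W, F.FS y ∧ F.SuppIn y (Set.range b ∩ F.tail N) ∧ ‖y‖ ≤ 4 ∧ F.brL b y = 0 ∧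
    ε / 8 ≤ g y

/-- adding a far block on the branch `b` -/
def E5a : Prop := ∀ (T : Type) (F : Forest T) (b : ℕ → T) (Y y : F.W) (N : ℕ) (M : ℝ),
  F.IsRBr b → F.SuppIn Y (Set.range b) → (∀ t, F.coord Y t ≠ 0 → F.lev t < N) →
  F.SuppIn y (Set.range b ∩ F.tail N) → (∀ a, |F.brL (fun i => b (i + a)) Y| ≤ M) → ‖y‖ ≤ M →
  ‖Y + y‖ ^ 2 ≤ ‖Y‖ ^ 2 + ‖y‖ ^ 2 + 2 * M ^ 2

def E5 : Prop := ∀ (T : Type) (F : Forest T) (g : StrongDual ℝ F.W) (b : ℕ → T) (M c : ℝ),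
  0 < c → F.IsRBr b →
  (∀ N, ∃ y : F.W, F.FS y ∧ F.SuppIn y (Set.range b ∩ F.tail N) ∧ ‖y‖ ≤ M ∧ F.brL b y = 0 ∧
    c ≤ g y) → False

def E6 : Prop := ∀ (T : Type) (F : Forest T) (g : StrongDual ℝ F.W),
  (∀ b, F.IsRBr b → F.uu b g = 0) → ∀ ε : ℝ, 0 < ε → ∃ n, ‖g.comp (F.res (F.tail n))‖ < ε

def E7 : Prop := ∀ (T : Type) (F : Forest T) (g : StrongDual ℝ F.W) (n : ℕ),
  g - g.comp (F.res (F.tail n)) ∈ (Submodule.span ℝ (Set.range F.cf)).topologicalClosure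

def E8 : Prop := ∀ (T : Type) (F : Forest T) (g : StrongDual ℝ F.W),
  (∀ b, F.IsRBr b → F.uu b g = 0) →
  g ∈ (Submodule.span ℝ (Set.range F.cf)).topologicalClosure

/-- a finitely supported sequence on the root branches is attained with the right norm -/
def E9 : Prop := ∀ (T : Type) (F : Forest T) (J : Finset (ℕ → T)), (∀ b ∈ J, F.IsRBr b) →
  ∀ c : (ℕ → T) → ℝ,
  ∃ h ∈ Submodule.span ℝ (Set.range F.cf ∪ F.brL '' {b | F.IsRBr b}),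
    ‖h‖ ^ 2 ≤ ∑ b ∈ J, (c b) ^ 2 ∧ (∀ b ∈ J, F.uu b h = c b) ∧
    ∀ b, F.IsRBr b → b ∉ J → F.uu b h = 0

def E10 : Prop := ∀ (T : Type) (F : Forest T) (g : StrongDual ℝ F.W),
  ∃ h ∈ (Submodule.span ℝ (Set.range F.cf ∪ F.brL '' {b | F.IsRBr b})).topologicalClosure,
    ∀ b, F.IsRBr b → F.uu b h = F.uu b g

def E11 : Prop := ∀ (T : Type) (F : Forest T),
  (Submodule.span ℝ (Set.range F.cf ∪ F.brL '' {b | F.IsRBr b})).topologicalClosure = ⊤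

/-! ## F. The bidual of `W` -/

def F1 : Prop := ∀ (T : Type) (F : Forest T) (ν : StrongDual ℝ (StrongDual ℝ F.W)),
  ∃ w : F.W, ∀ t, F.coord w t = ν (F.cf t)

def F2 : Prop := ∀ (T : Type) (F : Forest T) (ν : StrongDual ℝ (StrongDual ℝ F.W)),
  (∀ t, ν (F.cf t) = 0) → ∀ J : Finset (ℕ → T), (∀ b ∈ J, F.IsRBr b) →
  ∑ b ∈ J, (ν (F.brL b)) ^ 2 ≤ ‖ν‖ ^ 2

def F3 : Prop := ∀ (T : Type) (F : Forest T) (φ : (ℕ → T) → ℝ) (C : ℝ),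
  (∀ J : Finset (ℕ → T), (∀ b ∈ J, F.IsRBr b) → ∑ b ∈ J, (φ b) ^ 2 ≤ C) →
  ∃ ν ∈ (Submodule.span ℝ (F.uu '' {b | F.IsRBr b})).topologicalClosure,
    (∀ t, ν (F.cf t) = 0) ∧ ∀ b, F.IsRBr b → ν (F.brL b) = φ b

def F4 : Prop := ∀ (T : Type) (F : Forest T),
  (Submodule.span ℝ (Set.range (fun t => NormedSpace.inclusionInDoubleDual ℝ F.W (F.e t)) ∪
    F.uu '' {b | F.IsRBr b})).topologicalClosure = ⊤

/-! ## G. The special forest and the space `X` -/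

def G1 : Prop := ∃ Φ : (ℕ → ℕ) → (ℕ → List ((ℕ → ℕ) × ℕ)), Function.Surjective Φ

def G2 : Prop := ∀ (G : Type) (Φ : G → ℕ → List (G × ℕ)) (w : (mkForest Φ).W),
  w ∈ XX Φ ↔ ∀ γ k, (mkForest Φ).brL (line γ k) w = (1 / 2 : ℝ) ^ k *
    (mkForest Φ).brL (line γ 0) w

def G3 : Prop := ∀ (G : Type) (Φ : G → ℕ → List (G × ℕ)) (γ γ' : G) (k k' : ℕ),
  (mkForest Φ).IsBr (line γ k) ∧
  ((γ, k) ≠ (γ', k') → Disjoint (Set.range (line γ k)) (Set.range (line γ' k')) ∧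
    ∀ᶠ i in atTop, ¬ (mkForest Φ).le (line γ k i) (line γ' k' i))

open Classical in
def G4 : Prop := ∀ (G : Type) (Φ : G → ℕ → List (G × ℕ)) (γ : G),
  (∀ k i j, (mkForest Φ).e (γ, k, i) - (mkForest Φ).e (γ, k, j) ∈ XX Φ) ∧
  ∃ x ∈ XX Φ, HasSum (fun k : ℕ => (1 / 2 : ℝ) ^ k • (mkForest Φ).e (γ, k, 0)) x ∧
    ∀ γ' k, (mkForest Φ).brL (line γ' k) x = if γ' = γ then (1 / 2 : ℝ) ^ k else 0

def G5 : Prop := ∀ (G : Type) (Φ : G → ℕ → List (G × ℕ)),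
  ∃ θ : (mkForest Φ).W →L[ℝ] lp (fun _ : G × ℕ => ℝ) 2,
    ∀ w γ k, θ w (γ, k) = (mkForest Φ).brL (line γ k) w

def G6 : Prop := ∀ (G : Type) (Φ : G → ℕ → List (G × ℕ)),
  ∃ c : StrongDual ℝ (mkForest Φ).W →L[ℝ] lp (fun _ : G × ℕ => ℝ) 2,
    ∀ g γ k, c g (γ, k) = (mkForest Φ).uu (line γ k) g

def G7 : Prop := ∀ (G : Type),
  ∃ Q : lp (fun _ : G × ℕ => ℝ) 2 →L[ℝ] lp (fun _ : G × ℕ => ℝ) 2,
    (∀ v u, (∀ γ k, u (γ, k) = (1 / 2 : ℝ) ^ k * u (γ, 0)) → inner ℝ (Q v) u = 0) ∧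
    ∀ v, (∀ γ, HasSum (fun k : ℕ => (1 / 2 : ℝ) ^ k * v (γ, k)) 0) → Q v = v

/-- bounded linear extension operator -/
def G8 : Prop := ∀ (G : Type) (Φ : G → ℕ → List (G × ℕ)),
  ∃ D : StrongDual ℝ (XX Φ) →L[ℝ] StrongDual ℝ (mkForest Φ).W,
    ∀ (f : StrongDual ℝ (XX Φ)) (x : XX Φ), D f (x : (mkForest Φ).W) = f x

def G9 : Prop := ∀ (G : Type) (Φ : G → ℕ → List (G × ℕ)),
  IsWCG (StrongDual ℝ (StrongDual ℝ (XX Φ)))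

/-! ## H. General facts on weak compactness -/

def H1 : Prop := ∀ (Z : Type) [NormedAddCommGroup Z] [NormedSpace ℝ Z] (ι : Type) (z : ι → Z),
  (∀ φ : StrongDual ℝ Z, Tendsto (fun i => φ (z i)) cofinite (𝓝 0)) →
  (Submodule.span ℝ (Set.range z)).topologicalClosure = ⊤ → IsWCG Z

def H2 : Prop := ∀ (Z : Type) [NormedAddCommGroup Z] [NormedSpace ℝ Z], IsWCG Z →
  ∃ C : ℕ → Set Z, (∀ n, IsCompact (toWeakSpace ℝ Z '' C n)) ∧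
    ∀ x : Z, ∀ ε : ℝ, 0 < ε → ∃ n, ∃ y ∈ C n, ‖x - y‖ < ε

def H3 : Prop := ∀ (Z : Type) [NormedAddCommGroup Z] [NormedSpace ℝ Z] (K : Set Z),
  IsCompact (toWeakSpace ℝ Z '' K) → ∃ M : ℝ, ∀ x ∈ K, ‖x‖ ≤ M

/-- cluster points of a sequence of differences in a weakly compact set -/
def H4 : Prop := ∀ (Z : Type) [NormedAddCommGroup Z] [NormedSpace ℝ Z] (K : Set Z),
  IsCompact (toWeakSpace ℝ Z '' K) → ∀ x y : ℕ → Z, (∀ n, x n ∈ K) → (∀ n, y n ∈ K) →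
  ∃ z : Z, ∀ (f : StrongDual ℝ Z) (c : ℝ), (∃ n0, ∀ n, n0 ≤ n → c ≤ f (x n - y n)) → c ≤ f z

/-! ## I. `X` is not WCG -/

def I1 : Prop := ∀ (G : Type) [Nonempty G] (Φ : G → ℕ → List (G × ℕ)), Function.Surjective Φ →
  ∀ n : G → ℕ, ∃ N k, ∀ F : List (G × ℕ), {γ | n γ = N ∧ Φ γ k = F}.Infinite

def I2 : Prop := ∀ (T : Type) (F : Forest T) (w : F.W) (ε : ℝ), 0 < ε → ∀ B : Set T,
  (∀ a ∈ B, ∀ b ∈ B, a ≠ b → ¬ F.le a b) →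
  {t ∈ B | ∃ b, F.IsBr b ∧ b 0 = t ∧ ε < |F.brL b w|}.Finite

def I3 : Prop := ∀ (G : Type) (A : Set G), A.Infinite → ∀ (L : ℕ) (v : G → Fin L → ℝ) (M ε : ℝ),
  0 < ε → (∀ γ ∈ A, ∀ l, |v γ l| ≤ M) →
  ∃ A' ⊆ A, A'.Infinite ∧ ∀ γ ∈ A', ∀ δ ∈ A', ∀ l, |v γ l - v δ l| ≤ ε

/-- the recursive construction -/
def I4 : Prop := ∀ (G : Type) (Φ : G → ℕ → List (G × ℕ)) (k : ℕ) (A : Set G)
  (κ : G → (mkForest Φ).W) (M c : ℝ), 0 < c → (∀ γ ∈ A, ‖κ γ‖ ≤ M) →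
  (∀ γ ∈ A, c ≤ (mkForest Φ).brL (line γ k) (κ γ)) →
  (∀ F : List (G × ℕ), {γ | γ ∈ A ∧ Φ γ k = F}.Infinite) →
  ∃ (γ δ : ℕ → G) (m : ℕ → ℕ),
    (∀ j, γ j ∈ A ∧ δ j ∈ A) ∧ Φ (γ 0) k = [] ∧
    (∀ j, Φ (γ (j + 1)) k = (γ j, m j) :: Φ (γ j) k) ∧
    (∀ j, 3 * c / 4 ≤ ∑ l ∈ Finset.range (m j + 1), (mkForest Φ).coord (κ (γ j)) (γ j, k, l)) ∧
    (∀ j b, (mkForest Φ).IsBr b → b 0 = (γ (j + 1), k, 0) →
      |(mkForest Φ).brL b (κ (γ j))| ≤ c / 8 ∧ |(mkForest Φ).brL b (κ (δ j))| ≤ c / 8) ∧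
    (∀ j n, |(mkForest Φ).ssum ((mkForest Φ).coord (κ (γ (j + 1)))) ((γ j, k, m j), n) -
      (mkForest Φ).ssum ((mkForest Φ).coord (κ (δ j))) ((γ j, k, m j), n)| ≤ c / 8)

/-- the branch through the lines `γ 0, γ 1, ...` -/
def I5 : Prop := ∀ (G : Type) (Φ : G → ℕ → List (G × ℕ)) (k : ℕ) (γ : ℕ → G) (m : ℕ → ℕ),
  Φ (γ 0) k = [] → (∀ j, Φ (γ (j + 1)) k = (γ j, m j) :: Φ (γ j) k) →
  ∃ (S : ℕ → G × ℕ × ℕ) (L : ℕ → ℕ), (mkForest Φ).IsBr S ∧ L 0 = 0 ∧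
    (∀ j, L (j + 1) = L j + m j + 1) ∧ (∀ j l, l ≤ m j → S (L j + l) = (γ j, k, l))

/-- the key inequality -/
def I6 : Prop := ∀ (G : Type) (Φ : G → ℕ → List (G × ℕ)) (k : ℕ) (A : Set G)
  (κ : G → (mkForest Φ).W) (M c : ℝ), 0 < c → (∀ γ ∈ A, ‖κ γ‖ ≤ M) →
  (∀ γ ∈ A, c ≤ (mkForest Φ).brL (line γ k) (κ γ)) →
  (∀ F : List (G × ℕ), {γ | γ ∈ A ∧ Φ γ k = F}.Infinite) →
  ∃ (S : ℕ → G × ℕ × ℕ) (γ δ : ℕ → G), (mkForest Φ).IsBr S ∧ (∀ j, γ j ∈ A ∧ δ j ∈ A) ∧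
    ∀ s, ∃ j0, ∀ j, j0 ≤ j → c / 4 ≤ (mkForest Φ).brL (fun i => S (i + s)) (κ (γ j) - κ (δ j))

def I7 : Prop := ∀ (G : Type) [Nonempty G] (Φ : G → ℕ → List (G × ℕ)), Function.Surjective Φ →
  ¬ IsWCG (XX Φ)

/-- the final result -/
def Final : Prop := ∃ (X : Type) (_ : NormedAddCommGroup X) (_ : NormedSpace ℝ X)
  (_ : CompleteSpace X), ¬ IsWCG X ∧ IsWCG (StrongDual ℝ (StrongDual ℝ X))

end Pool.Agent.H191W
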