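import Pool.Agent.H191R4.WG.Stubs

set_option autoImplicit false
set_option maxSynthPendingDepth 3

open scoped ENNReal Topology
open Filter

namespace Pool.Agent.H191W

theorem t_A4 : A4 := by
  intro T F
  have hev : ∀ q : F.Idx, Continuous fun f : lp (fun _ : F.Idx => ℝ) ∞ => (f q : ℝ) := fun q =>
    (continuous_apply q).comp lp.uniformContinuous_coe.continuous
  have hcl : IsClosed ((F.W : Submodule ℝ (lp (fun _ : F.Idx => ℝ) ∞)) :
      Set (lp (fun _ : F.Idx => ℝ) ∞)) := by
    have he : ((F.W : Submodule ℝ (lp (fun _ : F.Idx => ℝ) ∞)) :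
        Set (lp (fun _ : F.Idx => ℝ) ∞)) = ⋂ q : F.Idx, {f | (f q : ℝ) =
          ∑ p ∈ q.1.1, q.1.2 p * F.ssum (fun t => (f (F.dlt t) : ℝ)) p} := by
      ext f
      rw [Set.mem_iInter]
      exact Iff.rfl
    rw [he]
    refine isClosed_iInter fun q => isClosed_eq (hev q) ?_
    refine continuous_finsetSum _ fun p _ => continuous_const.mul ?_
    unfold Forest.ssum
    refine continuous_finsetSum _ fun i _ => ?_
    cases F.anc p.1 i with
    | none => exact continuous_const
    | some t => exact hev (F.dlt t)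
  exact hcl.completeSpace_coe

end Pool.Agent.H191W
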