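import Pool.Agent.H191R4.WG.Stubs

set_option autoImplicit false
set_option maxSynthPendingDepth 3

open scoped ENNReal Topology
open Filter

namespace Pool.Agent.H191W

open Forest

theorem E3a_exists {T : Type} (F : Forest T) (x : T → ℝ) (p : T × ℕ) (h : F.ssum x p ≠ 0) :
    ∃ t ∈ F.seg p, x t ≠ 0 := by
  by_contra hcon
  push Not at hcon
  apply h
  unfold Forest.ssum
  refine Finset.sum_eq_zero (fun i hi => ?_)
  cases hc : F.anc p.1 i with
  | none => simp
  | some t =>
    simp only [Option.elim]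
    exact hcon t ⟨i, by simpa [Nat.lt_succ_iff] using hi, hc⟩

theorem E3a_le {T : Type} (hA2 : A2) (F : Forest T) (w : F.W) (p : T × ℕ) :
    |F.ssum (F.coord w) p| ≤ ‖w‖ := by
  have := hA2 T F w {p} (by unfold Forest.Disj; simp)
  rw [Finset.sum_singleton] at this
  exact abs_le_of_sq_le_sq this (norm_nonneg _)

theorem t_E3a (hA2 : A2) (hA3 : A3) : E3a := by
  classical
  intro T F Y y N ε hY hε _ _ hy
  set R : ℝ := ‖Y‖ ^ 2 + ‖y‖ ^ 2 + 2 * ε * hY.toFinset.card * ‖Y‖ with hR
  have hR0 : 0 ≤ R := by positivity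
  obtain ⟨w, hw, hwn⟩ := hA3 T F (F.coord (Y + y)) (Real.sqrt R) (Real.sqrt_nonneg _) (by
    intro S hS
    rw [Real.sq_sqrt hR0]
    have hadd : ∀ p, F.ssum (F.coord (Y + y)) p =
        F.ssum (F.coord Y) p + F.ssum (F.coord y) p := by
      intro p
      have : F.coord (Y + y) = fun t => F.coord Y t + F.coord y t := rfl
      rw [this, F.ssum_add]
    have h1 := hA2 T F Y S hS
    have h2 := hA2 T F y S hS
    have h3 : ∑ p ∈ S, F.ssum (F.coord Y) p * F.ssum (F.coord y) p ≤
        ε * hY.toFinset.card * ‖Y‖ := by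
      set S' := S.filter (fun p => F.ssum (F.coord Y) p ≠ 0) with hS'
      have hsub : ∑ p ∈ S, F.ssum (F.coord Y) p * F.ssum (F.coord y) p =
          ∑ p ∈ S', F.ssum (F.coord Y) p * F.ssum (F.coord y) p := by
        rw [hS', Finset.sum_filter]
        refine Finset.sum_congr rfl (fun p _ => ?_)
        by_cases h : F.ssum (F.coord Y) p = 0
        · simp [h]
        · simp [h]
      rw [hsub]
      have hcard : S'.card ≤ hY.toFinset.card := by
        have hch : ∀ p : T × ℕ, ∃ t : T, p ∈ S' → t ∈ F.seg p ∧ F.coord Y t ≠ 0 := by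
          intro p
          by_cases hp : p ∈ S'
          · obtain ⟨t, ht, ht2⟩ := E3a_exists F (F.coord Y) p (Finset.mem_filter.1 hp).2
            exact ⟨t, fun _ => ⟨ht, ht2⟩⟩
          · exact ⟨p.1, fun h => absurd h hp⟩
        choose f hf using hch
        refine Finset.card_le_card_of_injOn f (fun p hp => ?_) ?_
        · have := (hf p hp).2
          exact (Set.Finite.mem_toFinset hY).2 this
        · intro p hp q hq hpq
          by_contra hne
          have hd := hS (Finset.mem_coe.2 (Finset.mem_filter.1 hp).1)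
            (Finset.mem_coe.2 (Finset.mem_filter.1 hq).1) hne
          have h5 : f p ∈ F.seg p := (hf p hp).1
          have h6 : f p ∈ F.seg q := by rw [hpq]; exact (hf q hq).1
          exact Set.disjoint_left.1 hd h5 h6
      calc ∑ p ∈ S', F.ssum (F.coord Y) p * F.ssum (F.coord y) p
          ≤ ∑ p ∈ S', ‖Y‖ * ε := by
            refine Finset.sum_le_sum (fun p _ => ?_)
            refine le_trans (le_abs_self _) ?_
            rw [abs_mul]
            exact mul_le_mul (E3a_le hA2 F Y p) (hy p) (abs_nonneg _) (norm_nonneg _)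
        _ = S'.card * (‖Y‖ * ε) := by rw [Finset.sum_const, nsmul_eq_mul]
        _ ≤ hY.toFinset.card * (‖Y‖ * ε) := by
            refine mul_le_mul_of_nonneg_right ?_ (by positivity)
            exact_mod_cast hcard
        _ = ε * hY.toFinset.card * ‖Y‖ := by ring
    calc ∑ p ∈ S, (F.ssum (F.coord (Y + y)) p) ^ 2
        = ∑ p ∈ S, (F.ssum (F.coord Y) p) ^ 2 + ∑ p ∈ S, (F.ssum (F.coord y) p) ^ 2 +
          2 * ∑ p ∈ S, F.ssum (F.coord Y) p * F.ssum (F.coord y) p := by
          rw [Finset.mul_sum, ← Finset.sum_add_distrib, ← Finset.sum_add_distrib]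
          refine Finset.sum_congr rfl (fun p _ => ?_)
          rw [hadd]; ring
      _ ≤ R := by rw [hR]; linarith)
  have hwe : Y + y = w := F.coord_ext (fun t => (hw t).symm)
  rw [hwe]
  calc ‖w‖ ^ 2 ≤ (Real.sqrt R) ^ 2 := by
        exact pow_le_pow_left₀ (norm_nonneg _) hwn 2
    _ = R := Real.sq_sqrt hR0

end Pool.Agent.H191W
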