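import Pool.Agent.H191R4.WG.Stubs

set_option autoImplicit false
set_option maxSynthPendingDepth 3

open scoped ENNReal Topology
open Filter

namespace Pool.Agent.H191W

open Forest

theorem t_E9 (hB2 : B2) (hB3 : B3) (hD3 : D3) (hD4 : D4) : E9 := by
  classical
  intro T F J hJ c
  -- common n
  have hn : ∃ n, ∀ b ∈ J, ∀ b' ∈ J, b ≠ b' → ∀ i j, n ≤ i → b i ≠ b' j := by
    have h1 : ∀ p : (ℕ → T) × (ℕ → T), ∃ n, p.1 ∈ J → p.2 ∈ J → p.1 ≠ p.2 →
        ∀ i j, n ≤ i → p.1 i ≠ p.2 j := by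
      rintro ⟨b, b'⟩
      by_cases h : b ∈ J ∧ b' ∈ J ∧ b ≠ b'
      · obtain ⟨n, hn⟩ := hD4 T F b b' (hJ b h.1) (hJ b' h.2.1) h.2.2
        exact ⟨n, fun _ _ _ => hn.2⟩
      · exact ⟨0, fun h2 h3 h4 => absurd ⟨h2, h3, h4⟩ h⟩
    choose N hN using h1
    refine ⟨(J ×ˢ J).sup N, ?_⟩
    intro b hb b' hb' hne i j hi
    have h2 : N (b, b') ≤ (J ×ˢ J).sup N :=
      Finset.le_sup (f := N) (Finset.mem_product.mpr ⟨hb, hb'⟩)
    exact hN (b, b') hb hb' hne i j (h2.trans hi)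
  obtain ⟨n, hn⟩ := hn
  have hbr : ∀ b ∈ J, F.IsBr (fun i => b (i + n)) := by
    intro b hb i
    have := (hJ b hb).2 (i + n)
    show F.par (b (i + 1 + n)) = some (b (i + n))
    rw [show i + 1 + n = i + n + 1 by ring]
    exact this
  have hshift : ∀ b, F.IsRBr b → F.brL (fun i => b (i + n)) =
      F.brL b - ∑ i ∈ Finset.range n, F.cf (b i) := by
    intro b hb
    ext w
    have h1 := (hB3 T F b hb.2 w).1 n
    rw [sub_apply, h1]
    simp
  refine ⟨∑ b ∈ J, c b • F.brL (fun i => b (i + n)), ?_, ?_, ?_, ?_⟩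
  · refine Submodule.sum_mem _ fun b hb => Submodule.smul_mem _ _ ?_
    rw [hshift b (hJ b hb)]
    refine Submodule.sub_mem _ (Submodule.subset_span (Or.inr ⟨b, hJ b hb, rfl⟩)) ?_
    exact Submodule.sum_mem _ fun i _ => Submodule.subset_span (Or.inl ⟨b i, rfl⟩)
  · have h1 : ‖∑ b ∈ J, c b • F.brL (fun i => b (i + n))‖ ≤ Real.sqrt (∑ b ∈ J, (c b) ^ 2) := by
      refine ContinuousLinearMap.opNorm_le_bound _ (Real.sqrt_nonneg _) fun w => ?_
      have h2 := hB2 T F (ℕ → T) J (fun b i => b (i + n)) (fun b hb => hbr b hb) (by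
        intro a ha d hd had
        rw [Set.disjoint_left]
        rintro x ⟨i, rfl⟩ ⟨j, hj⟩
        exact hn a ha d hd had (i + n) (j + n) (by omega) hj.symm) w
      have h3 : (∑ b ∈ J, c b • F.brL (fun i => b (i + n))) w =
          ∑ b ∈ J, c b * F.brL (fun i => b (i + n)) w := by
        simp
      rw [h3, Real.norm_eq_abs]
      have h4 := Finset.sum_mul_sq_le_sq_mul_sq J c (fun b => F.brL (fun i => b (i + n)) w)
      have h5 : (∑ b ∈ J, c b * F.brL (fun i => b (i + n)) w) ^ 2 ≤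
          (Real.sqrt (∑ b ∈ J, (c b) ^ 2) * ‖w‖) ^ 2 := by
        rw [mul_pow, Real.sq_sqrt (Finset.sum_nonneg fun _ _ => sq_nonneg _)]
        exact h4.trans (mul_le_mul_of_nonneg_left h2 (Finset.sum_nonneg fun _ _ => sq_nonneg _))
      exact abs_le_of_sq_le_sq h5 (by positivity)
    calc ‖∑ b ∈ J, c b • F.brL (fun i => b (i + n))‖ ^ 2 ≤ (Real.sqrt (∑ b ∈ J, (c b) ^ 2)) ^ 2 := by
          gcongr
      _ = _ := Real.sq_sqrt (Finset.sum_nonneg fun _ _ => sq_nonneg _)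
  · intro b hb
    have hv : ∀ a ∈ J, F.uu b (F.brL (fun i => a (i + n))) = if b = a then 1 else 0 := by
      intro a ha
      rw [hshift a (hJ a ha), map_sub, map_sum, (hD3 T F b (hJ b hb)).2 a (hJ a ha)]
      simp [(hD3 T F b (hJ b hb)).1]
    rw [map_sum]
    rw [Finset.sum_congr rfl (fun a ha => by rw [map_smul, hv a ha])]
    simp [hb]
  · intro b hb hbJ
    have hv : ∀ a ∈ J, F.uu b (F.brL (fun i => a (i + n))) = if b = a then 1 else 0 := by
      intro a ha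
      rw [hshift a (hJ a ha), map_sub, map_sum, (hD3 T F b hb).2 a (hJ a ha)]
      simp [(hD3 T F b hb).1]
    rw [map_sum]
    rw [Finset.sum_congr rfl (fun a ha => by rw [map_smul, hv a ha])]
    simp [hbJ]

end Pool.Agent.H191W
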