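import Pool.Agent.H191R4.WG.Stubs

set_option autoImplicit false
set_option maxSynthPendingDepth 3

open scoped ENNReal Topology
open Filter

namespace Pool.Agent.H191W

open Forest

theorem G8_brL_e (hA5 : A5) (hB1 : B1) (hG3 : G3) (G : Type) (Φ : G → ℕ → List (G × ℕ))
    (γ : G) (k i : ℕ) (γ' : G) (k' : ℕ) [Decidable ((γ', k') = (γ, k))] :
    (mkForest Φ).brL (line γ' k') ((mkForest Φ).e (γ, k, i)) =
      if (γ', k') = (γ, k) then (1 : ℝ) else 0 := by
  classical
  have h1 := hB1 _ (mkForest Φ) (line γ' k') (hG3 G Φ γ' γ' k' k').1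
    ((mkForest Φ).e (γ, k, i))
  have hA := (hA5 _ (mkForest Φ) (γ, k, i)).1
  simp only [hA] at h1
  by_cases h : (γ', k') = (γ, k)
  · rw [if_pos h]
    simp only [Prod.mk.injEq] at h
    obtain ⟨rfl, rfl⟩ := h
    refine tendsto_nhds_unique h1 ?_
    refine tendsto_const_nhds.congr' ?_
    filter_upwards [eventually_gt_atTop i] with n hn
    rw [Finset.sum_eq_single i]
    · simp [line]
    · intro j _ hj
      rw [if_neg]
      intro h
      simp only [line, Prod.mk.injEq, true_and] at h
      exact hj h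
    · intro h
      exact absurd (Finset.mem_range.2 hn) h
  · rw [if_neg h]
    refine tendsto_nhds_unique h1 ?_
    refine tendsto_const_nhds.congr fun n => ?_
    symm
    refine Finset.sum_eq_zero fun j _ => ?_
    rw [if_neg]
    intro h'
    simp only [line, Prod.mk.injEq] at h'
    exact h (by rw [h'.1, h'.2.1])

theorem t_G8 (hA5 : A5) (hA8 : A8) (hB1 : B1) (hD1 : D1) (hG2 : G2) (hG3 : G3) (hG4 : G4)
    (hG5 : G5) (hG6 : G6) (hG7 : G7) : G8 := by
  classical
  intro G Φ
  obtain ⟨θ, hθ⟩ := hG5 G Φ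
  obtain ⟨c, hc⟩ := hG6 G Φ
  obtain ⟨Q, hQ1, hQ2⟩ := hG7 G
  let P : StrongDual ℝ (mkForest Φ).W →L[ℝ] StrongDual ℝ (mkForest Φ).W :=
    LinearMap.mkContinuous
      { toFun := fun g => g - (innerSL ℝ (Q (c g))).comp θ
        map_add' := by
          intro g g'
          ext w
          simp only [sub_apply, add_apply,
            ContinuousLinearMap.comp_apply, innerSL_apply_apply, map_add, inner_add_left]
          ring
        map_smul' := by
          intro a g
          ext w
          simp only [sub_apply, smul_apply,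
            ContinuousLinearMap.comp_apply, innerSL_apply_apply, map_smul, inner_smul_left,
            RingHom.id_apply, smul_eq_mul, conj_trivial]
          ring } (1 + ‖Q‖ * ‖c‖ * ‖θ‖) (fun g => by
        show ‖g - (innerSL ℝ (Q (c g))).comp θ‖ ≤ _
        refine (norm_sub_le _ _).trans ?_
        have h1 : ‖(innerSL ℝ (Q (c g))).comp θ‖ ≤ ‖Q‖ * ‖c‖ * ‖g‖ * ‖θ‖ := by
          refine (ContinuousLinearMap.opNorm_comp_le _ _).trans ?_
          refine mul_le_mul_of_nonneg_right ?_ (norm_nonneg _)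
          rw [innerSL_apply_norm]
          refine (Q.le_opNorm _).trans ?_
          rw [mul_assoc]
          exact mul_le_mul_of_nonneg_left (c.le_opNorm _) (norm_nonneg _)
        nlinarith [h1])
  have hP : ∀ g w, P g w = g w - inner ℝ (Q (c g)) (θ w) := fun g w => rfl
  have hPa : ∀ g (x : XX Φ), P g (x : (mkForest Φ).W) = g (x : (mkForest Φ).W) := by
    intro g x
    rw [hP, hQ1, sub_zero]
    intro γ k
    rw [hθ, hθ]
    exact (hG2 G Φ x).1 x.2 γ k
  have hPb : ∀ g : StrongDual ℝ (mkForest Φ).W,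
      (∀ x : XX Φ, g (x : (mkForest Φ).W) = 0) → P g = 0 := by
    intro g hg
    have h1 : ∀ γ k i j, g ((mkForest Φ).e (γ, k, i)) = g ((mkForest Φ).e (γ, k, j)) := by
      intro γ k i j
      have := hg ⟨_, (hG4 G Φ γ).1 k i j⟩
      simp only [map_sub] at this
      exact sub_eq_zero.1 this
    have h2 : ∀ γ k, c g (γ, k) = g ((mkForest Φ).e (γ, k, 0)) := by
      intro γ k
      rw [hc]
      refine tendsto_nhds_unique (hD1 _ (mkForest Φ) (line γ k) g) ?_
      refine tendsto_const_nhds.congr fun i => ?_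
      exact h1 γ k 0 i
    have h3 : Q (c g) = c g := by
      refine hQ2 _ fun γ => ?_
      obtain ⟨x, hx, hs, -⟩ := (hG4 G Φ γ).2
      have h4 := hs.mapL g
      rw [hg ⟨x, hx⟩] at h4
      have h5 : (fun b : ℕ => g ((1 / 2 : ℝ) ^ b • (mkForest Φ).e (γ, b, 0))) =
          fun k : ℕ => (1 / 2 : ℝ) ^ k * c g (γ, k) := by
        funext b
        rw [map_smul, h2, smul_eq_mul]
      rw [h5] at h4
      exact h4
    have h5 : ∀ t, P g ((mkForest Φ).e t) = 0 := by
      rintro ⟨γ, k, i⟩
      rw [hP, h3]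
      have h6 : θ ((mkForest Φ).e (γ, k, i)) = lp.single 2 (γ, k) (1 : ℝ) := by
        ext ⟨γ', k'⟩
        rw [hθ, G8_brL_e hA5 hB1 hG3 G Φ γ k i γ' k', lp.single_apply]
        by_cases h : (γ', k') = (γ, k)
        · rw [h]; simp
        · rw [if_neg h]
          simp [Pi.single_apply, h]
      rw [h6, lp.inner_single_right, h2]
      simp [h1 γ k i 0]
    ext w
    have h7 : (Submodule.span ℝ (Set.range (mkForest Φ).e)) ≤
        LinearMap.ker ((P g : (mkForest Φ).W →L[ℝ] ℝ) : (mkForest Φ).W →ₗ[ℝ] ℝ) := by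
      rw [Submodule.span_le]
      rintro _ ⟨t, rfl⟩
      exact h5 t
    have h8 : (Submodule.span ℝ (Set.range (mkForest Φ).e)).topologicalClosure ≤
        LinearMap.ker ((P g : (mkForest Φ).W →L[ℝ] ℝ) : (mkForest Φ).W →ₗ[ℝ] ℝ) :=
      Submodule.topologicalClosure_minimal _ h7 (P g).isClosed_ker
    rw [hA8] at h8
    exact h8 (Submodule.mem_top (x := w))
  have hext : ∀ f : StrongDual ℝ (XX Φ), ∃ g : StrongDual ℝ (mkForest Φ).W,
      (∀ x : XX Φ, g x = f x) ∧ ‖g‖ = ‖f‖ := fun f => exists_extension_norm_eq _ f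
  choose E hE1 hE2 using hext
  have hlin : ∀ g g' : StrongDual ℝ (mkForest Φ).W, (∀ x : XX Φ, g x = g' x) → P g = P g' := by
    intro g g' h
    have := hPb (g - g') (fun x => by
      rw [sub_apply, h x, sub_self])
    rwa [map_sub, sub_eq_zero] at this
  refine ⟨LinearMap.mkContinuous
    { toFun := fun f => P (E f)
      map_add' := by
        intro f f'
        rw [← map_add]
        refine hlin _ _ fun x => ?_
        rw [hE1, add_apply, add_apply, hE1, hE1]
      map_smul' := by
        intro a f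
        rw [RingHom.id_apply, ← map_smul]
        refine hlin _ _ fun x => ?_
        rw [hE1, smul_apply, smul_apply, hE1] } ‖P‖
      (fun f => by
        show ‖P (E f)‖ ≤ _
        rw [← hE2 f]
        exact P.le_opNorm _), fun f x => ?_⟩
  show P (E f) (x : (mkForest Φ).W) = f x
  rw [hPa, hE1]

end Pool.Agent.H191W
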