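import Pool.Agent.H191R4.WG.Stubs

/-! L5: infinite branches (helper473). -/

set_option autoImplicit false
set_option maxSynthPendingDepth 3

namespace Pool.Agent.H191W

open Forest

namespace L5x

variable {T : Type} (F : Forest T)

theorem lev_add {b : ℕ → T} (hb : F.IsBr b) (i j : ℕ) : F.lev (b (i + j)) = F.lev (b i) + j := by
  induction j with
  | zero => rfl
  | succ j ih =>
    have h1 := F.lev_par (b (i + j + 1)) (b (i + j)) (hb (i + j))
    have h2 : i + (j + 1) = i + j + 1 := by omega
    rw [h2, h1, ih]; omega

theorem anc_add {b : ℕ → T} (hb : F.IsBr b) (d : ℕ) : ∀ i, F.anc (b (i + d)) d = some (b i) := by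
  induction d with
  | zero => intro i; rfl
  | succ d ih =>
    intro i
    have h1 := ih (i + 1)
    have h2 : i + (d + 1) = i + 1 + d := by omega
    rw [h2]
    show (F.anc (b (i + 1 + d)) d).bind F.par = some (b i)
    rw [h1]
    exact hb i

theorem anc_none {b : ℕ → T} (hb : F.IsRBr b) (i m : ℕ) : F.anc (b i) (i + 1 + m) = none := by
  induction m with
  | zero =>
    have h1 := anc_add F hb.2 i 0
    rw [Nat.zero_add] at h1
    show (F.anc (b i) i).bind F.par = none
    rw [h1]
    exact hb.1
  | succ m ih =>
    show (F.anc (b i) (i + 1 + m)).bind F.par = none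
    rw [ih]
    rfl

end L5x

open L5x in
theorem t_L5 (_hL1 : L1) : L5 := by
  intro T F b hb
  refine ⟨lev_add F hb, ?_, ?_, ?_, ?_⟩
  · intro i j hij
    have h1 := anc_add F hb (j - i) i
    rwa [Nat.add_sub_cancel' hij] at h1
  · intro i j hij
    have h1 := anc_add F hb (j - i) i
    rw [Nat.add_sub_cancel' hij] at h1
    exact ⟨j - i, h1⟩
  · intro i j hij
    rcases le_total i j with h | h
    · have h1 := lev_add F hb i (j - i)
      rw [Nat.add_sub_cancel' h, hij] at h1
      omega
    · have h1 := lev_add F hb j (i - j)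
      rw [Nat.add_sub_cancel' h, hij] at h1
      omega
  · intro hr
    refine ⟨fun i => ?_, ?_⟩
    · have h1 := lev_add F hb 0 i
      rw [Nat.zero_add, F.lev_root _ hr.1] at h1
      omega
    · rintro i s ⟨j, hj⟩
      rcases le_or_gt j i with h | h
      · have h1 := anc_add F hb j (i - j)
        rw [Nat.sub_add_cancel h, hj] at h1
        exact ⟨i - j, by omega, Option.some.inj h1⟩
      · have h1 := anc_none F hr i (j - (i + 1))
        rw [Nat.add_sub_cancel' (by omega : i + 1 ≤ j), hj] at h1
        exact absurd h1 (by simp)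

end Pool.Agent.H191W
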