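import Pool.Agent.H191R4.WG.Stubs

set_option autoImplicit false
set_option maxSynthPendingDepth 3

open scoped ENNReal Topology
open Filter

namespace Pool.Agent.H191W

open Forest

theorem XX_closed {G : Type} (Φ : G → ℕ → List (G × ℕ)) :
    IsClosed ((XX Φ : Submodule ℝ (mkForest Φ).W) : Set (mkForest Φ).W) := by
  unfold XX
  rw [Submodule.coe_iInf]
  refine isClosed_iInter fun q => ?_
  exact ContinuousLinearMap.isClosed_ker _

theorem t_ZZ (hA4 : A4) (hG1 : G1) (hG9 : G9) (hI7 : I7) : Final := by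
  obtain ⟨Φ, hΦ⟩ := hG1
  haveI := hA4 _ (mkForest Φ)
  haveI : CompleteSpace (XX Φ) := (XX_closed Φ).completeSpace_coe
  exact ⟨XX Φ, inferInstance, inferInstance, inferInstance, hI7 _ Φ hΦ, hG9 _ Φ⟩

end Pool.Agent.H191W
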